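import Pool.Agent.K6.H24.OP.H3

/-!
# KLS for Lorentzian tilts of product measures: statements of the pieces

Density `F(x) ∏ h_i(x_i)` on the positive orthant, `F` a log-concave multi-affine polynomial with nonnegative
coefficients, `h_i` log-concave functions on the half-line.
-/

set_option autoImplicit false

namespace Pool.Agent.K6.H46.LT

open MeasureTheory ProbabilityTheory Finset
open Pool.Agent.K6.H24.OP (LC law PI)

/-- the multi-affine polynomial with the coefficients `c` -/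
noncomputable def poly {n : ℕ} (c : Finset (Fin n) → ℝ) (x : Fin n → ℝ) : ℝ := ∑ S, c S * ∏ i ∈ S, x i

/-- nonnegative coefficients, and log-concave on the open positive orthant -/
structure LCP {n : ℕ} (c : Finset (Fin n) → ℝ) : Prop where
  nonneg : ∀ S, 0 ≤ c S
  conc : ∀ x y : Fin n → ℝ, (∀ i, 0 < x i) → (∀ i, 0 < y i) →
    poly c x * poly c y ≤ poly c (fun i => (x i + y i) / 2) ^ 2

/-- the coefficients of `x ↦ poly c (x + (ε, …, ε))` -/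
noncomputable def sh {n : ℕ} (c : Finset (Fin n) → ℝ) (ε : ℝ) (R : Finset (Fin n)) : ℝ :=
  ∑ A ∈ univ.filter (fun A => R ⊆ A), c A * ε ^ (A \ R).card

/-- the local inequality (log-concavity of all derivatives at the origin) -/
def Loc {n : ℕ} (e : Finset (Fin n) → ℝ) : Prop := ∀ (R : Finset (Fin n)) (a : Fin n → ℝ),
  e R * ∑ i ∈ Rᶜ, ∑ j ∈ (Rᶜ).erase i, e (insert i (insert j R)) * a i * a j ≤ (∑ i ∈ Rᶜ, e (insert i R) * a i) ^ 2

/-- piece D1 -/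
def S_D1 : Prop := ∀ (n : ℕ) (c : Finset (Fin n) → ℝ), LCP c → ∀ ε : ℝ, 0 < ε → Loc (sh c ε)

/-- piece D2: the spectral gap of the birth and death chain -/
def S_D2 : Prop := ∀ (n : ℕ) (e : Finset (Fin n) → ℝ), (∀ S, 0 ≤ e S) →
  (∀ S T : Finset (Fin n), T ⊆ S → 0 < e S → 0 < e T) → Loc e → ∀ g : Finset (Fin n) → ℝ,
  (∑ S, e S) * (∑ S, e S * g S ^ 2) - (∑ S, e S * g S) ^ 2 ≤
    (∑ S, e S) * ∑ S, e S * ∑ i ∈ S, (g S - g (S.erase i)) ^ 2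

/-- a good point of a log-concave function on the half-line -/
structure Pt (h : ℝ → ℝ) (x₁ : ℝ) : Prop where
  pos : 0 < h x₁
  mean : ∫ x, x * h x ≤ 2 * x₁ * ∫ x, h x
  sup : ∀ s, h s ≤ 4 * h x₁
  left : ∀ s t, s ≤ t → t ≤ x₁ → h s ≤ 2 * h t
  tilt : ∀ s, s * h s * ∫ x, h x ≤ 128 * (∫ x, x * h x) * h x₁
  tail : (∫ x, h x) ^ 2 ≤ 16 * (∫ x, x * h x) * h x₁

/-- piece L1 -/
def S_L1 : Prop := ∀ h : ℝ → ℝ, LC h → (∀ x, x < 0 → h x = 0) → 0 < ∫ x, h x → ∃ x₁, Pt h x₁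

/-- comparison of the means of bounded `C¹` functions under two laws on the line -/
def Cmp (a b : Measure ℝ) (K : ℝ) : Prop := ∀ φ : ℝ → ℝ, ContDiff ℝ 1 φ → (∃ B : ℝ, ∀ x, |φ x| ≤ B) →
  Integrable (fun x => deriv φ x ^ 2) a →
    (∫ x, φ x ∂a - ∫ x, φ x ∂b) ^ 2 ≤ K * ∫ x, deriv φ x ^ 2 ∂a

/-- piece L2 -/
def S_L2 : Prop := ∀ (h : ℝ → ℝ) (x₁ : ℝ), LC h → (∀ x, x < 0 → h x = 0) → 0 < ∫ x, h x → Pt h x₁ →
  LC (fun x => x * h x) ∧ 0 < ∫ x, x * h x ∧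
    Cmp (law fun x => x * h x) (law h) (32 * variance (fun x : ℝ => x) (law h))

/-- bounded `C¹` test functions with square integrable partial derivatives -/
structure Tst {n : ℕ} (μ : Measure (Fin n → ℝ)) (f : (Fin n → ℝ) → ℝ) : Prop where
  smooth : ContDiff ℝ 1 f
  bdd : ∃ B : ℝ, ∀ x, |f x| ≤ B
  sq : ∀ i, Integrable (fun x => (fderiv ℝ f x (Pi.single i 1)) ^ 2) μ

/-- piece E: tensorisation -/
def S_E : Prop := ∀ (n : ℕ) (ν : Fin n → Measure ℝ) (w : Fin n → ℝ), (∀ i, IsProbabilityMeasure (ν i)) →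
  (∀ i, 0 ≤ w i) → (∀ i, PI (ν i) (w i)) → ∀ f, Tst (Measure.pi ν) f →
    ∫ x, f x ^ 2 ∂(Measure.pi ν) - (∫ x, f x ∂(Measure.pi ν)) ^ 2 ≤
      ∫ x, ∑ i, w i * (fderiv ℝ f x (Pi.single i 1)) ^ 2 ∂(Measure.pi ν)

/-- piece Q: change of one coordinate -/
def S_Q : Prop := ∀ (n : ℕ) (ν : Fin n → Measure ℝ) (i : Fin n) (b : Measure ℝ) (K : ℝ),
  (∀ i, IsProbabilityMeasure (ν i)) → IsProbabilityMeasure b → 0 ≤ K → Cmp (ν i) b K →
  ∀ f, Tst (Measure.pi ν) f →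
    (∫ x, f x ∂(Measure.pi ν) - ∫ x, f x ∂(Measure.pi (Function.update ν i b))) ^ 2 ≤
      K * ∫ x, (fderiv ℝ f x (Pi.single i 1)) ^ 2 ∂(Measure.pi ν)

/-- piece T: from bounded functions to all functions -/
def S_T : Prop := ∀ (n : ℕ) (μ : Measure (Fin n → ℝ)) (w : Fin n → ℝ), IsProbabilityMeasure μ →
  (∀ i, 0 ≤ w i) →
  (∀ f, Tst μ f → ∫ x, f x ^ 2 ∂μ - (∫ x, f x ∂μ) ^ 2 ≤
    ∫ x, ∑ i, w i * (fderiv ℝ f x (Pi.single i 1)) ^ 2 ∂μ) →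
  ∀ f : (Fin n → ℝ) → ℝ, ContDiff ℝ 1 f →
    (∀ i, Integrable (fun x => (fderiv ℝ f x (Pi.single i 1)) ^ 2) μ) →
    MemLp f 2 μ ∧ variance f μ ≤ ∫ x, ∑ i, w i * (fderiv ℝ f x (Pi.single i 1)) ^ 2 ∂μ

end Pool.Agent.K6.H46.LT
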