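import Pool.Agent.K6.H46.LT.Defs

/-!
# The tilted measure is a mixture of products
-/

set_option autoImplicit false

namespace Pool.Agent.K6.H46.LT

open MeasureTheory ProbabilityTheory Finset
open Pool.Agent.K6.H24.OP (LC law PI lint_pi)
open scoped ENNReal

variable {n : ℕ}

/-- the factors of the component `S` -/
noncomputable def hs (h : Fin n → ℝ → ℝ) (S : Finset (Fin n)) (i : Fin n) : ℝ → ℝ :=
  if i ∈ S then fun x => x * h i x else h i

/-- the component `S` -/
noncomputable def nu (h : Fin n → ℝ → ℝ) (S : Finset (Fin n)) : Measure (Fin n → ℝ) :=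
  Measure.pi fun i => law (hs h S i)

/-- the mass of the component `S` -/
noncomputable def ms (h : Fin n → ℝ → ℝ) (S : Finset (Fin n)) : ℝ := ∏ i, ∫ x, hs h S i x

/-- the density -/
noncomputable def den (c : Finset (Fin n) → ℝ) (h : Fin n → ℝ → ℝ) (x : Fin n → ℝ) : ℝ :=
  poly c x * ∏ i, h i (x i)

theorem den_eq (c : Finset (Fin n) → ℝ) (h : Fin n → ℝ → ℝ) (x : Fin n → ℝ) :
    den c h x = ∑ S, c S * ∏ i, hs h S i (x i) := by
  unfold den poly
  rw [Finset.sum_mul]
  refine Finset.sum_congr rfl fun S _ => ?_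
  rw [mul_assoc]
  congr 1
  have h1 : ∏ i ∈ S, x i = ∏ i, (if i ∈ S then x i else 1) := by
    rw [Finset.prod_ite_mem, Finset.univ_inter]
  rw [h1, ← Finset.prod_mul_distrib]
  refine Finset.prod_congr rfl fun i _ => ?_
  unfold hs
  split_ifs <;> simp

theorem pi_wd' (f : Fin n → ℝ → ℝ≥0∞) (hf : ∀ i, Measurable (f i)) (a : Fin n → ℝ≥0∞)
    [∀ i, SigmaFinite (a i • (volume : Measure ℝ).withDensity (f i))] :
    Measure.pi (fun i : Fin n => a i • (volume : Measure ℝ).withDensity (f i)) =
      (∏ i, a i) • (volume : Measure (Fin n → ℝ)).withDensity (fun x => ∏ i, f i (x i)) := by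
  refine Measure.pi_eq fun s hs => ?_
  rw [Measure.smul_apply, withDensity_apply _ (MeasurableSet.univ_pi hs),
    ← lintegral_indicator (MeasurableSet.univ_pi hs)]
  have h1 : ∀ x : Fin n → ℝ, (Set.univ.pi s).indicator (fun x => ∏ i, f i (x i)) x =
      ∏ i, (s i).indicator (f i) (x i) := by
    intro x
    by_cases hx : x ∈ Set.univ.pi s
    · rw [Set.indicator_of_mem hx]
      refine Finset.prod_congr rfl fun i _ => ?_
      rw [Set.indicator_of_mem (hx i (Set.mem_univ i))]
    · rw [Set.indicator_of_notMem hx]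
      simp only [Set.mem_univ_pi, not_forall] at hx
      obtain ⟨i, hi⟩ := hx
      refine (Finset.prod_eq_zero (Finset.mem_univ i) ?_).symm
      rw [Set.indicator_of_notMem hi]
  simp only [h1]
  rw [lint_pi n _ fun i => (hf i).indicator (hs i), smul_eq_mul, ← Finset.prod_mul_distrib]
  refine Finset.prod_congr rfl fun i _ => ?_
  rw [lintegral_indicator (hs i), Measure.smul_apply, withDensity_apply _ (hs i), smul_eq_mul]

/-- the hypotheses on the factors -/
structure Fac (h : Fin n → ℝ → ℝ) : Prop where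
  lc : ∀ i, LC (h i)
  zero : ∀ i x, x < 0 → h i x = 0
  pos : ∀ i, 0 < ∫ x, h i x
  lc' : ∀ i, LC (fun x => x * h i x)
  pos' : ∀ i, 0 < ∫ x, x * h i x

variable {h : Fin n → ℝ → ℝ} {c : Finset (Fin n) → ℝ}

lemma Fac.hlc (H : Fac h) (S : Finset (Fin n)) (i : Fin n) : LC (hs h S i) := by
  unfold hs
  split_ifs
  · exact H.lc' i
  · exact H.lc i

lemma Fac.hpos (H : Fac h) (S : Finset (Fin n)) (i : Fin n) : 0 < ∫ x, hs h S i x := by
  unfold hs
  split_ifs
  · exact H.pos' i
  · exact H.pos i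

lemma Fac.ms_pos (H : Fac h) (S : Finset (Fin n)) : 0 < ms h S :=
  Finset.prod_pos fun i _ => H.hpos S i

lemma Fac.prob (H : Fac h) (S : Finset (Fin n)) (i : Fin n) :
    IsProbabilityMeasure (law (hs h S i)) :=
  Pool.Agent.K6.H24.OP.law_prob (H.hlc S i) (H.hpos S i)

lemma Fac.nu_prob (H : Fac h) (S : Finset (Fin n)) : IsProbabilityMeasure (nu h S) := by
  have := H.prob S
  unfold nu
  infer_instance

theorem Fac.wd (H : Fac h) (S : Finset (Fin n)) :
    (volume : Measure (Fin n → ℝ)).withDensity (fun x => ENNReal.ofReal (∏ i, hs h S i (x i))) =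
      ENNReal.ofReal (ms h S) • nu h S := by
  have hp := H.prob S
  have hl := H.hlc S
  have h0 := H.hpos S
  have hsf : ∀ i, SigmaFinite ((∫⁻ x, ENNReal.ofReal (hs h S i x))⁻¹ •
      (volume : Measure ℝ).withDensity fun x => ENNReal.ofReal (hs h S i x)) := by
    intro i
    have := hp i
    unfold law at this
    infer_instance
  have h1 := pi_wd' (fun i x => ENNReal.ofReal (hs h S i x))
    (fun i => (hl i).meas.ennreal_ofReal) (fun i => (∫⁻ x, ENNReal.ofReal (hs h S i x))⁻¹)
  have h2 : nu h S = (∏ i, (∫⁻ x, ENNReal.ofReal (hs h S i x))⁻¹) •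
      (volume : Measure (Fin n → ℝ)).withDensity
        (fun x => ∏ i, ENNReal.ofReal (hs h S i (x i))) := h1
  have h3 : ∀ x : Fin n → ℝ, ∏ i, ENNReal.ofReal (hs h S i (x i)) =
      ENNReal.ofReal (∏ i, hs h S i (x i)) := fun x =>
    (ENNReal.ofReal_prod_of_nonneg fun i _ => (hl i).nonneg _).symm
  simp only [h3] at h2
  have h4 : ∀ i, ∫⁻ x, ENNReal.ofReal (hs h S i x) = ENNReal.ofReal (∫ x, hs h S i x) := fun i =>
    Pool.Agent.K6.H24.OP.lint_eq (hl i) (h0 i)
  have h5 : ∏ i, (∫⁻ x, ENNReal.ofReal (hs h S i x))⁻¹ = (ENNReal.ofReal (ms h S))⁻¹ := by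
    unfold ms
    rw [ENNReal.ofReal_prod_of_nonneg fun i _ => (h0 i).le]
    simp only [h4]
    exact (ENNReal.prod_inv_distrib fun i _ j _ _ => by
      left; exact (ENNReal.ofReal_pos.2 (h0 i)).ne').symm
  rw [h5] at h2
  rw [h2, smul_smul, ENNReal.mul_inv_cancel (ENNReal.ofReal_pos.2 (H.ms_pos S)).ne'
    ENNReal.ofReal_ne_top, one_smul]

/-- **The tilted measure is a mixture.** -/
theorem Fac.mix (H : Fac h) (hc : ∀ S, 0 ≤ c S) :
    (volume : Measure (Fin n → ℝ)).withDensity (fun x => ENNReal.ofReal (den c h x)) =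
      ∑ S, ENNReal.ofReal (c S * ms h S) • nu h S := by
  have h1 : (fun x : Fin n → ℝ => ENNReal.ofReal (den c h x)) =
      ∑ S : Finset (Fin n), fun x => ENNReal.ofReal (c S) * ENNReal.ofReal (∏ i, hs h S i (x i)) := by
    funext x
    rw [den_eq, Finset.sum_apply, ENNReal.ofReal_sum_of_nonneg]
    · refine Finset.sum_congr rfl fun S _ => ?_
      rw [ENNReal.ofReal_mul (hc S)]
    · intro S _
      exact mul_nonneg (hc S) (Finset.prod_nonneg fun i _ => (H.hlc S i).nonneg _)
  have hm : ∀ S : Finset (Fin n), Measurable fun x : Fin n → ℝ =>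
      ENNReal.ofReal (∏ i, hs h S i (x i)) := by
    intro S
    refine Measurable.ennreal_ofReal ?_
    exact Finset.measurable_prod _ fun i _ => (H.hlc S i).meas.comp (measurable_pi_apply i)
  rw [h1]
  have h2 : ∀ A : Finset (Finset (Fin n)), (volume : Measure (Fin n → ℝ)).withDensity
      (∑ S ∈ A, fun x => ENNReal.ofReal (c S) * ENNReal.ofReal (∏ i, hs h S i (x i))) =
      ∑ S ∈ A, ENNReal.ofReal (c S * ms h S) • nu h S := by
    classical
    intro A
    induction A using Finset.induction_on with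
    | empty => simp
    | insert S A hS ih =>
      rw [Finset.sum_insert hS, Finset.sum_insert hS, withDensity_add_left ((hm S).const_mul _), ih]
      congr 1
      have e := withDensity_smul (μ := (volume : Measure (Fin n → ℝ))) (ENNReal.ofReal (c S)) (hm S)
      have e' : (ENNReal.ofReal (c S) • fun x : Fin n → ℝ => ENNReal.ofReal (∏ i, hs h S i (x i))) =
          fun x => ENNReal.ofReal (c S) * ENNReal.ofReal (∏ i, hs h S i (x i)) := by
        funext x; rfl
      rw [e'] at e
      rw [e, H.wd S, smul_smul, ENNReal.ofReal_mul (hc S)]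
  exact h2 univ

end Pool.Agent.K6.H46.LT
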