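import Pool.Agent.K6.H46.LT.K1

/-!
# The inequality for bounded functions
-/

set_option autoImplicit false

namespace Pool.Agent.K6.H46.LT

open MeasureTheory ProbabilityTheory Finset
open Pool.Agent.K6.H24.OP (LC law PI)
open scoped ENNReal

variable {n : ℕ} {h : Fin n → ℝ → ℝ} {c : Finset (Fin n) → ℝ}

/-- the tilted measure -/
noncomputable def mu (c : Finset (Fin n) → ℝ) (h : Fin n → ℝ → ℝ) : Measure (Fin n → ℝ) :=
  (∫⁻ x, ENNReal.ofReal (den c h x))⁻¹ • volume.withDensity fun x => ENNReal.ofReal (den c h x)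

/-- the total mass -/
noncomputable def tot (c : Finset (Fin n) → ℝ) (h : Fin n → ℝ → ℝ) : ℝ := ∑ S, c S * ms h S

lemma Fac.tot_pos (H : Fac h) (hc : ∀ S, 0 ≤ c S) (hne : ∃ S, 0 < c S) : 0 < tot c h := by
  obtain ⟨S, hS⟩ := hne
  refine Finset.sum_pos' (fun T _ => mul_nonneg (hc T) (H.ms_pos T).le) ⟨S, mem_univ S, ?_⟩
  exact mul_pos hS (H.ms_pos S)

lemma Fac.lint (H : Fac h) (hc : ∀ S, 0 ≤ c S) :
    ∫⁻ x, ENNReal.ofReal (den c h x) = ENNReal.ofReal (tot c h) := by
  have h1 : ∫⁻ x, ENNReal.ofReal (den c h x) =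
      (volume.withDensity fun x => ENNReal.ofReal (den c h x)) Set.univ := by
    rw [withDensity_apply _ MeasurableSet.univ, Measure.restrict_univ]
  rw [h1, H.mix hc, Measure.finset_sum_apply]
  unfold tot
  rw [ENNReal.ofReal_sum_of_nonneg fun S _ => mul_nonneg (hc S) (H.ms_pos S).le]
  refine Finset.sum_congr rfl fun S _ => ?_
  have := H.nu_prob S
  rw [Measure.smul_apply, measure_univ, smul_eq_mul, mul_one]

theorem Fac.mu_eq (H : Fac h) (hc : ∀ S, 0 ≤ c S) (hne : ∃ S, 0 < c S) :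
    mu c h = ∑ S, ENNReal.ofReal (c S * ms h S / tot c h) • nu h S := by
  have hZ := H.tot_pos hc hne
  unfold mu
  rw [H.lint hc, H.mix hc, Finset.smul_sum]
  refine Finset.sum_congr rfl fun S _ => ?_
  rw [smul_smul]
  congr 1
  rw [div_eq_mul_inv, ENNReal.ofReal_mul (mul_nonneg (hc S) (H.ms_pos S).le),
    ENNReal.ofReal_inv_of_pos hZ, mul_comm]

theorem Fac.mu_prob (H : Fac h) (hc : ∀ S, 0 ≤ c S) (hne : ∃ S, 0 < c S) :
    IsProbabilityMeasure (mu c h) := by
  have hZ := H.tot_pos hc hne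
  constructor
  unfold mu
  rw [Measure.smul_apply, withDensity_apply _ MeasurableSet.univ, Measure.restrict_univ, smul_eq_mul,
    H.lint hc]
  exact ENNReal.inv_mul_cancel (ENNReal.ofReal_pos.2 hZ).ne' ENNReal.ofReal_ne_top

theorem Fac.integrable_nu (H : Fac h) (hc : ∀ S, 0 ≤ c S) {g : (Fin n → ℝ) → ℝ}
    (hg : Integrable g (mu c h)) {S : Finset (Fin n)} (hS : 0 < c S) : Integrable g (nu h S) := by
  have hZ := H.tot_pos hc ⟨S, hS⟩
  rw [H.mu_eq hc ⟨S, hS⟩, integrable_finset_sum_measure] at hg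
  have h1 := hg S (mem_univ S)
  have h2 : ENNReal.ofReal (c S * ms h S / tot c h) ≠ 0 :=
    (ENNReal.ofReal_pos.2 (div_pos (mul_pos hS (H.ms_pos S)) hZ)).ne'
  exact (integrable_smul_measure h2 ENNReal.ofReal_ne_top).1 h1

theorem Fac.int_mu (H : Fac h) (hc : ∀ S, 0 ≤ c S) (hne : ∃ S, 0 < c S) {g : (Fin n → ℝ) → ℝ}
    (hg : Integrable g (mu c h)) :
    ∫ x, g x ∂(mu c h) = ∑ S, c S * ms h S / tot c h * ∫ x, g x ∂(nu h S) := by
  have hZ := H.tot_pos hc hne
  rw [H.mu_eq hc hne] at hg ⊢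
  rw [integral_finset_sum_measure fun S hS => (integrable_finset_sum_measure.1 hg) S hS]
  refine Finset.sum_congr rfl fun S _ => ?_
  rw [integral_smul_measure, ENNReal.toReal_ofReal
    (div_nonneg (mul_nonneg (hc S) (H.ms_pos S).le) hZ.le), smul_eq_mul]

lemma nu_erase (h : Fin n → ℝ → ℝ) (S : Finset (Fin n)) (i : Fin n) :
    nu h (S.erase i) = Measure.pi (Function.update (fun j => law (hs h S j)) i (law (h i))) := by
  unfold nu
  congr 1
  funext j
  by_cases hj : j = i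
  · subst hj
    rw [Function.update_self]
    unfold hs
    simp
  · rw [Function.update_of_ne hj]
    unfold hs
    simp [hj]

/-- **The inequality for bounded functions.** -/
theorem Fac.bounded (H : Fac h) (hc : ∀ S, 0 ≤ c S) (hne : ∃ S, 0 < c S) (hE : S_E) (hQ : S_Q)
    (hD : ∀ g : Finset (Fin n) → ℝ,
      (∑ S, c S * ms h S) * (∑ S, c S * ms h S * g S ^ 2) - (∑ S, c S * ms h S * g S) ^ 2 ≤
      (∑ S, c S * ms h S) * ∑ S, c S * ms h S * ∑ i ∈ S, (g S - g (S.erase i)) ^ 2)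
    (P Q : Fin n → ℝ) (hP0 : ∀ i, 0 ≤ P i) (hQ0 : ∀ i, 0 ≤ Q i)
    (hP : ∀ S i, PI (law (hs h S i)) (P i))
    (hC : ∀ i, Cmp (law fun x => x * h i x) (law (h i)) (Q i))
    (f : (Fin n → ℝ) → ℝ) (hf : Tst (mu c h) f) :
    ∫ x, f x ^ 2 ∂(mu c h) - (∫ x, f x ∂(mu c h)) ^ 2 ≤
      ∫ x, ∑ i, (P i + Q i) * (fderiv ℝ f x (Pi.single i 1)) ^ 2 ∂(mu c h) := by
  have hZ := H.tot_pos hc hne
  have hmu := H.mu_prob hc hne
  set Z : ℝ := tot c h with hZd
  set e : Finset (Fin n) → ℝ := fun S => c S * ms h S with he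
  have he0 : ∀ S, 0 ≤ e S := fun S => mul_nonneg (hc S) (H.ms_pos S).le
  have hZe : Z = ∑ S, e S := rfl
  obtain ⟨B, hB⟩ := hf.bdd
  have hfc := hf.smooth.continuous
  have hB0 : 0 ≤ B := (abs_nonneg _).trans (hB 0)
  have ifm : Integrable f (mu c h) := Integrable.of_bound hfc.aestronglyMeasurable B
    (Filter.Eventually.of_forall fun x => by rw [Real.norm_eq_abs]; exact hB x)
  have ifm2 : Integrable (fun x => f x ^ 2) (mu c h) :=
    Integrable.of_bound (hfc.pow 2).aestronglyMeasurable (B ^ 2)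
      (Filter.Eventually.of_forall fun x => by
        rw [Real.norm_eq_abs, abs_pow]; exact pow_le_pow_left₀ (abs_nonneg _) (hB x) 2)
  have hT : ∀ S, 0 < c S → Tst (nu h S) f := fun S hS =>
    ⟨hf.smooth, hf.bdd, fun i => H.integrable_nu hc (hf.sq i) hS⟩
  set g : Finset (Fin n) → ℝ := fun S => ∫ x, f x ∂(nu h S) with hg
  set A : Finset (Fin n) → ℝ := fun S => ∫ x, f x ^ 2 ∂(nu h S) with hA
  set D : Finset (Fin n) → Fin n → ℝ := fun S i =>
    ∫ x, (fderiv ℝ f x (Pi.single i 1)) ^ 2 ∂(nu h S) with hDd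
  have hD0 : ∀ S i, 0 ≤ D S i := fun S i => integral_nonneg fun x => sq_nonneg _
  have a1 : ∀ S, e S * (A S - g S ^ 2) ≤ e S * ∑ i, P i * D S i := by
    intro S
    rcases (hc S).eq_or_lt with h0 | h0
    · have : e S = 0 := by rw [he]; simp [← h0]
      rw [this]; simp
    · refine mul_le_mul_of_nonneg_left ?_ (he0 S)
      have h1 := hE n (fun i => law (hs h S i)) P (H.prob S) hP0 (fun i => hP S i) f (hT S h0)
      refine h1.trans (le_of_eq ?_)
      have h2 : ∀ i ∈ (univ : Finset (Fin n)), Integrable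
          (fun x => P i * (fderiv ℝ f x (Pi.single i 1)) ^ 2) (Measure.pi fun i => law (hs h S i)) :=
        fun i _ => ((hT S h0).sq i).const_mul _
      rw [integral_finset_sum _ h2]
      refine Finset.sum_congr rfl fun i _ => ?_
      rw [integral_const_mul]
      rfl
  have a2 : ∀ S, e S * ∑ i ∈ S, (g S - g (S.erase i)) ^ 2 ≤ e S * ∑ i, Q i * D S i := by
    intro S
    rcases (hc S).eq_or_lt with h0 | h0
    · have : e S = 0 := by rw [he]; simp [← h0]
      rw [this]; simp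
    · refine mul_le_mul_of_nonneg_left ?_ (he0 S)
      have h1 : ∑ i ∈ S, (g S - g (S.erase i)) ^ 2 ≤ ∑ i ∈ S, Q i * D S i := by
        refine Finset.sum_le_sum fun i hi => ?_
        have hcm : Cmp (law (hs h S i)) (law (h i)) (Q i) := by
          have : hs h S i = fun x => x * h i x := by
            unfold hs; rw [if_pos hi]
          rw [this]
          exact hC i
        have h2 := hQ n (fun i => law (hs h S i)) i (law (h i)) (Q i) (H.prob S)
          (Pool.Agent.K6.H24.OP.law_prob (H.lc i) (H.pos i)) (hQ0 i) hcm f (hT S h0)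
        rw [← nu_erase] at h2
        exact h2
      refine h1.trans (Finset.sum_le_sum_of_subset_of_nonneg (Finset.subset_univ S) fun i _ _ =>
        mul_nonneg (hQ0 i) (hD0 S i))
  have i1 := H.int_mu hc hne ifm
  have i2 := H.int_mu hc hne ifm2
  have hRi : Integrable (fun x => ∑ i, (P i + Q i) * (fderiv ℝ f x (Pi.single i 1)) ^ 2)
      (mu c h) := integrable_finset_sum _ fun i _ => (hf.sq i).const_mul _
  have i3 := H.int_mu hc hne hRi
  have i4 : ∀ S, e S * ∫ x, ∑ i, (P i + Q i) * (fderiv ℝ f x (Pi.single i 1)) ^ 2 ∂(nu h S) =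
      e S * (∑ i, P i * D S i + ∑ i, Q i * D S i) := by
    intro S
    rcases (hc S).eq_or_lt with h0 | h0
    · have : e S = 0 := by rw [he]; simp [← h0]
      rw [this]; simp
    · congr 1
      rw [integral_finset_sum _ fun i _ => ((hT S h0).sq i).const_mul _, ← Finset.sum_add_distrib]
      refine Finset.sum_congr rfl fun i _ => ?_
      rw [integral_const_mul]
      ring
  have hdis := hD g
  rw [i1, i2, i3]
  have s1 : ∑ S, c S * ms h S / Z * A S = (∑ S, e S * A S) / Z := by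
    rw [Finset.sum_div]
    exact Finset.sum_congr rfl fun S _ => by rw [he]; ring
  have s2 : ∑ S, c S * ms h S / Z * g S = (∑ S, e S * g S) / Z := by
    rw [Finset.sum_div]
    exact Finset.sum_congr rfl fun S _ => by rw [he]; ring
  have s3 : ∑ S, c S * ms h S / Z *
      ∫ x, ∑ i, (P i + Q i) * (fderiv ℝ f x (Pi.single i 1)) ^ 2 ∂(nu h S) =
      (∑ S, e S * (∑ i, P i * D S i + ∑ i, Q i * D S i)) / Z := by
    rw [Finset.sum_div]
    refine Finset.sum_congr rfl fun S _ => ?_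
    rw [← i4 S, he]; ring
  have key : (∑ S, e S * A S) / Z - ((∑ S, e S * g S) / Z) ^ 2 ≤
      (∑ S, e S * (∑ i, P i * D S i + ∑ i, Q i * D S i)) / Z := by
    have t1 : ∑ S, e S * A S ≤ ∑ S, e S * g S ^ 2 + ∑ S, e S * ∑ i, P i * D S i := by
      rw [← Finset.sum_add_distrib]
      refine Finset.sum_le_sum fun S _ => ?_
      have := a1 S
      linarith
    have t2 : ∑ S, e S * ∑ i ∈ S, (g S - g (S.erase i)) ^ 2 ≤ ∑ S, e S * ∑ i, Q i * D S i :=
      Finset.sum_le_sum fun S _ => a2 S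
    have t3 : Z * (∑ S, e S * g S ^ 2) - (∑ S, e S * g S) ^ 2 ≤
        Z * ∑ S, e S * ∑ i ∈ S, (g S - g (S.erase i)) ^ 2 := hdis
    have t4 : Z * (∑ S, e S * g S ^ 2) - (∑ S, e S * g S) ^ 2 ≤
        Z * ∑ S, e S * ∑ i, Q i * D S i := t3.trans (mul_le_mul_of_nonneg_left t2 hZ.le)
    have t5 : ∑ S, e S * (∑ i, P i * D S i + ∑ i, Q i * D S i) =
        ∑ S, e S * ∑ i, P i * D S i + ∑ S, e S * ∑ i, Q i * D S i := by
      rw [← Finset.sum_add_distrib]
      exact Finset.sum_congr rfl fun S _ => by ring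
    rw [t5, div_pow, div_sub_div _ _ hZ.ne' (by positivity), div_le_div_iff₀ (by positivity) hZ]
    have t6 := mul_le_mul_of_nonneg_left t1 hZ.le
    have t7 : Z * (∑ S, e S * A S) - (∑ S, e S * g S) ^ 2 ≤
        Z * (∑ S, e S * ∑ i, P i * D S i + ∑ S, e S * ∑ i, Q i * D S i) := by
      linarith
    have t8 := mul_le_mul_of_nonneg_left t7 (by positivity : 0 ≤ Z ^ 2)
    calc ((∑ S, e S * A S) * Z ^ 2 - Z * (∑ S, e S * g S) ^ 2) * Z
        = Z ^ 2 * (Z * (∑ S, e S * A S) - (∑ S, e S * g S) ^ 2) := by ring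
      _ ≤ _ := t8
      _ = _ := by ring
  calc _ = (∑ S, e S * A S) / Z - ((∑ S, e S * g S) / Z) ^ 2 := by rw [← s1, ← s2]
    _ ≤ _ := key
    _ = _ := s3.symm

end Pool.Agent.K6.H46.LT
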