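import Pool.Agent.K6.H46.LT.K2

/-!
# The discrete inequality for log-concave polynomials, scaling
-/

set_option autoImplicit false

namespace Pool.Agent.K6.H46.LT

open MeasureTheory ProbabilityTheory Finset Filter Topology
open Pool.Agent.K6.H24.OP (LC law PI)

variable {n : ℕ}

lemma sh_zero (c : Finset (Fin n) → ℝ) (R : Finset (Fin n)) : sh c 0 R = c R := by
  unfold sh
  rw [Finset.sum_eq_single R]
  · simp
  · intro A hA hne
    have h1 : R ⊆ A := (Finset.mem_filter.1 hA).2
    have h2 : (A \ R).card ≠ 0 := by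
      intro h0
      rw [Finset.card_eq_zero, Finset.sdiff_eq_empty_iff_subset] at h0
      exact hne (Finset.Subset.antisymm h0 h1)
    rw [zero_pow h2, mul_zero]
  · intro hR
    exact absurd (Finset.mem_filter.2 ⟨Finset.mem_univ _, Finset.Subset.refl _⟩) hR

lemma sh_cont (c : Finset (Fin n) → ℝ) (R : Finset (Fin n)) : Continuous fun ε : ℝ => sh c ε R := by
  unfold sh
  fun_prop

/-- **The discrete inequality.** -/
theorem disc (h1 : S_D1) (h2 : S_D2) {c : Finset (Fin n) → ℝ} (hc : LCP c)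
    (g : Finset (Fin n) → ℝ) :
    (∑ S, c S) * (∑ S, c S * g S ^ 2) - (∑ S, c S * g S) ^ 2 ≤
      (∑ S, c S) * ∑ S, c S * ∑ i ∈ S, (g S - g (S.erase i)) ^ 2 := by
  set Φ : ℝ → ℝ := fun ε => (∑ S, sh c ε S) * (∑ S, sh c ε S * g S ^ 2) -
    (∑ S, sh c ε S * g S) ^ 2 with hΦ
  set Ψ : ℝ → ℝ := fun ε => (∑ S, sh c ε S) *
    ∑ S, sh c ε S * ∑ i ∈ S, (g S - g (S.erase i)) ^ 2 with hΨ
  have hcont := sh_cont c
  have cΦ : Continuous Φ := by
    rw [hΦ]
    refine ((continuous_finset_sum _ fun S _ => hcont S).mul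
      (continuous_finset_sum _ fun S _ => (hcont S).mul continuous_const)).sub
      ((continuous_finset_sum _ fun S _ => (hcont S).mul continuous_const).pow 2)
  have cΨ : Continuous Ψ := by
    rw [hΨ]
    exact (continuous_finset_sum _ fun S _ => hcont S).mul
      (continuous_finset_sum _ fun S _ => (hcont S).mul continuous_const)
  have hle : ∀ ε : ℝ, 0 < ε → Φ ε ≤ Ψ ε := by
    intro ε hε
    have hnn : ∀ S, 0 ≤ sh c ε S := fun S => Finset.sum_nonneg fun A _ =>
      mul_nonneg (hc.nonneg A) (pow_nonneg hε.le _)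
    refine h2 n (sh c ε) hnn ?_ (h1 n c hc ε hε) g
    intro S T hTS hpos
    unfold sh at hpos ⊢
    obtain ⟨A, hA, hA'⟩ := Finset.exists_lt_of_sum_lt (by simpa using hpos :
      ∑ A ∈ univ.filter (fun A => S ⊆ A), (0:ℝ) <
        ∑ A ∈ univ.filter (fun A => S ⊆ A), c A * ε ^ (A \ S).card)
    have hcA : 0 < c A := by
      by_contra hcon
      have : c A = 0 := le_antisymm (not_lt.1 hcon) (hc.nonneg A)
      rw [this, zero_mul] at hA'
      exact lt_irrefl _ hA'
    have hSA : S ⊆ A := (Finset.mem_filter.1 hA).2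
    refine Finset.sum_pos' (fun B _ => mul_nonneg (hc.nonneg B) (pow_nonneg hε.le _))
      ⟨A, Finset.mem_filter.2 ⟨Finset.mem_univ _, hTS.trans hSA⟩, ?_⟩
    exact mul_pos hcA (pow_pos hε _)
  have key : Φ 0 ≤ Ψ 0 := by
    refine le_of_tendsto_of_tendsto (b := 𝓝[>] (0:ℝ)) ((cΦ.tendsto 0).mono_left nhdsWithin_le_nhds)
      ((cΨ.tendsto 0).mono_left nhdsWithin_le_nhds) ?_
    filter_upwards [self_mem_nhdsWithin] with ε hε
    exact hle ε hε
  rw [hΦ, hΨ] at key
  simpa only [sh_zero] using key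

/-- scaling of the variables -/
theorem LCP.scale {c : Finset (Fin n) → ℝ} (hc : LCP c) {I J : Fin n → ℝ} (hI : ∀ i, 0 < I i)
    (hJ : ∀ i, 0 < J i) :
    LCP fun S => c S * ∏ i, (if i ∈ S then J i else I i) := by
  have e : ∀ x : Fin n → ℝ, poly (fun S => c S * ∏ i, (if i ∈ S then J i else I i)) x =
      (∏ i, I i) * poly c (fun i => J i / I i * x i) := by
    intro x
    unfold poly
    rw [Finset.mul_sum]
    refine Finset.sum_congr rfl fun S _ => ?_
    have h1 : ∏ i, (if i ∈ S then J i else I i) =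
        (∏ i, I i) * ∏ i ∈ S, (J i / I i) := by
      have : ∏ i ∈ S, (J i / I i) = ∏ i, (if i ∈ S then J i / I i else 1) := by
        rw [Finset.prod_ite_mem, Finset.univ_inter]
      rw [this, ← Finset.prod_mul_distrib]
      refine Finset.prod_congr rfl fun i _ => ?_
      have := (hI i).ne'
      split_ifs
      · field_simp
      · ring
    beta_reduce
    rw [h1, Finset.prod_mul_distrib]
    ring
  have hP : 0 < ∏ i, I i := Finset.prod_pos fun i _ => hI i
  refine ⟨fun S => mul_nonneg (hc.nonneg S) (Finset.prod_nonneg fun i _ => ?_), ?_⟩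
  · split_ifs
    · exact (hJ i).le
    · exact (hI i).le
  · intro x y hx hy
    rw [e, e, e]
    have h1 := hc.conc (fun i => J i / I i * x i) (fun i => J i / I i * y i)
      (fun i => mul_pos (div_pos (hJ i) (hI i)) (hx i))
      (fun i => mul_pos (div_pos (hJ i) (hI i)) (hy i))
    have h2 : (fun i => (J i / I i * x i + J i / I i * y i) / 2) =
        fun i => J i / I i * ((x i + y i) / 2) := by
      funext i; ring
    rw [h2] at h1
    have h3 := mul_le_mul_of_nonneg_left h1 (sq_nonneg (∏ i, I i))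
    calc _ = (∏ i, I i) ^ 2 * (poly c (fun i => J i / I i * x i) *
          poly c fun i => J i / I i * y i) := by ring
      _ ≤ _ := h3
      _ = _ := by ring

lemma ms_eq (h : Fin n → ℝ → ℝ) (S : Finset (Fin n)) :
    ms h S = ∏ i, (if i ∈ S then ∫ x, x * h i x else ∫ x, h i x) := by
  unfold ms hs
  refine Finset.prod_congr rfl fun i _ => ?_
  split_ifs <;> rfl

/-- the discrete inequality for the weights of the mixture -/
theorem Fac.disc (h1 : S_D1) (h2 : S_D2) {h : Fin n → ℝ → ℝ} {c : Finset (Fin n) → ℝ}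
    (H : Fac h) (hc : LCP c) (g : Finset (Fin n) → ℝ) :
    (∑ S, c S * ms h S) * (∑ S, c S * ms h S * g S ^ 2) - (∑ S, c S * ms h S * g S) ^ 2 ≤
      (∑ S, c S * ms h S) * ∑ S, c S * ms h S * ∑ i ∈ S, (g S - g (S.erase i)) ^ 2 := by
  have := LT.disc h1 h2 (hc.scale (I := fun i => ∫ x, h i x) (J := fun i => ∫ x, x * h i x)
    H.pos H.pos') g
  simpa only [ms_eq] using this

end Pool.Agent.K6.H46.LT
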