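import Pool.Agent.K6.H46.LT.K3

/-!
# The factors
-/

set_option autoImplicit false

namespace Pool.Agent.K6.H46.LT

open MeasureTheory ProbabilityTheory Finset Filter Topology
open Pool.Agent.K6.H24.OP (LC law PI)

/-- the constants of one factor -/
structure Lin (h : ℝ → ℝ) (v : ℝ) : Prop where
  pos : 0 < v
  lc' : LC (fun x => x * h x)
  pos' : 0 < ∫ x, x * h x
  pi : PI (law h) (16 * v)
  pi' : PI (law fun x => x * h x) (16 * v)
  var : v ≤ 196608 * variance (fun x : ℝ => x) (law h)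
  var' : v ≤ 196608 * variance (fun x : ℝ => x) (law fun x => x * h x)
  cmp : Cmp (law fun x => x * h x) (law h) (128 * v)

lemma var_id_le {ν : Measure ℝ} [IsProbabilityMeasure ν] {C : ℝ} (h : PI ν C) :
    variance (fun x : ℝ => x) ν ≤ C := by
  have hd : ∀ x : ℝ, ‖fderiv ℝ (fun x : ℝ => x) x‖ = 1 := by
    intro x
    rw [Pool.Agent.K6.H24.OP.norm_fderiv_line]
    simp
  have h1 := (h (fun x => x) contDiff_id (by simp only [hd]; exact memLp_const 1)).2
  simpa [hd] using h1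

theorem line (h1 : S_L1) (h2 : S_L2) {h : ℝ → ℝ} (hl : LC h) (h0 : ∀ x, x < 0 → h x = 0)
    (hp : 0 < ∫ x, h x) : ∃ v, Lin h v := by
  obtain ⟨x₁, P⟩ := h1 h hl h0 hp
  obtain ⟨hl', hp', hC⟩ := h2 h x₁ hl h0 hp P
  set I : ℝ := ∫ x, h x with hI
  set J : ℝ := ∫ x, x * h x with hJ
  have hx1 : 0 < h x₁ := P.pos
  have hx0 : 0 < x₁ := by
    have := P.mean
    by_contra hc
    have h3 : 2 * x₁ * I ≤ 0 := by nlinarith [not_lt.1 hc]
    linarith
  have hn := Pool.Agent.K6.H24.OP.law_null hl hp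
  have hn' := Pool.Agent.K6.H24.OP.law_null hl' hp'
  have hpr := Pool.Agent.K6.H24.OP.law_prob hl hp
  have hpr' := Pool.Agent.K6.H24.OP.law_prob hl' hp'
  set v : ℝ := (I / h x₁) ^ 2 with hv
  have hv0 : 0 < v := by rw [hv]; positivity
  have a1 : PI (law h) (4 * v) := by
    refine Pool.Agent.K6.H24.OP.pi_line_of_poinc (by positivity) ?_
    exact Pool.Agent.K6.H24.OP.poinc_of_point hl hp hx1
  have a2 : PI (law fun x => x * h x) (16 * v) := by
    have hy : 0 < (fun x => x * h x) x₁ := mul_pos hx0 hx1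
    have h3 := Pool.Agent.K6.H24.OP.poinc_of_point hl' hp' hy
    have h4 := Pool.Agent.K6.H24.OP.pi_line_of_poinc (by positivity) h3
    refine h4.mono ?_
    have h5 : (∫ x, x * h x) / (x₁ * h x₁) ≤ 2 * (I / h x₁) := by
      rw [div_le_iff₀ (mul_pos hx0 hx1)]
      calc ∫ x, x * h x ≤ 2 * x₁ * I := P.mean
        _ = 2 * (I / h x₁) * (x₁ * h x₁) := by field_simp
    have h6 : ((∫ x, x * h x) / (x₁ * h x₁)) ^ 2 ≤ (2 * (I / h x₁)) ^ 2 :=
      pow_le_pow_left₀ (by positivity) h5 2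
    calc 4 * ((∫ x, x * h x) / (x₁ * h x₁)) ^ 2 ≤ 4 * (2 * (I / h x₁)) ^ 2 := by linarith
      _ = 16 * v := by rw [hv]; ring
  have a3 : v ≤ 196608 * variance (fun x : ℝ => x) (law h) := by
    have h3 := Pool.Agent.K6.H24.OP.var_ge hl hp (M := 4 * h x₁ / I) (by positivity) (by
      intro x
      have := P.sup x
      rw [← hI, div_mul_cancel₀ _ hp.ne']
      exact this)
    have h4 : 1 / (12 * (4 * h x₁ / I) ^ 2) = v / 192 := by
      rw [hv]; field_simp; ring
    rw [h4] at h3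
    linarith
  have a4 : v ≤ 196608 * variance (fun x : ℝ => x) (law fun x => x * h x) := by
    have h3 := Pool.Agent.K6.H24.OP.var_ge hl' hp' (M := 128 * h x₁ / I) (by positivity) (by
      intro x
      have h5 := P.tilt x
      rw [← hI, ← hJ] at h5
      rw [← hJ, div_mul_eq_mul_div, le_div_iff₀ hp]
      linarith)
    have h4 : 1 / (12 * (128 * h x₁ / I) ^ 2) = v / 196608 := by
      rw [hv]; field_simp; ring
    rw [h4] at h3
    linarith
  refine ⟨v, hv0, hl', hp', a1.mono (by linarith), a2, a3, a4, ?_⟩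
  intro φ hφ hb hi
  refine (hC φ hφ hb hi).trans ?_
  refine mul_le_mul_of_nonneg_right ?_ (integral_nonneg fun x => sq_nonneg _)
  have := var_id_le a1
  linarith

variable {n : ℕ} {h : Fin n → ℝ → ℝ} {c : Finset (Fin n) → ℝ}

/-- everything is known about the factors -/
structure Data (c : Finset (Fin n) → ℝ) (h : Fin n → ℝ → ℝ) (v : Fin n → ℝ) : Prop where
  fac : Fac h
  lcp : LCP c
  ne : ∃ S, 0 < c S
  v_pos : ∀ i, 0 < v i
  pi : ∀ S i, PI (law (hs h S i)) (16 * v i)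
  var : ∀ S i, v i ≤ 196608 * variance (fun x : ℝ => x) (law (hs h S i))
  cmp : ∀ i, Cmp (law fun x => x * h i x) (law (h i)) (128 * v i)

theorem exists_data (h1 : S_L1) (h2 : S_L2) (hl : ∀ i, LC (h i)) (h0 : ∀ i x, x < 0 → h i x = 0)
    (hp : ∀ i, 0 < ∫ x, h i x) (hc : LCP c) (hne : ∃ S, 0 < c S) : ∃ v, Data c h v := by
  choose v hv using fun i => line h1 h2 (hl i) (h0 i) (hp i)
  refine ⟨v, ⟨hl, h0, hp, fun i => (hv i).lc', fun i => (hv i).pos'⟩, hc, hne, fun i => (hv i).pos,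
    ?_, ?_, fun i => (hv i).cmp⟩
  · intro S i
    unfold hs
    split_ifs
    · exact (hv i).pi'
    · exact (hv i).pi
  · intro S i
    unfold hs
    split_ifs
    · exact (hv i).var'
    · exact (hv i).var

/-- **The weighted inequality for all functions.** -/
theorem Data.main {v : Fin n → ℝ} (K : Data c h v) (hD1 : S_D1) (hD2 : S_D2) (hE : S_E) (hQ : S_Q)
    (hT : S_T) {f : (Fin n → ℝ) → ℝ} (hf : ContDiff ℝ 1 f)
    (hi : ∀ i, Integrable (fun x => (fderiv ℝ f x (Pi.single i 1)) ^ 2) (mu c h)) :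
    MemLp f 2 (mu c h) ∧ variance f (mu c h) ≤
      ∫ x, ∑ i, 144 * v i * (fderiv ℝ f x (Pi.single i 1)) ^ 2 ∂(mu c h) := by
  have hpr := K.fac.mu_prob K.lcp.nonneg K.ne
  refine hT n (mu c h) (fun i => 144 * v i) hpr (fun i => by have := K.v_pos i; positivity) ?_ f hf hi
  intro f hf
  have h3 := K.fac.bounded K.lcp.nonneg K.ne hE hQ (K.fac.disc hD1 hD2 K.lcp)
    (fun i => 16 * v i) (fun i => 128 * v i) (fun i => by have := K.v_pos i; positivity)
    (fun i => by have := K.v_pos i; positivity) K.pi K.cmp f hf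
  refine h3.trans (le_of_eq ?_)
  congr 1
  funext x
  refine Finset.sum_congr rfl fun i _ => ?_
  ring

end Pool.Agent.K6.H46.LT
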