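import Pool.Agent.K6.H46.LT.K4

/-!
# The covariance of the tilted measure
-/

set_option autoImplicit false

namespace Pool.Agent.K6.H46.LT

open MeasureTheory ProbabilityTheory Finset Filter Topology
open Pool.Agent.K6.H24.OP (LC law PI)

variable {n : ℕ} {h : Fin n → ℝ → ℝ} {c : Finset (Fin n) → ℝ}

theorem Fac.integrable_mu (H : Fac h) (hc : ∀ S, 0 ≤ c S) (hne : ∃ S, 0 < c S)
    {g : (Fin n → ℝ) → ℝ} (hg : ∀ S, Integrable g (nu h S)) : Integrable g (mu c h) := by
  rw [H.mu_eq hc hne, integrable_finset_sum_measure]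
  intro S _
  exact (hg S).smul_measure ENNReal.ofReal_ne_top

lemma Fac.coord (H : Fac h) (S : Finset (Fin n)) (i : Fin n) :
    MemLp (fun x : ℝ => x) 2 (law (hs h S i)) :=
  Pool.Agent.K6.H24.OP.law_memLp (H.hlc S i) (H.hpos S i)

lemma Fac.lin_memLp (H : Fac h) (S : Finset (Fin n)) (θ : Fin n → ℝ) :
    MemLp (fun x : Fin n → ℝ => ∑ i, θ i * x i) 2 (nu h S) := by
  have hp := H.prob S
  have h1 : ∀ i ∈ (univ : Finset (Fin n)),
      MemLp (fun x : Fin n → ℝ => θ i * x i) 2 (nu h S) := by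
    intro i _
    have h2 := ((H.coord S i).const_mul (θ i)).comp_measurePreserving
      (measurePreserving_eval (fun i => law (hs h S i)) i)
    exact h2
  have h3 := memLp_finset_sum univ h1
  exact h3

lemma Fac.lin_var (H : Fac h) (S : Finset (Fin n)) (θ : Fin n → ℝ) :
    variance (fun x : Fin n → ℝ => ∑ i, θ i * x i) (nu h S) =
      ∑ i, θ i ^ 2 * variance (fun x : ℝ => x) (law (hs h S i)) := by
  have hp := H.prob S
  have h1 := variance_sum_pi (μ := fun i => law (hs h S i)) (X := fun i x => θ i * x)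
    fun i => (H.coord S i).const_mul (θ i)
  have e : (∑ i, fun ω : Fin n → ℝ => θ i * ω i) = fun x : Fin n → ℝ => ∑ i, θ i * x i := by
    funext x
    rw [Finset.sum_apply]
  rw [e] at h1
  unfold nu
  rw [h1]
  exact Finset.sum_congr rfl fun i _ => variance_const_mul _ _ _

/-- **The covariance is bounded below by a diagonal matrix.** -/
theorem Data.cov {v : Fin n → ℝ} (K : Data c h v) (θ : Fin n → ℝ) :
    ∑ i, θ i ^ 2 * v i ≤ 196608 * variance (fun x : Fin n → ℝ => ∑ i, θ i * x i) (mu c h) := by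
  have H := K.fac
  have hc := K.lcp.nonneg
  have hpr := H.mu_prob hc K.ne
  have hZ := H.tot_pos hc K.ne
  set X : (Fin n → ℝ) → ℝ := fun x => ∑ i, θ i * x i with hX
  have hXc : Continuous X := by rw [hX]; fun_prop
  set m : ℝ := ∫ x, X x ∂(mu c h) with hm
  have hi : ∀ S, Integrable (fun x => (X x - m) ^ 2) (nu h S) := by
    intro S
    have := H.nu_prob S
    exact ((H.lin_memLp S θ).sub (memLp_const m)).integrable_sq
  have h1 : variance X (mu c h) = ∑ S, c S * ms h S / tot c h *
      ∫ x, (X x - m) ^ 2 ∂(nu h S) := by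
    rw [variance_eq_integral hXc.aemeasurable, ← hm]
    exact H.int_mu hc K.ne (H.integrable_mu hc K.ne hi)
  have h2 : ∀ S, variance X (nu h S) ≤ ∫ x, (X x - m) ^ 2 ∂(nu h S) := by
    intro S
    have := H.nu_prob S
    rw [← variance_sub_const hXc.aestronglyMeasurable m]
    exact variance_le_expectation_sq (hXc.sub continuous_const).aestronglyMeasurable
  have h3 : ∀ S, ∑ i, θ i ^ 2 * v i ≤ 196608 * ∫ x, (X x - m) ^ 2 ∂(nu h S) := by
    intro S
    have h4 := H.lin_var S θ
    have h5 : ∑ i, θ i ^ 2 * v i ≤ 196608 * variance X (nu h S) := by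
      rw [hX, h4, Finset.mul_sum]
      refine Finset.sum_le_sum fun i _ => ?_
      have := mul_le_mul_of_nonneg_left (K.var S i) (sq_nonneg (θ i))
      linarith
    have := h2 S
    linarith
  have h4 : ∑ S, c S * ms h S / tot c h = 1 := by
    rw [← Finset.sum_div]
    exact div_self hZ.ne'
  rw [h1, Finset.mul_sum]
  calc ∑ i, θ i ^ 2 * v i = ∑ S, c S * ms h S / tot c h * ∑ i, θ i ^ 2 * v i := by
        rw [← Finset.sum_mul, h4, one_mul]
    _ ≤ ∑ S, 196608 * (c S * ms h S / tot c h * ∫ x, (X x - m) ^ 2 ∂(nu h S)) := by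
        refine Finset.sum_le_sum fun S _ => ?_
        have h5 : 0 ≤ c S * ms h S / tot c h :=
          div_nonneg (mul_nonneg (hc S) (H.ms_pos S).le) hZ.le
        have := mul_le_mul_of_nonneg_left (h3 S) h5
        linarith

end Pool.Agent.K6.H46.LT
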