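import Pool.Agent.K6.H46.LT.K5

/-!
# Linear images
-/

set_option autoImplicit false

namespace Pool.Agent.K6.H46.LT

open MeasureTheory ProbabilityTheory Finset Filter Topology
open Pool.Agent.K6.H24.OP (LC law PI Eu meas_toLp)
open scoped InnerProductSpace

variable {n m : ℕ} {h : Fin n → ℝ → ℝ} {c : Finset (Fin n) → ℝ}

/-- the density on Euclidean space -/
noncomputable def denE (c : Finset (Fin n) → ℝ) (h : Fin n → ℝ → ℝ) (x : Eu n) : ℝ :=
  den c h (WithLp.ofLp x)

/-- the measure on Euclidean space -/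
noncomputable def muE (c : Finset (Fin n) → ℝ) (h : Fin n → ℝ → ℝ) : Measure (Eu n) :=
  (∫⁻ x, ENNReal.ofReal (denE c h x))⁻¹ • volume.withDensity fun x => ENNReal.ofReal (denE c h x)

lemma den_meas (H : ∀ i, Measurable (h i)) : Measurable (den c h) := by
  unfold den poly
  refine Measurable.mul ?_ ?_
  · fun_prop
  · exact Finset.measurable_prod _ fun i _ => (H i).comp (measurable_pi_apply i)

theorem muE_eq (H : ∀ i, Measurable (h i)) :
    muE c h = Measure.map (WithLp.toLp 2) (mu c h) := by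
  have hm := (den_meas (c := c) H).ennreal_ofReal
  have hmE : Measurable fun x : Eu n => ENNReal.ofReal (denE c h x) := by
    unfold denE
    exact hm.comp (PiLp.continuous_ofLp 2 _).measurable
  have hv := PiLp.volume_preserving_toLp (Fin n)
  have h1 : ∫⁻ x, ENNReal.ofReal (denE c h x) = ∫⁻ x, ENNReal.ofReal (den c h x) := by
    rw [← hv.map_eq, lintegral_map hmE meas_toLp]
    rfl
  unfold muE mu
  rw [h1, Measure.map_smul]
  congr 1
  ext s hs
  rw [Measure.map_apply meas_toLp hs, withDensity_apply _ (hs.preimage meas_toLp),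
    withDensity_apply _ hs, ← hv.map_eq, setLIntegral_map hs hmE meas_toLp]
  rfl

lemma toLp_single (i : Fin n) :
    (WithLp.toLp 2 (Pi.single i (1:ℝ)) : Eu n) = EuclideanSpace.single i 1 := rfl

/-- **KLS for the linear images.** -/
theorem Data.image {v : Fin n → ℝ} (K : Data c h v) (hD1 : S_D1) (hD2 : S_D2) (hE : S_E) (hQ : S_Q)
    (hT : S_T) (T : Eu n →ₗ[ℝ] Eu m) (s : ℝ)
    (hs : ∀ θ : Eu m, ‖θ‖ = 1 → variance (fun y => ⟪y, θ⟫_ℝ) (Measure.map T (muE c h)) ≤ s) :
    PI (Measure.map T (muE c h)) (28311552 * s) := by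
  have hTc : Continuous T := T.continuous_of_finiteDimensional
  rw [muE_eq fun i => (K.fac.lc i).meas, Measure.map_map hTc.measurable meas_toLp] at hs ⊢
  have hpr := K.fac.mu_prob K.lcp.nonneg K.ne
  set μ := mu c h with hμ
  -- the linear map
  set L : (Fin n → ℝ) →L[ℝ] Eu m := (LinearMap.toContinuousLinearMap T).comp
    ((PiLp.continuousLinearEquiv 2 ℝ (fun _ : Fin n => ℝ)).symm : (Fin n → ℝ) →L[ℝ] Eu n) with hL
  have hLf : (T ∘ (WithLp.toLp 2) : (Fin n → ℝ) → Eu m) = L := rfl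
  rw [hLf] at hs ⊢
  have hLm : Measurable L := L.continuous.measurable
  set t : Fin n → Eu m := fun i => L (Pi.single i 1) with ht
  have hLx : ∀ x, L x = ∑ i, x i • t i := by
    intro x
    conv_lhs => rw [← Finset.univ_sum_single x]
    rw [map_sum]
    refine Finset.sum_congr rfl fun i _ => ?_
    have : Pi.single i (x i) = x i • (Pi.single i (1:ℝ) : Fin n → ℝ) := by
      ext j
      by_cases hj : j = i
      · subst hj; simp
      · simp [hj]
    rw [this, map_smul]
  -- the quadratic form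
  have hquad : ∀ η : Eu m, ∑ i, 144 * v i * ⟪η, t i⟫_ℝ ^ 2 ≤ 28311552 * s * ‖η‖ ^ 2 := by
    intro η
    by_cases hη : η = 0
    · subst hη
      simp
    have hη0 : 0 < ‖η‖ := norm_pos_iff.2 hη
    have h1 := K.cov fun i => ⟪η, t i⟫_ℝ
    have h2 : (fun x : Fin n → ℝ => ∑ i, ⟪η, t i⟫_ℝ * x i) = fun x => ⟪L x, η⟫_ℝ := by
      funext x
      rw [hLx, sum_inner]
      refine Finset.sum_congr rfl fun i _ => ?_
      rw [real_inner_smul_left, real_inner_comm]
      ring
    rw [h2] at h1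
    have h3 := hs (‖η‖⁻¹ • η) (by
      rw [norm_smul, norm_inv, norm_norm, inv_mul_cancel₀ hη0.ne'])
    rw [variance_map (by fun_prop) hLm.aemeasurable] at h3
    have h4 : (fun y : Eu m => ⟪y, ‖η‖⁻¹ • η⟫_ℝ) ∘ L = fun x => ‖η‖⁻¹ * ⟪L x, η⟫_ℝ := by
      funext x
      simp only [Function.comp, real_inner_smul_right]
    rw [h4, variance_const_mul] at h3
    have h5 : variance (fun x => ⟪L x, η⟫_ℝ) μ ≤ s * ‖η‖ ^ 2 := by
      have h6 := mul_le_mul_of_nonneg_right h3 (sq_nonneg ‖η‖)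
      calc variance (fun x => ⟪L x, η⟫_ℝ) μ
          = ‖η‖⁻¹ ^ 2 * variance (fun x => ⟪L x, η⟫_ℝ) μ * ‖η‖ ^ 2 := by
            field_simp
        _ ≤ _ := h6
    have h7 : ∑ i, 144 * v i * ⟪η, t i⟫_ℝ ^ 2 = 144 * ∑ i, ⟪η, t i⟫_ℝ ^ 2 * v i := by
      rw [Finset.mul_sum]
      exact Finset.sum_congr rfl fun i _ => by ring
    rw [h7]
    nlinarith
  intro g hg hgm
  have hgc : Continuous fun y => ‖fderiv ℝ g y‖ := (hg.continuous_fderiv one_ne_zero).norm
  have hgm' : MemLp (fun x => ‖fderiv ℝ g (L x)‖) 2 μ :=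
    (memLp_map_measure_iff hgc.aestronglyMeasurable hLm.aemeasurable).1 hgm
  set f : (Fin n → ℝ) → ℝ := fun x => g (L x) with hf
  have hfc : ContDiff ℝ 1 f := hg.comp L.contDiff
  have hfd : ∀ x i, fderiv ℝ f x (Pi.single i 1) = fderiv ℝ g (L x) (t i) := by
    intro x i
    have h2 : HasFDerivAt g (fderiv ℝ g (L x)) (L x) :=
      ((hg.differentiable one_ne_zero) _).hasFDerivAt
    have h3 := h2.comp x L.hasFDerivAt
    have h4 : fderiv ℝ f x = _ := h3.fderiv
    rw [h4]
    rfl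
  have hgr : ∀ y : Eu m, ∃ η : Eu m, (∀ z, fderiv ℝ g y z = ⟪η, z⟫_ℝ) ∧ ‖η‖ = ‖fderiv ℝ g y‖ := by
    intro y
    refine ⟨(InnerProductSpace.toDual ℝ (Eu m)).symm (fderiv ℝ g y), fun z => ?_,
      LinearIsometryEquiv.norm_map _ _⟩
    rw [InnerProductSpace.toDual_symm_apply]
  have hi : ∀ i, Integrable (fun x => (fderiv ℝ f x (Pi.single i 1)) ^ 2) μ := by
    intro i
    have h1 := hgm'.integrable_sq.mul_const (‖t i‖ ^ 2)
    have hcont : Continuous fun x => (fderiv ℝ f x (Pi.single i 1)) ^ 2 :=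
      ((hfc.continuous_fderiv one_ne_zero).clm_apply continuous_const).pow 2
    refine h1.mono' hcont.aestronglyMeasurable (Filter.Eventually.of_forall fun x => ?_)
    rw [Real.norm_eq_abs, abs_of_nonneg (sq_nonneg _), hfd, ← mul_pow]
    rw [← sq_abs]
    exact pow_le_pow_left₀ (abs_nonneg _) ((fderiv ℝ g (L x)).le_opNorm (t i)) 2
  obtain ⟨a1, a2⟩ := K.main hD1 hD2 hE hQ hT hfc hi
  refine ⟨(memLp_map_measure_iff hg.continuous.aestronglyMeasurable hLm.aemeasurable).2 a1, ?_⟩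
  rw [variance_map hg.continuous.aemeasurable hLm.aemeasurable]
  refine a2.trans ?_
  have h5 : ∫ y, ‖fderiv ℝ g y‖ ^ 2 ∂(Measure.map L μ) = ∫ x, ‖fderiv ℝ g (L x)‖ ^ 2 ∂μ :=
    integral_map hLm.aemeasurable (hgc.pow 2).aestronglyMeasurable
  rw [h5, ← integral_const_mul]
  refine integral_mono (integrable_finset_sum _ fun i _ => (hi i).const_mul _)
    (hgm'.integrable_sq.const_mul _) fun x => ?_
  obtain ⟨η, e1, e2⟩ := hgr (L x)
  have := hquad η
  simp only [hfd, e1, ← e2]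
  exact this

end Pool.Agent.K6.H46.LT
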