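import Pool.Agent.K6.H46.LT.K6

/-!
# Log-concavity of the density
-/

set_option autoImplicit false

namespace Pool.Agent.K6.H46.LT

open MeasureTheory ProbabilityTheory Finset Filter Topology
open Pool.Agent.K6.H24.OP (LC law PI Eu meas_toLp)

variable {n : ℕ} {h : Fin n → ℝ → ℝ} {c : Finset (Fin n) → ℝ}

/-- log-concave on the closed positive orthant -/
def LCO (F : (Fin n → ℝ) → ℝ) : Prop := ∀ (x y : Fin n → ℝ) (t : ℝ), (∀ i, 0 ≤ x i) → (∀ i, 0 ≤ y i) →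
  0 < t → t < 1 → F x ^ (1 - t) * F y ^ t ≤ F (fun i => (1 - t) * x i + t * y i)

lemma poly_nonneg (hc : ∀ S, 0 ≤ c S) {x : Fin n → ℝ} (hx : ∀ i, 0 ≤ x i) : 0 ≤ poly c x :=
  Finset.sum_nonneg fun S _ => mul_nonneg (hc S) (Finset.prod_nonneg fun i _ => hx i)

theorem lcp_of_lco (hc : ∀ S, 0 ≤ c S) (h1 : LCO (poly c)) : LCP c := by
  refine ⟨hc, fun x y hx hy => ?_⟩
  have h2 := h1 x y (1 / 2) (fun i => (hx i).le) (fun i => (hy i).le) (by norm_num) (by norm_num)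
  have e : (fun i => (1 - 1 / 2 : ℝ) * x i + 1 / 2 * y i) = fun i => (x i + y i) / 2 := by
    funext i; ring
  rw [e] at h2
  have hx0 := poly_nonneg hc fun i => (hx i).le
  have hy0 := poly_nonneg hc fun i => (hy i).le
  have e2 : (1 - 1 / 2 : ℝ) = 1 / 2 := by norm_num
  rw [e2, ← Real.mul_rpow hx0 hy0, ← Real.sqrt_eq_rpow] at h2
  have h3 := pow_le_pow_left₀ (Real.sqrt_nonneg _) h2 2
  rwa [Real.sq_sqrt (mul_nonneg hx0 hy0)] at h3

lemma den_zero (h0 : ∀ i x, x < 0 → h i x = 0) {x : Fin n → ℝ} (hx : ¬ ∀ i, 0 ≤ x i) :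
    den c h x = 0 := by
  push Not at hx
  obtain ⟨i, hi⟩ := hx
  unfold den
  rw [Finset.prod_eq_zero (Finset.mem_univ i) (h0 i _ hi), mul_zero]

lemma den_nonneg (hc : ∀ S, 0 ≤ c S) (hl : ∀ i, LC (h i)) (h0 : ∀ i x, x < 0 → h i x = 0)
    (x : Fin n → ℝ) : 0 ≤ den c h x := by
  by_cases hx : ∀ i, 0 ≤ x i
  · exact mul_nonneg (poly_nonneg hc hx) (Finset.prod_nonneg fun i _ => (hl i).nonneg _)
  · rw [den_zero h0 hx]

theorem den_lc (hc : ∀ S, 0 ≤ c S) (h1 : LCO (poly c)) (hl : ∀ i, LC (h i))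
    (h0 : ∀ i x, x < 0 → h i x = 0) (x y : Fin n → ℝ) (t : ℝ) (ht : 0 < t) (ht' : t < 1) :
    den c h x ^ (1 - t) * den c h y ^ t ≤ den c h (fun i => (1 - t) * x i + t * y i) := by
  by_cases hx : ∀ i, 0 ≤ x i
  · by_cases hy : ∀ i, 0 ≤ y i
    · have a1 := h1 x y t hx hy ht ht'
      have a2 : (∏ i, h i (x i)) ^ (1 - t) * (∏ i, h i (y i)) ^ t ≤
          ∏ i, h i ((1 - t) * x i + t * y i) := by
        rw [← Real.finset_prod_rpow _ _ fun i _ => (hl i).nonneg _,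
          ← Real.finset_prod_rpow _ _ fun i _ => (hl i).nonneg _, ← Finset.prod_mul_distrib]
        refine Finset.prod_le_prod (fun i _ => mul_nonneg (Real.rpow_nonneg ((hl i).nonneg _) _)
          (Real.rpow_nonneg ((hl i).nonneg _) _)) fun i _ => (hl i).conc _ _ t ht ht'
      have p1 := poly_nonneg hc hx
      have p2 := poly_nonneg hc hy
      have q1 : 0 ≤ ∏ i, h i (x i) := Finset.prod_nonneg fun i _ => (hl i).nonneg _
      have q2 : 0 ≤ ∏ i, h i (y i) := Finset.prod_nonneg fun i _ => (hl i).nonneg _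
      unfold den
      rw [Real.mul_rpow p1 q1, Real.mul_rpow p2 q2]
      calc _ = (poly c x ^ (1 - t) * poly c y ^ t) *
            ((∏ i, h i (x i)) ^ (1 - t) * (∏ i, h i (y i)) ^ t) := by ring
        _ ≤ _ := by
            refine mul_le_mul a1 a2 (mul_nonneg (Real.rpow_nonneg q1 _) (Real.rpow_nonneg q2 _)) ?_
            refine poly_nonneg hc fun i => ?_
            have := mul_nonneg (by linarith : 0 ≤ 1 - t) (hx i)
            have := mul_nonneg ht.le (hy i)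
            linarith
    · rw [den_zero h0 hy, Real.zero_rpow ht.ne', mul_zero]
      exact den_nonneg hc hl h0 _
  · rw [den_zero h0 hx, Real.zero_rpow (by linarith : (1 - t) ≠ 0), zero_mul]
    exact den_nonneg hc hl h0 _

/-- **The theorem, from the pieces.** -/
theorem main_of (h1 : S_D1) (h2 : S_D2) (h3 : S_L1) (h4 : S_L2) (h5 : S_E) (h6 : S_Q) (h7 : S_T)
    (n : ℕ) (c : Finset (Fin n) → ℝ) (h : Fin n → ℝ → ℝ) (hc : ∀ S, 0 ≤ c S)
    (hne : ∃ S, c S ≠ 0) (hF : LCO (poly c)) (hl : ∀ i, LC (h i))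
    (h0 : ∀ i x, x < 0 → h i x = 0) (hp : ∀ i, 0 < ∫ x, h i x) :
    IsProbabilityMeasure (muE c h) ∧ ∀ (m : ℕ) (T : Eu n →ₗ[ℝ] Eu m) (s : ℝ),
      (∀ θ : Eu m, ‖θ‖ = 1 →
        variance (fun y => inner ℝ y θ) (Measure.map T (muE c h)) ≤ s) →
      PI (Measure.map T (muE c h)) (28311552 * s) := by
  have hne' : ∃ S, 0 < c S := by
    obtain ⟨S, hS⟩ := hne
    exact ⟨S, lt_of_le_of_ne (hc S) (Ne.symm hS)⟩
  obtain ⟨v, K⟩ := exists_data h3 h4 hl h0 hp (lcp_of_lco hc hF) hne'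
  refine ⟨?_, fun m T s hs => K.image h1 h2 h5 h6 h7 T s hs⟩
  rw [muE_eq fun i => (hl i).meas]
  have := K.fac.mu_prob hc hne'
  exact Measure.isProbabilityMeasure_map meas_toLp.aemeasurable

end Pool.Agent.K6.H46.LT
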