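import Pool.Agent.K6.H46.LT.Defs

/-!
# Piece D1: log-concave multi-affine polynomials satisfy the local inequality
-/

set_option autoImplicit false

namespace Pool.Agent.K6.H46.LT

open Finset Filter Topology

/-- the second order expansion of `∑ t ^ |T| F(T)` at `0` -/
lemma expand_two {n : ℕ} (S : Finset (Fin n)) : ∀ F : Finset (Fin n) → ℝ, ∃ ψ : ℝ → ℝ, Continuous ψ ∧
    ∀ t : ℝ, ∑ T ∈ S.powerset, t ^ T.card * F T = F ∅ + t * ∑ i ∈ S, F {i} +
      t ^ 2 / 2 * ∑ i ∈ S, ∑ j ∈ S.erase i, F {i, j} + t ^ 3 * ψ t := by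
  induction S using Finset.induction_on with
  | empty => intro F; exact ⟨fun _ => 0, continuous_const, fun t => by simp⟩
  | insert k S hk ih =>
    intro F
    obtain ⟨ψ₁, h₁, e₁⟩ := ih F
    obtain ⟨ψ₂, h₂, e₂⟩ := ih (fun T => F (insert k T))
    refine ⟨fun t => ψ₁ t + 1 / 2 * ∑ i ∈ S, ∑ j ∈ S.erase i, F (insert k {i, j}) + t * ψ₂ t,
      by fun_prop, fun t => ?_⟩
    rw [Finset.sum_powerset_insert hk]
    have h0 : ∑ T ∈ S.powerset, t ^ (insert k T).card * F (insert k T) =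
        t * ∑ T ∈ S.powerset, t ^ T.card * F (insert k T) := by
      rw [Finset.mul_sum]
      refine Finset.sum_congr rfl fun T hT => ?_
      rw [Finset.card_insert_of_notMem (fun h => hk (Finset.mem_powerset.mp hT h))]
      ring
    have h3 : ∑ i ∈ S, ∑ j ∈ (insert k S).erase i, F {i, j} =
        ∑ i ∈ S, F {k, i} + ∑ i ∈ S, ∑ j ∈ S.erase i, F {i, j} := by
      rw [← Finset.sum_add_distrib]
      refine Finset.sum_congr rfl fun i hi => ?_
      have hne : k ≠ i := fun h => hk (h ▸ hi)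
      rw [Finset.erase_insert_of_ne hne, Finset.sum_insert (fun h => hk (Finset.mem_of_mem_erase h)),
        Finset.pair_comm i k]
    rw [h0, e₁ t, e₂ t, Finset.sum_insert hk, Finset.sum_insert hk, Finset.erase_insert hk, h3]
    simp only [insert_empty_eq]
    ring

/-- midpoint log-concavity at `α` and the second order expansion -/
lemma second_order {α B Q : ℝ} {ψ : ℝ → ℝ} (hψ : Continuous ψ)
    (h : ∀ᶠ t in 𝓝[>] (0 : ℝ), (α + t * B + t ^ 2 / 2 * Q + t ^ 3 * ψ t) *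
      (α + (-t) * B + (-t) ^ 2 / 2 * Q + (-t) ^ 3 * ψ (-t)) ≤ α ^ 2) : α * Q ≤ B ^ 2 := by
  set Z : ℝ → ℝ := fun t => α * Q - B ^ 2 + t ^ 2 * Q ^ 2 / 4 +
    t * (α + t ^ 2 / 2 * Q) * (ψ t - ψ (-t)) - t ^ 2 * B * (ψ t + ψ (-t)) -
    t ^ 4 * (ψ t * ψ (-t)) with hZ
  have hc : Continuous Z := by fun_prop
  have hlim : Tendsto Z (𝓝[>] 0) (𝓝 (Z 0)) := (hc.tendsto 0).mono_left nhdsWithin_le_nhds
  have hle : ∀ᶠ t in 𝓝[>] (0 : ℝ), Z t ≤ 0 := by
    filter_upwards [h, self_mem_nhdsWithin] with t ht htp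
    have htp' : (0 : ℝ) < t := htp
    have e : (α + t * B + t ^ 2 / 2 * Q + t ^ 3 * ψ t) *
      (α + (-t) * B + (-t) ^ 2 / 2 * Q + (-t) ^ 3 * ψ (-t)) - α ^ 2 = t ^ 2 * Z t := by
      simp only [hZ]
      ring
    have h2 : t ^ 2 * Z t ≤ 0 := by linarith
    by_contra hcon
    push Not at hcon
    have := mul_pos (pow_pos htp' 2) hcon
    linarith
  have h0 : Z 0 ≤ 0 := le_of_tendsto hlim hle
  have e0 : Z 0 = α * Q - B ^ 2 := by simp [hZ]
  linarith

/-- the derivative of `poly c` in the directions of `R`, at the origin in these directions -/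
noncomputable def GG {n : ℕ} (c : Finset (Fin n) → ℝ) (R : Finset (Fin n)) (v : Fin n → ℝ) : ℝ :=
  ∑ A ∈ univ.filter (fun A => R ⊆ A), c A * ∏ i ∈ A \ R, v i

lemma poly_scale {n : ℕ} (c : Finset (Fin n) → ℝ) (R : Finset (Fin n)) (v : Fin n → ℝ) {δ : ℝ}
    (hδ : 0 < δ) : δ ^ R.card * poly c (fun i => if i ∈ R then δ⁻¹ else v i) =
      ∑ A, c A * (δ ^ (R \ A).card * ∏ i ∈ A \ R, v i) := by
  unfold poly
  rw [Finset.mul_sum]
  refine Finset.sum_congr rfl fun A _ => ?_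
  rw [Finset.prod_ite, Finset.prod_const]
  have e1 : A.filter (fun i => i ∈ R) = A ∩ R := by
    ext; simp
  have e2 : A.filter (fun i => i ∉ R) = A \ R := by
    ext; simp
  rw [e1, e2]
  have e3 : R.card = (R \ A).card + (A ∩ R).card := by
    rw [Finset.inter_comm]
    exact (Finset.card_sdiff_add_card_inter R A).symm
  rw [e3, pow_add, inv_pow]
  have : δ ^ (A ∩ R).card ≠ 0 := (pow_pos hδ _).ne'
  field_simp

lemma tendsto_scale {n : ℕ} (c : Finset (Fin n) → ℝ) (R : Finset (Fin n)) (v : Fin n → ℝ) :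
    Tendsto (fun δ : ℝ => δ ^ R.card * poly c (fun i => if i ∈ R then δ⁻¹ else v i)) (𝓝[>] 0)
      (𝓝 (GG c R v)) := by
  have h1 : Tendsto (fun δ : ℝ => ∑ A, c A * (δ ^ (R \ A).card * ∏ i ∈ A \ R, v i)) (𝓝[>] 0)
      (𝓝 (∑ A, c A * ((0 : ℝ) ^ (R \ A).card * ∏ i ∈ A \ R, v i))) := by
    refine Tendsto.mono_left ?_ nhdsWithin_le_nhds
    have hc : Continuous (fun δ : ℝ => ∑ A, c A * (δ ^ (R \ A).card * ∏ i ∈ A \ R, v i)) := by
      fun_prop
    exact hc.tendsto 0
  have e : ∑ A, c A * ((0 : ℝ) ^ (R \ A).card * ∏ i ∈ A \ R, v i) = GG c R v := by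
    unfold GG
    rw [Finset.sum_filter]
    refine Finset.sum_congr rfl fun A _ => ?_
    split_ifs with h
    · rw [Finset.sdiff_eq_empty_iff_subset.mpr h]
      simp
    · have h0 : (R \ A).card ≠ 0 := by
        rw [Ne, Finset.card_eq_zero, Finset.sdiff_eq_empty_iff_subset]
        exact h
      rw [zero_pow h0]
      simp
  rw [← e]
  refine h1.congr' ?_
  filter_upwards [self_mem_nhdsWithin] with δ hδ
  exact (poly_scale c R v hδ).symm

lemma GG_mid {n : ℕ} {c : Finset (Fin n) → ℝ} (hc : LCP c) (R : Finset (Fin n)) (v w : Fin n → ℝ)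
    (hv : ∀ i, 0 < v i) (hw : ∀ i, 0 < w i) :
    GG c R v * GG c R w ≤ GG c R (fun i => (v i + w i) / 2) ^ 2 := by
  have h1 := (tendsto_scale c R v).mul (tendsto_scale c R w)
  have h2 := (tendsto_scale c R (fun i => (v i + w i) / 2)).pow 2
  refine le_of_tendsto_of_tendsto h1 h2 ?_
  filter_upwards [self_mem_nhdsWithin] with δ hδ
  have hδ' : (0 : ℝ) < δ := hδ
  have h3 := hc.conc (fun i => if i ∈ R then δ⁻¹ else v i) (fun i => if i ∈ R then δ⁻¹ else w i)
    (fun i => by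
      split_ifs
      · exact inv_pos.mpr hδ'
      · exact hv i)
    (fun i => by
      split_ifs
      · exact inv_pos.mpr hδ'
      · exact hw i)
  have e : (fun i => ((if i ∈ R then δ⁻¹ else v i) + (if i ∈ R then δ⁻¹ else w i)) / 2) =
      fun i => if i ∈ R then δ⁻¹ else (v i + w i) / 2 := by
    funext i
    split_ifs
    · ring
    · rfl
  rw [e] at h3
  have h4 := mul_le_mul_of_nonneg_left h3 (pow_pos (pow_pos hδ' R.card) 2).le
  calc _ = (δ ^ R.card) ^ 2 * (poly c (fun i => if i ∈ R then δ⁻¹ else v i) *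
        poly c (fun i => if i ∈ R then δ⁻¹ else w i)) := by ring
    _ ≤ _ := h4
    _ = _ := by rw [mul_pow]

lemma GG_expand {n : ℕ} (c : Finset (Fin n) → ℝ) (R : Finset (Fin n)) (ε : ℝ) (a : Fin n → ℝ) (t : ℝ) :
    GG c R (fun i => ε + t * a i) =
      ∑ T ∈ (Rᶜ).powerset, t ^ T.card * ((∏ i ∈ T, a i) * sh c ε (T ∪ R)) := by
  unfold GG sh
  have h1 : ∀ A : Finset (Fin n), c A * ∏ i ∈ A \ R, (ε + t * a i) =
      ∑ T ∈ (A \ R).powerset, c A * (t ^ T.card * (∏ i ∈ T, a i) * ε ^ (A \ (T ∪ R)).card) := by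
    intro A
    have e0 : ∏ i ∈ A \ R, (ε + t * a i) = ∏ i ∈ A \ R, (t * a i + ε) :=
      Finset.prod_congr rfl fun i _ => add_comm _ _
    rw [e0, Finset.prod_add, Finset.mul_sum]
    refine Finset.sum_congr rfl fun T hT => ?_
    rw [Finset.prod_mul_distrib, Finset.prod_const, Finset.prod_const]
    have e1 : (A \ R) \ T = A \ (T ∪ R) := by
      ext i
      simp only [Finset.mem_sdiff, Finset.mem_union]
      tauto
    rw [e1]
  rw [Finset.sum_congr rfl fun A _ => h1 A]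
  have h2 : ∀ T : Finset (Fin n), t ^ T.card * ((∏ i ∈ T, a i) *
      ∑ A ∈ univ.filter (fun A => T ∪ R ⊆ A), c A * ε ^ (A \ (T ∪ R)).card) =
      ∑ A ∈ univ.filter (fun A => T ∪ R ⊆ A),
        c A * (t ^ T.card * (∏ i ∈ T, a i) * ε ^ (A \ (T ∪ R)).card) := by
    intro T
    rw [Finset.mul_sum, Finset.mul_sum]
    refine Finset.sum_congr rfl fun A _ => ?_
    ring
  rw [Finset.sum_congr rfl fun T _ => h2 T]
  refine Finset.sum_comm' fun A T => ?_
  simp only [Finset.mem_filter, Finset.mem_univ, true_and, Finset.mem_powerset]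
  constructor
  · rintro ⟨hA, hT⟩
    refine ⟨Finset.union_subset (hT.trans Finset.sdiff_subset) hA, fun i hi => ?_⟩
    rw [Finset.mem_compl]
    exact (Finset.mem_sdiff.mp (hT hi)).2
  · rintro ⟨hA, hT⟩
    refine ⟨Finset.union_subset_right hA, fun i hi => ?_⟩
    rw [Finset.mem_sdiff]
    exact ⟨hA (Finset.mem_union_left _ hi), Finset.mem_compl.mp (hT hi)⟩

/-- **piece D1** -/
theorem proof_D1 : S_D1 := by
  intro n c hc ε hε R a
  obtain ⟨ψ, hψ, hexp⟩ := expand_two (Rᶜ) (fun T => (∏ i ∈ T, a i) * sh c ε (T ∪ R))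
  have hB : ∑ i ∈ Rᶜ, (∏ k ∈ ({i} : Finset (Fin n)), a k) * sh c ε ({i} ∪ R) =
      ∑ i ∈ Rᶜ, sh c ε (insert i R) * a i := by
    refine Finset.sum_congr rfl fun i _ => ?_
    rw [Finset.prod_singleton, ← Finset.insert_eq, mul_comm]
  have hQ : ∑ i ∈ Rᶜ, ∑ j ∈ (Rᶜ).erase i, (∏ k ∈ ({i, j} : Finset (Fin n)), a k) * sh c ε ({i, j} ∪ R) =
      ∑ i ∈ Rᶜ, ∑ j ∈ (Rᶜ).erase i, sh c ε (insert i (insert j R)) * a i * a j := by
    refine Finset.sum_congr rfl fun i _ => Finset.sum_congr rfl fun j hj => ?_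
    rw [Finset.prod_pair (Finset.ne_of_mem_erase hj).symm, Finset.insert_union, ← Finset.insert_eq]
    ring
  simp only [Finset.prod_empty, one_mul, Finset.empty_union] at hexp
  rw [hB, hQ] at hexp
  refine second_order hψ ?_
  -- positivity for small `t`
  have hpos : ∀ᶠ t in 𝓝[>] (0 : ℝ), ∀ i, 0 < ε + t * a i ∧ 0 < ε + (-t) * a i := by
    rw [Filter.eventually_all]
    intro i
    refine Filter.Eventually.filter_mono nhdsWithin_le_nhds ?_
    have h1 : Tendsto (fun t : ℝ => ε + t * a i) (𝓝 0) (𝓝 ε) := by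
      have hcont : Continuous (fun t : ℝ => ε + t * a i) := by fun_prop
      have := hcont.tendsto 0
      simpa using this
    have h2 : Tendsto (fun t : ℝ => ε + (-t) * a i) (𝓝 0) (𝓝 ε) := by
      have hcont : Continuous (fun t : ℝ => ε + (-t) * a i) := by fun_prop
      have := hcont.tendsto 0
      simpa using this
    exact (h1.eventually (lt_mem_nhds hε)).and (h2.eventually (lt_mem_nhds hε))
  filter_upwards [hpos] with t ht
  have hm := GG_mid hc R (fun i => ε + t * a i) (fun i => ε + (-t) * a i)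
    (fun i => (ht i).1) (fun i => (ht i).2)
  have e0 : (fun i => ((ε + t * a i) + (ε + (-t) * a i)) / 2) = fun i => ε + 0 * a i := by
    funext i
    ring
  rw [e0, GG_expand, GG_expand, GG_expand, hexp, hexp, hexp] at hm
  simpa using hm

end Pool.Agent.K6.H46.LT
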