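import Pool.Agent.K6.H46.LT.Defs

/-!
# Piece D2: spectral gap of the birth and death chain (discrete Bochner method)
-/

set_option autoImplicit false

namespace Pool.Agent.K6.H46.LT

open Finset

namespace D2

variable {n : ℕ}

theorem reidx (F : Finset (Fin n) → Fin n → ℝ) :
    ∑ S, ∑ i ∈ S, F S i = ∑ R : Finset (Fin n), ∑ i ∈ Rᶜ, F (insert i R) i := by
  rw [Finset.sum_sigma', Finset.sum_sigma']
  refine Finset.sum_nbij' (fun p => ⟨p.1.erase p.2, p.2⟩) (fun p => ⟨insert p.2 p.1, p.2⟩)
    ?_ ?_ ?_ ?_ ?_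
  · rintro ⟨S, i⟩ h
    simp
  · rintro ⟨S, i⟩ h
    simp
  · rintro ⟨S, i⟩ h
    simp only [mem_sigma, mem_univ, true_and] at h
    simp [Finset.insert_erase h]
  · rintro ⟨S, i⟩ h
    simp only [mem_sigma, mem_univ, true_and, mem_compl] at h
    simp [Finset.erase_insert h]
  · rintro ⟨S, i⟩ h
    simp only [mem_sigma, mem_univ, true_and] at h
    simp [Finset.insert_erase h]

/-- symmetry of sums over ordered pairs -/
theorem pair_symm (A : Finset (Fin n)) (G : Fin n → Fin n → ℝ) :
    ∑ i ∈ A, ∑ j ∈ A.erase i, G i j = ∑ i ∈ A, ∑ j ∈ A.erase i, G j i := by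
  have h : ∀ H : Fin n → Fin n → ℝ, ∑ i ∈ A, ∑ j ∈ A.erase i, H i j =
      ∑ i ∈ A, ∑ j ∈ A, if j = i then 0 else H i j := by
    intro H
    refine Finset.sum_congr rfl fun i hi => ?_
    rw [← Finset.add_sum_erase A _ hi]
    simp only [if_true, zero_add]
    refine Finset.sum_congr rfl fun j hj => ?_
    rw [if_neg (Finset.ne_of_mem_erase hj)]
  rw [h, h, Finset.sum_comm]
  refine Finset.sum_congr rfl fun i _ => Finset.sum_congr rfl fun j _ => ?_
  by_cases hij : i = j
  · simp [hij]
  · rw [if_neg hij, if_neg (Ne.symm hij)]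

/-- reindexing of ordered pairs in a set -/
theorem reidx2 (G : Finset (Fin n) → Fin n → Fin n → ℝ) :
    ∑ S, ∑ i ∈ S, ∑ j ∈ S.erase i, G S i j =
      ∑ R : Finset (Fin n), ∑ i ∈ Rᶜ, ∑ j ∈ Rᶜ.erase i, G (insert i (insert j R)) i j := by
  rw [reidx (fun S i => ∑ j ∈ S.erase i, G S i j)]
  have h1 : ∀ R : Finset (Fin n), ∑ i ∈ Rᶜ, ∑ j ∈ (insert i R).erase i, G (insert i R) i j =
      ∑ j ∈ R, ∑ i ∈ Rᶜ, G (insert i R) i j := by
    intro R
    rw [Finset.sum_comm]
    refine Finset.sum_congr rfl fun i hi => ?_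
    rw [Finset.erase_insert (Finset.mem_compl.1 hi)]
  rw [Finset.sum_congr rfl fun R _ => h1 R, reidx (fun R j => ∑ i ∈ Rᶜ, G (insert i R) i j)]
  refine Finset.sum_congr rfl fun R _ => ?_
  rw [pair_symm]
  refine Finset.sum_congr rfl fun j _ => ?_
  rw [Finset.compl_insert]

/-- reindexing of pairs (an element, a non-element) -/
theorem reidx3 (G : Finset (Fin n) → Fin n → Fin n → ℝ) :
    ∑ S : Finset (Fin n), ∑ i ∈ Sᶜ, ∑ j ∈ S, G S i j =
      ∑ R : Finset (Fin n), ∑ i ∈ Rᶜ, ∑ j ∈ Rᶜ.erase i, G (insert j R) i j := by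
  have h1 : ∀ S : Finset (Fin n), ∑ i ∈ Sᶜ, ∑ j ∈ S, G S i j = ∑ j ∈ S, ∑ i ∈ Sᶜ, G S i j :=
    fun S => Finset.sum_comm
  rw [Finset.sum_congr rfl fun S _ => h1 S, reidx (fun S j => ∑ i ∈ Sᶜ, G S i j)]
  refine Finset.sum_congr rfl fun R _ => ?_
  rw [pair_symm]
  refine Finset.sum_congr rfl fun j _ => ?_
  rw [Finset.compl_insert]

/-- discrete derivative -/
def dd (f : Finset (Fin n) → ℝ) (i : Fin n) (R : Finset (Fin n)) : ℝ := f (insert i R) - f R

/-- the Dirichlet form -/
noncomputable def EE (e : Finset (Fin n) → ℝ) (u f : Finset (Fin n) → ℝ) : ℝ :=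
  ∑ R : Finset (Fin n), ∑ i ∈ Rᶜ, e (insert i R) * (dd u i R * dd f i R)

theorem EE_eq (e g : Finset (Fin n) → ℝ) :
    ∑ S, e S * ∑ i ∈ S, (g S - g (S.erase i)) ^ 2 = EE e g g := by
  have h1 : ∀ S : Finset (Fin n), e S * ∑ i ∈ S, (g S - g (S.erase i)) ^ 2 =
      ∑ i ∈ S, e S * (g S - g (S.erase i)) ^ 2 := fun S => Finset.mul_sum _ _ _
  rw [Finset.sum_congr rfl fun S _ => h1 S, reidx (fun S i => e S * (g S - g (S.erase i)) ^ 2)]
  refine Finset.sum_congr rfl fun R _ => Finset.sum_congr rfl fun i hi => ?_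
  rw [Finset.erase_insert (Finset.mem_compl.1 hi), dd, sq]

theorem EE_nonneg {e : Finset (Fin n) → ℝ} (he : ∀ S, 0 ≤ e S) (f : Finset (Fin n) → ℝ) :
    0 ≤ EE e f f :=
  Finset.sum_nonneg fun _ _ => Finset.sum_nonneg fun _ _ =>
    mul_nonneg (he _) (mul_self_nonneg _)

theorem EE_add (e u f : Finset (Fin n) → ℝ) :
    EE e (fun S => u S + f S) (fun S => u S + f S) = EE e u u + 2 * EE e u f + EE e f f := by
  unfold EE
  rw [Finset.mul_sum, ← Finset.sum_add_distrib, ← Finset.sum_add_distrib]
  refine Finset.sum_congr rfl fun R _ => ?_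
  rw [Finset.mul_sum, ← Finset.sum_add_distrib, ← Finset.sum_add_distrib]
  refine Finset.sum_congr rfl fun i _ => ?_
  unfold dd
  ring

/-- the up part of the generator, times `e` -/
noncomputable def up (e f : Finset (Fin n) → ℝ) (S : Finset (Fin n)) : ℝ :=
  ∑ i ∈ Sᶜ, e (insert i S) * dd f i S

/-- the down part of the generator -/
noncomputable def dn (f : Finset (Fin n) → ℝ) (S : Finset (Fin n)) : ℝ :=
  ∑ i ∈ S, dd f i (S.erase i)

/-- the generator -/
noncomputable def LL (e f : Finset (Fin n) → ℝ) (S : Finset (Fin n)) : ℝ :=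
  up e f S / e S - dn f S

section main

variable {e : Finset (Fin n) → ℝ} (he : ∀ S, 0 ≤ e S)
  (hX : ∀ S T : Finset (Fin n), T ⊆ S → 0 < e S → 0 < e T)

include he hX in
theorem e_zero {S : Finset (Fin n)} (h : e S = 0) {T : Finset (Fin n)} (hT : S ⊆ T) : e T = 0 := by
  rcases (he T).eq_or_lt with h1 | h1
  · exact h1.symm
  · exact absurd (hX T S hT h1) (by rw [h]; exact lt_irrefl _)

include he hX in
theorem up_div (f : Finset (Fin n) → ℝ) (S : Finset (Fin n)) : e S * (up e f S / e S) = up e f S := by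
  rcases (he S).eq_or_lt with h1 | h1
  · rw [← h1, zero_mul]
    symm
    refine Finset.sum_eq_zero fun i _ => ?_
    rw [e_zero he hX h1.symm (Finset.subset_insert i S), zero_mul]
  · field_simp

include he hX in
/-- summation by parts -/
theorem parts (u f : Finset (Fin n) → ℝ) : ∑ S, e S * (u S * LL e f S) = - EE e u f := by
  have h1 : ∀ S, e S * (u S * LL e f S) =
      (∑ i ∈ Sᶜ, u S * (e (insert i S) * dd f i S)) -
        ∑ i ∈ S, e S * (u S * dd f i (S.erase i)) := by
    intro S
    rw [← Finset.mul_sum, ← Finset.mul_sum, ← Finset.mul_sum]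
    change _ = u S * up e f S - e S * (u S * dn f S)
    have h2 := up_div he hX f S
    unfold LL
    linear_combination u S * h2
  rw [Finset.sum_congr rfl fun S _ => h1 S, Finset.sum_sub_distrib,
    reidx (fun S i => e S * (u S * dd f i (S.erase i))), ← Finset.sum_sub_distrib]
  unfold EE
  rw [← Finset.sum_neg_distrib]
  refine Finset.sum_congr rfl fun R _ => ?_
  rw [← Finset.sum_sub_distrib, ← Finset.sum_neg_distrib]
  refine Finset.sum_congr rfl fun i hi => ?_
  rw [Finset.erase_insert (Finset.mem_compl.1 hi)]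
  unfold dd
  ring

include he hX in
theorem up_sq (hL : Loc e) (f : Finset (Fin n) → ℝ) (R : Finset (Fin n)) :
    ∑ i ∈ Rᶜ, ∑ j ∈ Rᶜ.erase i, e (insert i (insert j R)) * (dd f i R * dd f j R) ≤
      e R * (up e f R / e R) ^ 2 := by
  rcases (he R).eq_or_lt with h1 | h1
  · rw [← h1, zero_mul]
    refine le_of_eq (Finset.sum_eq_zero fun i _ => Finset.sum_eq_zero fun j _ => ?_)
    rw [e_zero he hX h1.symm ((Finset.subset_insert j R).trans (Finset.subset_insert i _)),
      zero_mul]
  · have h2 := hL R (fun i => dd f i R)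
    have h3 : ∑ i ∈ Rᶜ, ∑ j ∈ Rᶜ.erase i, e (insert i (insert j R)) * dd f i R * dd f j R =
        ∑ i ∈ Rᶜ, ∑ j ∈ Rᶜ.erase i, e (insert i (insert j R)) * (dd f i R * dd f j R) :=
      Finset.sum_congr rfl fun i _ => Finset.sum_congr rfl fun j _ => mul_assoc _ _ _
    rw [h3] at h2
    change _ ≤ up e f R ^ 2 at h2
    have h4 : e R * (up e f R / e R) ^ 2 = up e f R ^ 2 / e R := by
      field_simp
    rw [h4, le_div_iff₀ h1]
    linarith

theorem up_dn (f : Finset (Fin n) → ℝ) : ∑ S, up e f S * dn f S =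
    ∑ R : Finset (Fin n), ∑ i ∈ Rᶜ, ∑ j ∈ Rᶜ.erase i,
      e (insert i (insert j R)) * (dd f i (insert j R) * dd f j R) := by
  have h1 : ∀ S, up e f S * dn f S =
      ∑ i ∈ Sᶜ, ∑ j ∈ S, e (insert i S) * (dd f i S * dd f j (S.erase j)) := by
    intro S
    unfold up dn
    rw [Finset.sum_mul_sum]
    exact Finset.sum_congr rfl fun i _ => Finset.sum_congr rfl fun j _ => mul_assoc _ _ _
  rw [Finset.sum_congr rfl fun S _ => h1 S,
    reidx3 (fun S i j => e (insert i S) * (dd f i S * dd f j (S.erase j)))]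
  refine Finset.sum_congr rfl fun R _ => Finset.sum_congr rfl fun i _ =>
    Finset.sum_congr rfl fun j hj => ?_
  rw [Finset.erase_insert (Finset.mem_compl.1 (Finset.mem_of_mem_erase hj))]

theorem up_dn' (f : Finset (Fin n) → ℝ) : ∑ S, up e f S * dn f S =
    ∑ R : Finset (Fin n), ∑ i ∈ Rᶜ, ∑ j ∈ Rᶜ.erase i,
      e (insert i (insert j R)) * (dd f j (insert i R) * dd f i R) := by
  rw [up_dn]
  refine Finset.sum_congr rfl fun R _ => ?_
  rw [pair_symm]
  refine Finset.sum_congr rfl fun i _ => Finset.sum_congr rfl fun j _ => ?_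
  rw [Finset.insert_comm]

theorem dn_sq (f : Finset (Fin n) → ℝ) : ∑ S, e S * dn f S ^ 2 = EE e f f +
    ∑ R : Finset (Fin n), ∑ i ∈ Rᶜ, ∑ j ∈ Rᶜ.erase i,
      e (insert i (insert j R)) * (dd f i (insert j R) * dd f j (insert i R)) := by
  have h1 : ∀ S, e S * dn f S ^ 2 = (∑ i ∈ S, e S * (dd f i (S.erase i) * dd f i (S.erase i))) +
      ∑ i ∈ S, ∑ j ∈ S.erase i, e S * (dd f i (S.erase i) * dd f j (S.erase j)) := by
    intro S
    unfold dn
    rw [sq, Finset.sum_mul_sum, Finset.mul_sum, ← Finset.sum_add_distrib]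
    refine Finset.sum_congr rfl fun i hi => ?_
    rw [← Finset.add_sum_erase S _ hi, mul_add, Finset.mul_sum]
  rw [Finset.sum_congr rfl fun S _ => h1 S, Finset.sum_add_distrib,
    reidx (fun S i => e S * (dd f i (S.erase i) * dd f i (S.erase i))),
    reidx2 (fun S i j => e S * (dd f i (S.erase i) * dd f j (S.erase j)))]
  congr 1
  · refine Finset.sum_congr rfl fun R _ => Finset.sum_congr rfl fun i hi => ?_
    rw [Finset.erase_insert (Finset.mem_compl.1 hi)]
  · refine Finset.sum_congr rfl fun R _ => Finset.sum_congr rfl fun i hi =>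
      Finset.sum_congr rfl fun j hj => ?_
    have hi' := Finset.mem_compl.1 hi
    have hj' := Finset.mem_compl.1 (Finset.mem_of_mem_erase hj)
    have hij : j ≠ i := Finset.ne_of_mem_erase hj
    have e1 : (insert i (insert j R)).erase i = insert j R :=
      Finset.erase_insert (by simp [hi', Ne.symm hij])
    have e2 : (insert i (insert j R)).erase j = insert i R := by
      rw [Finset.insert_comm]
      exact Finset.erase_insert (by simp [hj', hij])
    rw [e1, e2]

include he hX in
/-- Bochner's inequality -/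
theorem bochner (hL : Loc e) (f : Finset (Fin n) → ℝ) :
    EE e f f ≤ ∑ S, e S * LL e f S ^ 2 := by
  have h1 : ∀ S, e S * LL e f S ^ 2 =
      e S * (up e f S / e S) ^ 2 - 2 * (up e f S * dn f S) + e S * dn f S ^ 2 := by
    intro S
    have h2 := up_div he hX f S
    unfold LL
    linear_combination (-2) * dn f S * h2
  have h3 := up_dn (e := e) f
  have h4 := up_dn' (e := e) f
  have h5 := dn_sq (e := e) f
  have h6 : ∑ R : Finset (Fin n), ∑ i ∈ Rᶜ, ∑ j ∈ Rᶜ.erase i,
      e (insert i (insert j R)) * (dd f i R * dd f j R) ≤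
      ∑ R : Finset (Fin n), e R * (up e f R / e R) ^ 2 :=
    Finset.sum_le_sum fun R _ => up_sq he hX hL f R
  rw [Finset.sum_congr rfl fun S _ => h1 S, Finset.sum_add_distrib, Finset.sum_sub_distrib,
    ← Finset.mul_sum]
  have h7 : 0 ≤ (∑ R : Finset (Fin n), ∑ i ∈ Rᶜ, ∑ j ∈ Rᶜ.erase i,
        e (insert i (insert j R)) * (dd f i R * dd f j R)) -
      (∑ R : Finset (Fin n), ∑ i ∈ Rᶜ, ∑ j ∈ Rᶜ.erase i,
        e (insert i (insert j R)) * (dd f i (insert j R) * dd f j R)) -
      (∑ R : Finset (Fin n), ∑ i ∈ Rᶜ, ∑ j ∈ Rᶜ.erase i,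
        e (insert i (insert j R)) * (dd f j (insert i R) * dd f i R)) +
      ∑ R : Finset (Fin n), ∑ i ∈ Rᶜ, ∑ j ∈ Rᶜ.erase i,
        e (insert i (insert j R)) * (dd f i (insert j R) * dd f j (insert i R)) := by
    rw [← Finset.sum_sub_distrib, ← Finset.sum_sub_distrib, ← Finset.sum_add_distrib]
    refine Finset.sum_nonneg fun R _ => ?_
    rw [← Finset.sum_sub_distrib, ← Finset.sum_sub_distrib, ← Finset.sum_add_distrib]
    refine Finset.sum_nonneg fun i _ => ?_
    rw [← Finset.sum_sub_distrib, ← Finset.sum_sub_distrib, ← Finset.sum_add_distrib]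
    refine Finset.sum_nonneg fun j _ => ?_
    have h8 : dd f j (insert i R) = dd f j R + (dd f i (insert j R) - dd f i R) := by
      unfold dd
      rw [Finset.insert_comm j i R]
      ring
    have h9 : e (insert i (insert j R)) * (dd f i R * dd f j R) -
        e (insert i (insert j R)) * (dd f i (insert j R) * dd f j R) -
        e (insert i (insert j R)) * (dd f j (insert i R) * dd f i R) +
        e (insert i (insert j R)) * (dd f i (insert j R) * dd f j (insert i R)) =
        e (insert i (insert j R)) * (dd f i (insert j R) - dd f i R) ^ 2 := by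
      rw [h8]
      ring
    rw [h9]
    exact mul_nonneg (he _) (sq_nonneg _)
  linarith

/-- the generator is linear, corrected to be injective -/
noncomputable def AA (e : Finset (Fin n) → ℝ) :
    (Finset (Fin n) → ℝ) →ₗ[ℝ] (Finset (Fin n) → ℝ) where
  toFun f := fun S => open Classical in if 0 < e S then LL e f S - ∑ T, e T * f T else f S
  map_add' f g := by
    funext S
    simp only [Pi.add_apply]
    split_ifs with h
    · have h1 : LL e (f + g) S = LL e f S + LL e g S := by
        unfold LL up dn dd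
        have h2 : ∀ i, e (insert i S) * ((f + g) (insert i S) - (f + g) S) =
            e (insert i S) * (f (insert i S) - f S) + e (insert i S) * (g (insert i S) - g S) := by
          intro i
          simp only [Pi.add_apply]
          ring
        have h3 : ∀ i, (f + g) (insert i (S.erase i)) - (f + g) (S.erase i) =
            (f (insert i (S.erase i)) - f (S.erase i)) +
              (g (insert i (S.erase i)) - g (S.erase i)) := by
          intro i
          simp only [Pi.add_apply]
          ring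
        rw [Finset.sum_congr rfl fun i _ => h2 i, Finset.sum_add_distrib,
          Finset.sum_congr rfl fun i _ => h3 i, Finset.sum_add_distrib]
        ring
      have h4 : ∑ T, e T * (f T + g T) = (∑ T, e T * f T) + ∑ T, e T * g T := by
        rw [← Finset.sum_add_distrib]
        exact Finset.sum_congr rfl fun T _ => mul_add _ _ _
      rw [h1, h4]
      ring
    · rfl
  map_smul' c f := by
    funext S
    simp only [Pi.smul_apply, smul_eq_mul, RingHom.id_apply]
    split_ifs with h
    · have h1 : LL e (c • f) S = c * LL e f S := by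
        unfold LL up dn dd
        have h2 : ∀ i, e (insert i S) * ((c • f) (insert i S) - (c • f) S) =
            c * (e (insert i S) * (f (insert i S) - f S)) := by
          intro i
          simp only [Pi.smul_apply, smul_eq_mul]
          ring
        have h3 : ∀ i, (c • f) (insert i (S.erase i)) - (c • f) (S.erase i) =
            c * (f (insert i (S.erase i)) - f (S.erase i)) := by
          intro i
          simp only [Pi.smul_apply, smul_eq_mul]
          ring
        rw [Finset.sum_congr rfl fun i _ => h2 i, ← Finset.mul_sum,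
          Finset.sum_congr rfl fun i _ => h3 i, ← Finset.mul_sum]
        ring
      have h4 : ∑ T, e T * (c * f T) = c * ∑ T, e T * f T := by
        rw [Finset.mul_sum]
        exact Finset.sum_congr rfl fun T _ => by ring
      rw [h1, h4]
      ring
    · rfl

theorem AA_apply (f : Finset (Fin n) → ℝ) {S : Finset (Fin n)} (h : 0 < e S) :
    AA e f S = LL e f S - ∑ T, e T * f T := by
  simp [AA, h]

theorem AA_apply' (f : Finset (Fin n) → ℝ) {S : Finset (Fin n)} (h : ¬ 0 < e S) :
    AA e f S = f S := by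
  simp [AA, h]

include he hX in
theorem sum_LL (f : Finset (Fin n) → ℝ) : ∑ S, e S * LL e f S = 0 := by
  have h := parts he hX (fun _ => 1) f
  simp only [one_mul] at h
  rw [h]
  unfold EE dd
  simp

include he in
/-- the constant in the equation `A f = g` is determined -/
theorem AA_const (hX : ∀ S T : Finset (Fin n), T ⊆ S → 0 < e S → 0 < e T) {f g : Finset (Fin n) → ℝ}
    (h : AA e f = g) (hg : ∑ S, e S * g S = 0) (hT : 0 < ∑ S, e S) :
    ∑ T, e T * f T = 0 ∧ ∀ S, e S * LL e f S = e S * g S := by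
  have h1 : ∀ S, e S * LL e f S - e S * ∑ T, e T * f T = e S * g S := by
    intro S
    rcases (he S).eq_or_lt with h2 | h2
    · rw [← h2]; ring
    · have := congrFun h S
      rw [AA_apply f h2] at this
      rw [← this]
      ring
  have h3 : (∑ S, e S * LL e f S) - (∑ S, e S) * ∑ T, e T * f T = ∑ S, e S * g S := by
    rw [Finset.sum_mul, ← Finset.sum_sub_distrib]
    exact Finset.sum_congr rfl fun S _ => h1 S
  rw [sum_LL he hX, hg] at h3
  have h4 : ∑ T, e T * f T = 0 := by
    have : (∑ S, e S) * ∑ T, e T * f T = 0 := by linarith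
    rcases mul_eq_zero.1 this with h5 | h5
    · exact absurd h5 hT.ne'
    · exact h5
  refine ⟨h4, fun S => ?_⟩
  have := h1 S
  rw [h4, mul_zero, sub_zero] at this
  exact this

include he hX in
theorem AA_inj (hT : 0 < ∑ S, e S) : Function.Injective (AA e) := by
  rw [← LinearMap.ker_eq_bot, LinearMap.ker_eq_bot']
  intro f hf
  obtain ⟨h1, h2⟩ := AA_const he hX hf (by simp) hT
  have h3 : EE e f f = 0 := by
    have h := parts he hX f f
    have h4 : ∑ S, e S * (f S * LL e f S) = 0 := by
      refine Finset.sum_eq_zero fun S _ => ?_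
      have := h2 S
      simp only [Pi.zero_apply, mul_zero] at this
      calc e S * (f S * LL e f S) = f S * (e S * LL e f S) := by ring
        _ = 0 := by rw [this, mul_zero]
    linarith
  have h4 : ∀ (R : Finset (Fin n)) (i : Fin n), i ∉ R → 0 < e (insert i R) →
      f (insert i R) = f R := by
    intro R i hi hp
    have h5 := (Finset.sum_eq_zero_iff_of_nonneg fun R _ => Finset.sum_nonneg fun i _ =>
      mul_nonneg (he (insert i R)) (mul_self_nonneg (dd f i R))).1 h3 R (mem_univ R)
    have h6 := (Finset.sum_eq_zero_iff_of_nonneg fun i _ =>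
      mul_nonneg (he (insert i R)) (mul_self_nonneg (dd f i R))).1 h5 i (Finset.mem_compl.2 hi)
    have h7 : dd f i R = 0 := by
      rcases mul_eq_zero.1 h6 with h8 | h8
      · exact absurd h8 hp.ne'
      · exact mul_self_eq_zero.1 h8
    unfold dd at h7
    linarith
  have h5 : ∀ S : Finset (Fin n), 0 < e S → f S = f ∅ := by
    intro S
    induction S using Finset.induction_on with
    | empty => intro _; rfl
    | insert i R hi ih =>
      intro hp
      rw [h4 R i hi hp, ih (hX _ _ (Finset.subset_insert i R) hp)]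
  have h6 : ∀ S, e S * f S = e S * f ∅ := by
    intro S
    rcases (he S).eq_or_lt with h7 | h7
    · rw [← h7]; ring
    · rw [h5 S h7]
  have h7 : f ∅ = 0 := by
    rw [Finset.sum_congr rfl fun S _ => h6 S, ← Finset.sum_mul] at h1
    rcases mul_eq_zero.1 h1 with h8 | h8
    · exact absurd h8 hT.ne'
    · exact h8
  funext S
  by_cases hS : 0 < e S
  · rw [h5 S hS, h7]; rfl
  · have := congrFun hf S
    rw [AA_apply' f hS] at this
    exact this

include he hX in
/-- the gap for functions with mean zero -/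
theorem gap0 (hL : Loc e) (hT : 0 < ∑ S, e S) {g : Finset (Fin n) → ℝ}
    (hg : ∑ S, e S * g S = 0) : ∑ S, e S * g S ^ 2 ≤ EE e g g := by
  obtain ⟨f, hf⟩ := (LinearMap.injective_iff_surjective.1 (AA_inj he hX hT)) g
  obtain ⟨_, h2⟩ := AA_const he hX hf hg hT
  have h3 : ∑ S, e S * g S ^ 2 = - EE e g f := by
    rw [← parts he hX g f]
    refine Finset.sum_congr rfl fun S _ => ?_
    have := h2 S
    linear_combination (-g S) * this
  have h4 : ∑ S, e S * g S ^ 2 = ∑ S, e S * LL e f S ^ 2 := by
    refine Finset.sum_congr rfl fun S _ => ?_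
    rcases (he S).eq_or_lt with h5 | h5
    · rw [← h5]; ring
    · have : LL e f S = g S := mul_left_cancel₀ h5.ne' (h2 S)
      rw [this]
  have h5 := bochner he hX hL f
  have h6 := EE_nonneg he (fun S => g S + f S)
  rw [EE_add] at h6
  linarith

end main

end D2

/-- Piece D2: the spectral gap of the birth and death chain. -/
theorem proof_D2 : S_D2 := by
  intro n e he hX hL g
  rw [D2.EE_eq]
  rcases (Finset.sum_nonneg fun S _ => he S : 0 ≤ ∑ S, e S).eq_or_lt with hT | hT
  · rw [← hT, zero_mul, zero_mul]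
    nlinarith [sq_nonneg (∑ S, e S * g S)]
  · set T := ∑ S, e S with hTd
    set m := (∑ S, e S * g S) / T with hm
    have hmT : T * m = ∑ S, e S * g S := by
      rw [hm]; field_simp
    have h1 : ∑ S, e S * (g S - m) = 0 := by
      have : ∀ S, e S * (g S - m) = e S * g S - e S * m := fun S => by ring
      rw [Finset.sum_congr rfl fun S _ => this S, Finset.sum_sub_distrib, ← Finset.sum_mul,
        ← hTd, ← hmT]
      ring
    have h2 := D2.gap0 he hX hL (by rw [← hTd]; exact hT) (g := fun S => g S - m) h1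
    have h3 : D2.EE e (fun S => g S - m) (fun S => g S - m) = D2.EE e g g := by
      unfold D2.EE D2.dd
      refine Finset.sum_congr rfl fun R _ => Finset.sum_congr rfl fun i _ => ?_
      ring
    have h4 : ∑ S, e S * (g S - m) ^ 2 = (∑ S, e S * g S ^ 2) - T * m ^ 2 := by
      have : ∀ S, e S * (g S - m) ^ 2 = e S * g S ^ 2 - 2 * m * (e S * g S) + e S * m ^ 2 :=
        fun S => by ring
      rw [Finset.sum_congr rfl fun S _ => this S, Finset.sum_add_distrib, Finset.sum_sub_distrib,
        ← Finset.mul_sum, ← Finset.sum_mul, ← hTd, ← hmT]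
      ring
    rw [h3, h4] at h2
    have h5 := mul_le_mul_of_nonneg_left h2 hT.le
    have h6 : T * ((∑ S, e S * g S ^ 2) - T * m ^ 2) =
        T * (∑ S, e S * g S ^ 2) - (∑ S, e S * g S) ^ 2 := by
      rw [← hmT]; ring
    linarith

end Pool.Agent.K6.H46.LT
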