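import Pool.Agent.K6.H46.LT.Defs

/-!
# Piece E: tensorisation of Poincaré inequalities (bounded `C¹` functions)
-/

set_option autoImplicit false

namespace Pool.Agent.K6.H46.LT

namespace EE

open MeasureTheory ProbabilityTheory Finset
open Pool.Agent.K6.H24.OP (PI)

theorem sq_int_le {α : Type} [MeasurableSpace α] (μ : Measure α) [IsProbabilityMeasure μ]
    {g : α → ℝ} (hg : MemLp g 2 μ) : (∫ x, g x ∂μ) ^ 2 ≤ ∫ x, g x ^ 2 ∂μ := by
  have h := variance_nonneg g μ
  rw [variance_eq_sub hg, sub_nonneg] at h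
  simpa using h

theorem mp {n : ℕ} (ν : Fin (n + 1) → Measure ℝ) [∀ i, IsProbabilityMeasure (ν i)] :
    MeasurePreserving (MeasurableEquiv.piFinSuccAbove (fun _ : Fin (n + 1) => ℝ) 0).symm
      ((ν 0).prod (Measure.pi fun j : Fin n => ν j.succ)) (Measure.pi ν) := by
  have h := measurePreserving_piFinSuccAbove ν 0
  simp only [Fin.succAbove_zero] at h
  exact h.symm

theorem symm_eq {n : ℕ} (p : ℝ × (Fin n → ℝ)) :
    (MeasurableEquiv.piFinSuccAbove (fun _ : Fin (n + 1) => ℝ) 0).symm p =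
      (Fin.cons p.1 p.2 : Fin (n + 1) → ℝ) := by
  simp [MeasurableEquiv.piFinSuccAbove]
  rfl

theorem hasDerivAt_cons {n : ℕ} (y : Fin n → ℝ) (t : ℝ) :
    HasDerivAt (fun t : ℝ => (Fin.cons t y : Fin (n + 1) → ℝ)) (Pi.single 0 1) t := by
  refine hasDerivAt_pi.2 fun i => ?_
  refine Fin.cases ?_ (fun j => ?_) i
  · have h : HasDerivAt (fun t : ℝ => t) 1 t := hasDerivAt_id t
    simpa using h
  · simpa [Pi.single_apply] using hasDerivAt_const t (y j)

/-- `y ↦ (0, y)` -/
noncomputable def L (n : ℕ) : (Fin n → ℝ) →L[ℝ] (Fin (n + 1) → ℝ) :=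
  ContinuousLinearMap.pi (Fin.cases 0 fun j => ContinuousLinearMap.proj j)

theorem L_single {n : ℕ} (j : Fin n) : L n (Pi.single j 1) = Pi.single j.succ 1 := by
  funext i
  refine Fin.cases ?_ (fun k => ?_) i
  · simp [L, (Fin.succ_ne_zero j).symm]
  · simp [L, Pi.single_apply]

theorem hasFDerivAt_cons {n : ℕ} (t : ℝ) (y : Fin n → ℝ) :
    HasFDerivAt (fun y : Fin n → ℝ => (Fin.cons t y : Fin (n + 1) → ℝ)) (L n) y := by
  refine hasFDerivAt_pi'.2 fun i => ?_
  refine Fin.cases ?_ (fun j => ?_) i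
  · simpa [L] using hasFDerivAt_const t y
  · have h : HasFDerivAt (fun y : Fin n → ℝ => y j)
      (ContinuousLinearMap.proj (R := ℝ) (φ := fun _ : Fin n => ℝ) j) y := hasFDerivAt_apply j y
    simpa [L] using h

theorem contDiff_cons {n : ℕ} : ContDiff ℝ 1
    (fun p : ℝ × (Fin n → ℝ) => (Fin.cons p.1 p.2 : Fin (n + 1) → ℝ)) := by
  refine contDiff_pi.2 fun i => ?_
  refine Fin.cases ?_ (fun j => ?_) i
  · simpa using contDiff_fst
  · have h : ContDiff ℝ 1 (fun p : ℝ × (Fin n → ℝ) => p.2 j) :=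
      (contDiff_apply ℝ ℝ j).comp contDiff_snd
    simpa using h

theorem bint {γ : Type} [MeasurableSpace γ] (ρ : Measure γ) [IsProbabilityMeasure ρ]
    {g : γ → ℝ} {C : ℝ} (hg : Measurable g) (hC : ∀ x, |g x| ≤ C) : Integrable g ρ :=
  Integrable.of_bound hg.aestronglyMeasurable C (Filter.Eventually.of_forall hC)

theorem babs {γ : Type} [MeasurableSpace γ] (ρ : Measure γ) [IsProbabilityMeasure ρ]
    {g : γ → ℝ} {C : ℝ} (hC : ∀ x, |g x| ≤ C) : |∫ x, g x ∂ρ| ≤ C := by
  have h := norm_integral_le_of_norm_le_const (μ := ρ) (f := g) (C := C)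
    (Filter.Eventually.of_forall hC)
  simpa using h

theorem sq_le' {a C : ℝ} (h : |a| ≤ C) : |a ^ 2| ≤ C ^ 2 := by
  rw [abs_pow]
  exact pow_le_pow_left₀ (abs_nonneg _) h 2

theorem sq_exp {α : Type} [MeasurableSpace α] (μ : Measure α) [IsProbabilityMeasure μ]
    {X : α → ℝ} (c : ℝ) (h1 : Integrable X μ) (h2 : Integrable (fun t => X t ^ 2) μ) :
    ∫ t, (X t - c) ^ 2 ∂μ = ∫ t, X t ^ 2 ∂μ - 2 * c * ∫ t, X t ∂μ + c ^ 2 := by
  have e : ∀ t, (X t - c) ^ 2 = (X t ^ 2 - 2 * c * X t) + c ^ 2 := by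
    intro t; ring
  simp_rw [e]
  have i1 : Integrable (fun t => 2 * c * X t) μ := h1.const_mul _
  have i2 : Integrable (fun t => X t ^ 2 - 2 * c * X t) μ := h2.sub i1
  rw [integral_add i2 (integrable_const _), integral_sub h2 i1, integral_const_mul, integral_const]
  simp

/-- variance inequality for product measures: `Var f ≤ E Var_y f + E Var_t f` -/
theorem split {α β : Type} [MeasurableSpace α] [MeasurableSpace β] (μ : Measure α)
    (π : Measure β) [IsProbabilityMeasure μ] [IsProbabilityMeasure π] (F : α × β → ℝ)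
    (hF : Measurable F) (B : ℝ) (hB : ∀ p, |F p| ≤ B) :
    ∫ p, F p ^ 2 ∂(μ.prod π) - (∫ p, F p ∂(μ.prod π)) ^ 2 ≤
      ∫ t, ((∫ y, F (t, y) ^ 2 ∂π) - (∫ y, F (t, y) ∂π) ^ 2) ∂μ +
      ∫ y, ((∫ t, F (t, y) ^ 2 ∂μ) - (∫ t, F (t, y) ∂μ) ^ 2) ∂π := by
  set g : β → ℝ := fun y => ∫ t, F (t, y) ∂μ with hg
  set h : α → ℝ := fun t => ∫ y, F (t, y) ∂π with hh
  set m := ∫ p, F p ∂(μ.prod π) with hm
  have hF2 : Measurable fun p => F p ^ 2 := hF.pow_const 2
  have gm : Measurable g := (hF.stronglyMeasurable.integral_prod_left').measurable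
  have hhm : Measurable h := (hF.stronglyMeasurable.integral_prod_right').measurable
  have gb : ∀ y, |g y| ≤ B := fun y => babs μ fun t => hB (t, y)
  have hb : ∀ t, |h t| ≤ B := fun t => babs π fun y => hB (t, y)
  have iF : Integrable F (μ.prod π) := bint _ hF hB
  have iF2 : Integrable (fun p => F p ^ 2) (μ.prod π) := bint _ hF2 fun p => sq_le' (hB p)
  have ig : Integrable g π := bint _ gm gb
  have ih : Integrable h μ := bint _ hhm hb
  have ig2 : Integrable (fun y => g y ^ 2) π := bint _ (gm.pow_const 2) fun y => sq_le' (gb y)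
  have ih2 : Integrable (fun t => h t ^ 2) μ := bint _ (hhm.pow_const 2) fun y => sq_le' (hb y)
  have iFt : ∀ y, Integrable (fun t => F (t, y)) μ := fun y =>
    bint _ (hF.comp (measurable_id.prodMk measurable_const)) fun t => hB (t, y)
  have iFy : ∀ t, Integrable (fun y => F (t, y)) π := fun t =>
    bint _ (hF.comp (measurable_const.prodMk measurable_id)) fun y => hB (t, y)
  have iFt2 : ∀ y, Integrable (fun t => F (t, y) ^ 2) μ := fun y =>
    bint _ (hF2.comp (measurable_id.prodMk measurable_const)) fun t => sq_le' (hB (t, y))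
  have m1 : m = ∫ y, g y ∂π := integral_prod_symm F iF
  have m2 : m = ∫ t, h t ∂μ := integral_prod F iF
  have e1 : ∫ p, F p ^ 2 ∂(μ.prod π) = ∫ t, ∫ y, F (t, y) ^ 2 ∂π ∂μ := integral_prod _ iF2
  -- the defect
  have dF : Measurable fun p : α × β => (F p - g p.2) ^ 2 :=
    (hF.sub (gm.comp measurable_snd)).pow_const 2
  have db : ∀ p : α × β, |F p - g p.2| ≤ B + B := fun p =>
    (abs_sub _ _).trans (add_le_add (hB p) (gb p.2))
  have iD : Integrable (fun p : α × β => (F p - g p.2) ^ 2) (μ.prod π) :=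
    bint _ dF fun p => sq_le' (db p)
  have key : ∀ t, (h t - m) ^ 2 ≤ ∫ y, (F (t, y) - g y) ^ 2 ∂π := by
    intro t
    have e : h t - m = ∫ y, (F (t, y) - g y) ∂π := by
      rw [integral_sub (iFy t) ig, m1]
    rw [e]
    refine sq_int_le π (MemLp.of_bound
      (((hF.comp (measurable_const.prodMk measurable_id)).sub gm).aestronglyMeasurable) (B + B)
      (Filter.Eventually.of_forall fun y => db (t, y)))
  have i1 : Integrable (fun t => (h t - m) ^ 2) μ := by
    refine bint _ ((hhm.sub measurable_const).pow_const 2) (C := (B + |m|) ^ 2) fun t => ?_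
    exact sq_le' ((abs_sub _ _).trans (add_le_add (hb t) le_rfl))
  have k1 : ∫ t, (h t - m) ^ 2 ∂μ ≤ ∫ t, ∫ y, (F (t, y) - g y) ^ 2 ∂π ∂μ :=
    integral_mono i1 iD.integral_prod_left key
  have k2 : ∫ t, ∫ y, (F (t, y) - g y) ^ 2 ∂π ∂μ = ∫ y, ∫ t, (F (t, y) - g y) ^ 2 ∂μ ∂π :=
    integral_integral_swap iD
  have k3 : ∀ y, ∫ t, (F (t, y) - g y) ^ 2 ∂μ = ∫ t, F (t, y) ^ 2 ∂μ - g y ^ 2 := by
    intro y
    rw [sq_exp μ _ (iFt y) (iFt2 y)]
    show _ - 2 * g y * g y + _ = _
    ring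
  have k4 : ∫ t, (h t - m) ^ 2 ∂μ = ∫ t, h t ^ 2 ∂μ - m ^ 2 := by
    rw [sq_exp μ _ ih ih2, ← m2]
    ring
  have k5 : ∫ t, ((∫ y, F (t, y) ^ 2 ∂π) - h t ^ 2) ∂μ =
      ∫ t, ∫ y, F (t, y) ^ 2 ∂π ∂μ - ∫ t, h t ^ 2 ∂μ :=
    integral_sub iF2.integral_prod_left ih2
  rw [k2] at k1
  simp_rw [k3] at k1
  rw [k4] at k1
  show _ ≤ ∫ t, ((∫ y, F (t, y) ^ 2 ∂π) - h t ^ 2) ∂μ +
    ∫ y, ((∫ t, F (t, y) ^ 2 ∂μ) - g y ^ 2) ∂π
  rw [k5, e1]
  linarith

end EE

open EE MeasureTheory ProbabilityTheory Finset in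
theorem proof_E : S_E := by
  intro n
  induction n with
  | zero =>
    intro ν w hν _ _ f _
    have := fun i => hν i
    have e : ∀ x : Fin 0 → ℝ, f x = f 0 := fun x => by rw [Subsingleton.elim x 0]
    simp_rw [e]
    simp
  | succ n ih =>
    intro ν w hν hw hP f hf
    have := fun i => hν i
    obtain ⟨hs, ⟨B, hB⟩, hq⟩ := hf
    set e := (MeasurableEquiv.piFinSuccAbove (fun _ : Fin (n + 1) => ℝ) 0).symm with he
    set π' := Measure.pi fun j : Fin n => ν j.succ with hπ'
    have hmp : MeasurePreserving e ((ν 0).prod π') (Measure.pi ν) := mp ν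
    have hint : ∀ G : (Fin (n + 1) → ℝ) → ℝ, ∫ x, G x ∂(Measure.pi ν) =
        ∫ p, G (Fin.cons p.1 p.2) ∂((ν 0).prod π') := by
      intro G
      rw [← hmp.integral_comp' G]
      refine integral_congr_ae (Filter.Eventually.of_forall fun p => ?_)
      show G (e p) = _
      rw [he, symm_eq]
    have hinte : ∀ G : (Fin (n + 1) → ℝ) → ℝ, Integrable G (Measure.pi ν) →
        Integrable (fun p : ℝ × (Fin n → ℝ) => G (Fin.cons p.1 p.2)) ((ν 0).prod π') := by
      intro G hG
      have h := (hmp.integrable_comp_emb e.measurableEmbedding (g := G)).2 hG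
      refine h.congr (Filter.Eventually.of_forall fun p => ?_)
      show G (e p) = _
      rw [he, symm_eq]
    have hfc : Continuous f := hs.continuous
    have hcm : Measurable fun p : ℝ × (Fin n → ℝ) => (Fin.cons p.1 p.2 : Fin (n + 1) → ℝ) :=
      contDiff_cons.continuous.measurable
    have hF : Measurable fun p : ℝ × (Fin n → ℝ) => f (Fin.cons p.1 p.2) :=
      hfc.measurable.comp hcm
    have hsp := split (ν 0) π' (fun p => f (Fin.cons p.1 p.2)) hF B fun p => hB _
    rw [hint (fun x => f x ^ 2), hint f]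
    refine hsp.trans ?_
    -- derivatives
    have hd0 : ∀ (t : ℝ) (y : Fin n → ℝ), HasDerivAt (fun t => f (Fin.cons t y))
        (fderiv ℝ f (Fin.cons t y) (Pi.single 0 1)) t := by
      intro t y
      have h1 : HasFDerivAt f (fderiv ℝ f (Fin.cons t y)) (Fin.cons t y) :=
        (hs.differentiable one_ne_zero _).hasFDerivAt
      exact h1.comp_hasDerivAt t (hasDerivAt_cons y t)
    have hdj : ∀ (t : ℝ) (y : Fin n → ℝ), HasFDerivAt (fun y => f (Fin.cons t y))
        ((fderiv ℝ f (Fin.cons t y)).comp (L n)) y := by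
      intro t y
      have h1 : HasFDerivAt f (fderiv ℝ f (Fin.cons t y)) (Fin.cons t y) :=
        (hs.differentiable one_ne_zero _).hasFDerivAt
      exact h1.comp y (hasFDerivAt_cons t y)
    have hi : ∀ i, Integrable (fun p : ℝ × (Fin n → ℝ) =>
        (fderiv ℝ f (Fin.cons p.1 p.2) (Pi.single i 1)) ^ 2) ((ν 0).prod π') :=
      fun i => hinte _ (hq i)
    have hfd : ∀ v, Continuous fun x => fderiv ℝ f x v := fun v =>
      (hs.continuous_fderiv one_ne_zero).clm_apply continuous_const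
    have hA : ∀ᵐ t ∂(ν 0), (∫ y, f (Fin.cons t y) ^ 2 ∂π') - (∫ y, f (Fin.cons t y) ∂π') ^ 2 ≤
        ∫ y, ∑ j : Fin n, w j.succ * (fderiv ℝ f (Fin.cons t y) (Pi.single j.succ 1)) ^ 2 ∂π' := by
      have h1 : ∀ᵐ t ∂(ν 0), ∀ j : Fin n, Integrable (fun y =>
          (fderiv ℝ f (Fin.cons t y) (Pi.single j.succ 1)) ^ 2) π' :=
        Filter.eventually_all.2 fun j => (hi j.succ).prod_right_ae
      filter_upwards [h1] with t ht
      have hfd' : ∀ (y : Fin n → ℝ) (j : Fin n), fderiv ℝ (fun y => f (Fin.cons t y)) y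
          (Pi.single j 1) = fderiv ℝ f (Fin.cons t y) (Pi.single j.succ 1) := by
        intro y j
        rw [(hdj t y).fderiv, ContinuousLinearMap.comp_apply, L_single]
      have h2 := ih (fun j => ν j.succ) (fun j => w j.succ) (fun j => hν _) (fun j => hw _)
        (fun j => hP _) (fun y => f (Fin.cons t y))
        ⟨hs.comp (contDiff_cons.comp (contDiff_const.prodMk contDiff_id)), ⟨B, fun y => hB _⟩,
          fun j => by simpa only [hfd'] using ht j⟩
      simpa only [hfd'] using h2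
    have hC : ∀ᵐ y ∂π', (∫ t, f (Fin.cons t y) ^ 2 ∂(ν 0)) - (∫ t, f (Fin.cons t y) ∂(ν 0)) ^ 2 ≤
        ∫ t, w 0 * (fderiv ℝ f (Fin.cons t y) (Pi.single 0 1)) ^ 2 ∂(ν 0) := by
      filter_upwards [(hi 0).prod_left_ae] with y hy
      have hc : ContDiff ℝ 1 fun t => f (Fin.cons t y) :=
        hs.comp (contDiff_cons.comp (contDiff_id.prodMk contDiff_const))
      have hn : ∀ t, ‖fderiv ℝ (fun t => f (Fin.cons t y)) t‖ ^ 2 =
          (fderiv ℝ f (Fin.cons t y) (Pi.single 0 1)) ^ 2 := by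
        intro t
        rw [← norm_deriv_eq_norm_fderiv, (hd0 t y).deriv, Real.norm_eq_abs, sq_abs]
      have hL2 : MemLp (fun t => ‖fderiv ℝ (fun t => f (Fin.cons t y)) t‖) 2 (ν 0) := by
        rw [memLp_two_iff_integrable_sq (hc.continuous_fderiv one_ne_zero).norm.aestronglyMeasurable]
        simpa only [hn] using hy
      obtain ⟨h1, h2⟩ := hP 0 _ hc hL2
      rw [variance_eq_sub h1] at h2
      simp only [hn] at h2
      rw [integral_const_mul]
      simpa using h2
    have hB2 : ∀ x, |f x ^ 2| ≤ B ^ 2 := fun x => sq_le' (hB x)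
    have hF2 : Measurable fun p : ℝ × (Fin n → ℝ) => f (Fin.cons p.1 p.2) ^ 2 := hF.pow_const 2
    have iF2 : Integrable (fun p : ℝ × (Fin n → ℝ) => f (Fin.cons p.1 p.2) ^ 2)
      ((ν 0).prod π') := bint _ hF2 fun p => hB2 _
    have gm : Measurable fun y => ∫ t, f (Fin.cons t y) ∂(ν 0) :=
      (hF.stronglyMeasurable.integral_prod_left').measurable
    have hhm : Measurable fun t => ∫ y, f (Fin.cons t y) ∂π' :=
      (hF.stronglyMeasurable.integral_prod_right').measurable
    have ig2 : Integrable (fun y => (∫ t, f (Fin.cons t y) ∂(ν 0)) ^ 2) π' :=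
      bint _ (gm.pow_const 2) fun y => sq_le' (babs _ fun t => hB _)
    have ih2 : Integrable (fun t => (∫ y, f (Fin.cons t y) ∂π') ^ 2) (ν 0) :=
      bint _ (hhm.pow_const 2) fun y => sq_le' (babs _ fun t => hB _)
    have iS : Integrable (fun p : ℝ × (Fin n → ℝ) => ∑ j : Fin n, w j.succ *
        (fderiv ℝ f (Fin.cons p.1 p.2) (Pi.single j.succ 1)) ^ 2) ((ν 0).prod π') :=
      integrable_finsetSum _ fun j _ => (hi j.succ).const_mul _
    have i0 : Integrable (fun p : ℝ × (Fin n → ℝ) => w 0 *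
        (fderiv ℝ f (Fin.cons p.1 p.2) (Pi.single 0 1)) ^ 2) ((ν 0).prod π') :=
      (hi 0).const_mul _
    have b1 := integral_mono_ae (iF2.integral_prod_left.sub ih2) iS.integral_prod_left hA
    have b2 := integral_mono_ae (iF2.integral_prod_right.sub ig2) i0.integral_prod_right hC
    rw [← integral_prod _ iS] at b1
    rw [← integral_prod_symm _ i0] at b2
    refine (add_le_add b1 b2).trans (le_of_eq ?_)
    rw [hint, ← integral_add iS i0]
    refine integral_congr_ae (Filter.Eventually.of_forall fun p => ?_)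
    show _ + _ = ∑ i, _
    rw [Fin.sum_univ_succ, add_comm]

end Pool.Agent.K6.H46.LT
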