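import Pool.Agent.K6.H46.LT.Defs

/-!
# Piece L1: a good point of a log-concave function on the half-line
-/

set_option autoImplicit false

namespace Pool.Agent.K6.H46.LT

open MeasureTheory ProbabilityTheory
open Pool.Agent.K6.H24.OP

section

variable {h : ℝ → ℝ}

theorem lc_quasi (hl : LC h) {s t u : ℝ} (h1 : s ≤ t) (h2 : t ≤ u) : min (h s) (h u) ≤ h t := by
  rcases h1.eq_or_lt with rfl | h1
  · exact min_le_left _ _
  rcases h2.eq_or_lt with rfl | h2
  · exact min_le_right _ _
  have hs := hl.nonneg s
  have hu := hl.nonneg u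
  have h00 : 0 ≤ min (h s) (h u) := le_min hs hu
  rcases h00.eq_or_lt with h0 | h0
  · rw [← h0]; exact hl.nonneg t
  have ha0 : 0 < (t - s) / (u - s) := div_pos (by linarith) (by linarith)
  have ha1 : (t - s) / (u - s) < 1 := by rw [div_lt_one (by linarith)]; linarith
  have hne : u - s ≠ 0 := by linarith
  have e1 : (1 - (t - s) / (u - s)) * s + (t - s) / (u - s) * u = t := by
    field_simp; ring
  have h3 := hl.conc s u _ ha0 ha1
  rw [e1] at h3
  refine le_trans ?_ h3
  calc min (h s) (h u)
      = min (h s) (h u) ^ (1 - (t - s) / (u - s)) * min (h s) (h u) ^ ((t - s) / (u - s)) := by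
        rw [← Real.rpow_add h0, sub_add_cancel, Real.rpow_one]
    _ ≤ _ :=
        mul_le_mul (Real.rpow_le_rpow h0.le (min_le_left _ _) (by linarith))
          (Real.rpow_le_rpow h0.le (min_le_right _ _) ha0.le)
          (Real.rpow_nonneg h0.le _) (Real.rpow_nonneg hs _)

theorem lc_mid (hl : LC h) (a b : ℝ) : h a * h b ≤ h ((a + b) / 2) ^ 2 := by
  rcases le_total a b with hab | hab
  · have := hl.four (x := a) (t := (a + b) / 2) (r := (b - a) / 2) (by linarith) (by linarith)
    have e1 : (a + b) / 2 + (b - a) / 2 = b := by ring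
    have e2 : a + (b - a) / 2 = (a + b) / 2 := by ring
    rw [e1, e2] at this
    nlinarith
  · have := hl.four (x := b) (t := (a + b) / 2) (r := (a - b) / 2) (by linarith) (by linarith)
    have e1 : (a + b) / 2 + (a - b) / 2 = a := by ring
    have e2 : b + (a - b) / 2 = (a + b) / 2 := by ring
    rw [e1, e2] at this
    nlinarith

theorem ind_int (u v c : ℝ) : Integrable ((Set.Icc u v).indicator fun _ : ℝ => c) :=
  (continuousOn_const.integrableOn_Icc).integrable_indicator measurableSet_Icc

theorem int_ind {u v : ℝ} (huv : u ≤ v) (c : ℝ) :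
    ∫ x, (Set.Icc u v).indicator (fun _ => c) x = (v - u) * c := by
  rw [integral_indicator measurableSet_Icc, setIntegral_const, smul_eq_mul,
    Real.volume_real_Icc_of_le huv]

theorem seg_le (hl : LC h) (hi : Integrable h) {u v c : ℝ} (huv : u ≤ v)
    (hc : ∀ t, u ≤ t → t ≤ v → c ≤ h t) : (v - u) * c ≤ ∫ x, h x := by
  rw [← int_ind huv c]
  refine integral_mono (ind_int u v c) hi fun x => ?_
  by_cases hx : x ∈ Set.Icc u v
  · rw [Set.indicator_of_mem hx]; exact hc x hx.1 hx.2
  · rw [Set.indicator_of_notMem hx]; exact hl.nonneg x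

/-- upper bound for the values at a distance `δ / 2` from `a` -/
theorem bd_one (hl : LC h) (hi : Integrable h) {a s δ : ℝ} (hδ : 0 < δ) (ha : 0 < h a)
    (hs : δ / 2 ≤ |s - a|) : h s ≤ max (h a) (16 * (∫ x, h x) ^ 2 / (δ ^ 2 * h a)) := by
  rcases le_or_gt (h s) (h a) with h1 | h1
  · exact h1.trans (le_max_left _ _)
  refine le_max_of_le_right ?_
  have hs0 : 0 < h s := ha.trans h1
  set m := min (h ((a + s) / 2)) (h s) with hm
  have hm0 : 0 ≤ m := le_min (hl.nonneg _) (hl.nonneg _)
  have hm2 : h a * h s ≤ m ^ 2 := by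
    rcases min_choice (h ((a + s) / 2)) (h s) with h2 | h2
    · rw [hm, h2]; exact lc_mid hl a s
    · rw [hm, h2]; nlinarith
  have hI : δ / 4 * m ≤ ∫ x, h x := by
    rcases le_total a s with has | has
    · rw [abs_of_nonneg (by linarith)] at hs
      have h3 := seg_le hl hi (u := (a + s) / 2) (v := s) (c := m) (by linarith)
        (fun t h4 h5 => lc_quasi hl h4 h5)
      refine le_trans ?_ h3
      exact mul_le_mul_of_nonneg_right (by linarith) hm0
    · rw [abs_of_nonpos (by linarith)] at hs
      have h3 := seg_le hl hi (u := s) (v := (a + s) / 2) (c := m) (by linarith)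
        (fun t h4 h5 => by
          rw [hm, min_comm]; exact lc_quasi hl h4 h5)
      refine le_trans ?_ h3
      exact mul_le_mul_of_nonneg_right (by linarith) hm0
  rw [le_div_iff₀ (by positivity)]
  have h6 : (δ / 4 * m) ^ 2 ≤ (∫ x, h x) ^ 2 := pow_le_pow_left₀ (by positivity) hI 2
  have h7 : (δ / 4 * m) ^ 2 = δ ^ 2 / 16 * m ^ 2 := by ring
  rw [h7] at h6
  have h8 : δ ^ 2 / 16 * (h a * h s) ≤ δ ^ 2 / 16 * m ^ 2 :=
    mul_le_mul_of_nonneg_left hm2 (by positivity)
  nlinarith

theorem lc_bdd (hl : LC h) (hpos : 0 < ∫ x, h x) : ∃ B, ∀ s, h s ≤ B := by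
  have hi := law_integrable hl hpos
  obtain ⟨a, ha⟩ := exists_point hl hpos
  obtain ⟨b, hb, hab⟩ : ∃ b, 0 < h b ∧ b ≠ a := by
    by_contra hcon
    push Not at hcon
    have h1 : h =ᵐ[volume] fun _ => 0 := by
      have h2 : ∀ᵐ x : ℝ, x ≠ a := by
        rw [ae_iff]; simp
      filter_upwards [h2] with x hx
      by_contra hne
      exact hx (hcon x (lt_of_le_of_ne (hl.nonneg x) (Ne.symm hne)))
    rw [integral_congr_ae h1] at hpos
    simp at hpos
  have hδ : 0 < |b - a| := abs_pos.2 (sub_ne_zero.2 hab)
  refine ⟨max (max (h a) (16 * (∫ x, h x) ^ 2 / (|b - a| ^ 2 * h a)))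
    (max (h b) (16 * (∫ x, h x) ^ 2 / (|b - a| ^ 2 * h b))), fun s => ?_⟩
  rcases le_or_gt (|b - a| / 2) |s - a| with h1 | h1
  · exact (bd_one hl hi hδ ha h1).trans (le_max_left _ _)
  · refine (bd_one hl hi hδ hb ?_).trans (le_max_right _ _)
    have h2 : |b - a| ≤ |s - a| + |s - b| := by
      have := abs_sub_le b s a
      rw [abs_sub_comm b s] at this
      linarith
    linarith

theorem lc_top (hl : LC h) (hpos : 0 < ∫ x, h x) : ∃ x₀, 0 < h x₀ ∧ ∀ s, h s ≤ 2 * h x₀ := by
  obtain ⟨B, hB⟩ := lc_bdd hl hpos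
  obtain ⟨a, ha⟩ := exists_point hl hpos
  have hbdd : BddAbove (Set.range h) := ⟨B, by rintro _ ⟨s, rfl⟩; exact hB s⟩
  have hS : 0 < sSup (Set.range h) := ha.trans_le (le_csSup hbdd ⟨a, rfl⟩)
  obtain ⟨_, ⟨x₀, rfl⟩, hx⟩ := exists_lt_of_lt_csSup (s := Set.range h) ⟨_, ⟨a, rfl⟩⟩
    (show sSup (Set.range h) / 2 < sSup (Set.range h) by linarith)
  refine ⟨x₀, by linarith, fun s => ?_⟩
  have := le_csSup hbdd ⟨s, rfl⟩
  linarith

end

section

variable {h : ℝ → ℝ} (hl : LC h) (h0 : ∀ x, x < 0 → h x = 0) (hpos : 0 < ∫ x, h x)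
include hl hpos

theorem mom1 : Integrable fun x => x * h x := by
  have := law_prob hl hpos
  exact (law_integrable_iff hl hpos _).1 ((law_memLp hl hpos).integrable one_le_two)

omit hpos in
include h0 in
theorem xh_nonneg (x : ℝ) : 0 ≤ x * h x := by
  rcases lt_or_ge x 0 with hx | hx
  · rw [h0 x hx, mul_zero]
  · exact mul_nonneg hx (hl.nonneg x)

include h0

theorem J_ge {a b c : ℝ} (ha : 0 ≤ a) (hab : a ≤ b) (hc0 : 0 ≤ c) (hc : ∀ t, a ≤ t → t ≤ b → c ≤ h t) :
    (b - a) * (a * c) ≤ ∫ x, x * h x := by
  rw [← int_ind hab (a * c)]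
  refine integral_mono (ind_int a b _) (mom1 hl hpos) fun x => ?_
  by_cases hx : x ∈ Set.Icc a b
  · rw [Set.indicator_of_mem hx]
    exact mul_le_mul hx.1 (hc x hx.1 hx.2) hc0 (ha.trans hx.1)
  · rw [Set.indicator_of_notMem hx]; exact xh_nonneg hl h0 x

theorem J_pos : 0 < ∫ x, x * h x := by
  obtain ⟨x₀, hx₀, htop⟩ := lc_top hl hpos
  have hJ0 : 0 ≤ ∫ x, x * h x := integral_nonneg fun x => xh_nonneg hl h0 x
  refine lt_of_le_of_ne hJ0 fun hJ => ?_
  have h1 := (integral_eq_zero_iff_of_nonneg (fun x => xh_nonneg hl h0 x) (mom1 hl hpos)).1 hJ.symm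
  have h2 : ∀ᵐ x : ℝ, x ≠ 0 := by rw [ae_iff]; simp
  have h3 : h =ᵐ[volume] fun _ => 0 := by
    filter_upwards [h1, h2] with x hx hx0
    simp only [Pi.zero_apply] at hx
    exact (mul_eq_zero.1 hx).resolve_left hx0
  rw [integral_congr_ae h3] at hpos
  simp at hpos

/-- Markov's inequality -/
theorem markov {M S : ℝ} (hM : 0 < M) (hS : ∀ t, 0 ≤ t → t ≤ M → h t ≤ S) (hS0 : 0 ≤ S) :
    ∫ x, h x ≤ M⁻¹ * (∫ x, x * h x) + M * S := by
  have hi := law_integrable hl hpos
  have h1 : ∫ x, (M⁻¹ * (x * h x) + (Set.Icc 0 M).indicator (fun _ => S) x) =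
      M⁻¹ * (∫ x, x * h x) + M * S := by
    rw [integral_add ((mom1 hl hpos).const_mul _) (ind_int 0 M S), integral_const_mul,
      int_ind hM.le, sub_zero]
  rw [← h1]
  refine integral_mono hi (((mom1 hl hpos).const_mul _).add (ind_int 0 M S)) fun x => ?_
  show h x ≤ M⁻¹ * (x * h x) + (Set.Icc 0 M).indicator (fun _ => S) x
  have h2 := xh_nonneg hl h0 x
  by_cases hx : x ∈ Set.Icc 0 M
  · rw [Set.indicator_of_mem hx]
    have := hS x hx.1 hx.2
    have : 0 ≤ M⁻¹ * (x * h x) := by positivity
    linarith
  · rw [Set.indicator_of_notMem hx, add_zero]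
    rcases lt_or_ge x 0 with hx0 | hx0
    · rw [h0 x hx0]; simp
    · have hxM : M < x := by
        by_contra hc
        exact hx ⟨hx0, not_lt.1 hc⟩
      rw [← mul_assoc]
      have h3 : 1 ≤ M⁻¹ * x := by
        rw [inv_mul_eq_div, one_le_div hM]; exact hxM.le
      have := mul_le_mul_of_nonneg_right h3 (hl.nonneg x)
      linarith

/-- the value at half the mean dominates the values on the left of it -/
theorem key {s t : ℝ} (hst : s ≤ t) (ht : 2 * t * ∫ x, h x ≤ ∫ x, x * h x) : h s ≤ 2 * h t := by
  have hi := law_integrable hl hpos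
  have hx1 := mom1 hl hpos
  have hJ := J_pos hl h0 hpos
  rcases lt_or_ge s 0 with hs | hs
  · rw [h0 s hs]; have := hl.nonneg t; linarith
  set G : ℝ → ℝ := fun y => max (y - s) 0 * h y with hG
  have hint : ∀ c : ℝ, Integrable fun x => max (x - c) 0 * h x := by
    intro c
    refine (hx1.add (hi.const_mul |c|)).mono' ?_ (Filter.Eventually.of_forall fun x => ?_)
    · exact (((measurable_id.sub_const c).max measurable_const).mul hl.meas).aestronglyMeasurable
    · rw [Real.norm_eq_abs, abs_mul, abs_of_nonneg (hl.nonneg x), abs_of_nonneg (le_max_right _ _)]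
      show max (x - c) 0 * h x ≤ x * h x + |c| * h x
      rcases lt_or_ge x 0 with hx | hx
      · rw [h0 x hx]; simp
      · rw [← add_mul]
        refine mul_le_mul_of_nonneg_right ?_ (hl.nonneg x)
        refine max_le ?_ (by positivity)
        have := neg_abs_le c
        linarith
  have h1 : ∫ x, h s * (max (x - t) 0 * h x) ≤ ∫ x, h t * G (x - (t - s)) := by
    refine integral_mono ((hint t).const_mul _) (((hint s).comp_sub_right (t - s)).const_mul _)
      fun x => ?_
    show h s * (max (x - t) 0 * h x) ≤ h t * (max (x - (t - s) - s) 0 * h (x - (t - s)))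
    have e1 : x - (t - s) - s = x - t := by ring
    rw [e1]
    rcases le_or_gt x t with hx | hx
    · rw [max_eq_right (by linarith)]; simp
    · rw [max_eq_left (by linarith)]
      have := hl.four hst (r := x - t) (by linarith)
      have e2 : t + (x - t) = x := by ring
      have e3 : s + (x - t) = x - (t - s) := by ring
      rw [e2, e3] at this
      calc h s * ((x - t) * h x) = (x - t) * (h x * h s) := by ring
        _ ≤ (x - t) * (h t * h (x - (t - s))) := mul_le_mul_of_nonneg_left this (by linarith)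
        _ = _ := by ring
  rw [integral_const_mul, integral_const_mul, integral_sub_right_eq_self G (t - s)] at h1
  have h2 : ∫ x, G x ≤ ∫ x, x * h x := by
    refine integral_mono (hint s) hx1 fun x => ?_
    show max (x - s) 0 * h x ≤ x * h x
    rcases lt_or_ge x 0 with hx | hx
    · rw [h0 x hx]; simp
    · exact mul_le_mul_of_nonneg_right (max_le (by linarith) hx) (hl.nonneg x)
  have h3 : (∫ x, x * h x) / 2 ≤ ∫ x, max (x - t) 0 * h x := by
    have h4 : ∫ x, (x * h x - t * h x) ≤ ∫ x, max (x - t) 0 * h x := by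
      refine integral_mono (hx1.sub (hi.const_mul t)) (hint t) fun x => ?_
      show x * h x - t * h x ≤ max (x - t) 0 * h x
      rw [← sub_mul]
      exact mul_le_mul_of_nonneg_right (le_max_left _ _) (hl.nonneg x)
    rw [integral_sub hx1 (hi.const_mul t), integral_const_mul] at h4
    linarith
  have h5 : h s * ((∫ x, x * h x) / 2) ≤ h t * ∫ x, x * h x :=
    (mul_le_mul_of_nonneg_left h3 (hl.nonneg s)).trans
      (h1.trans (mul_le_mul_of_nonneg_left h2 (hl.nonneg t)))
  have h6 : (∫ x, x * h x) * h s ≤ (∫ x, x * h x) * (2 * h t) := by linarith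
  exact le_of_mul_le_mul_left h6 hJ

end

/-- PIECE L1 -/
theorem proof_L1 : S_L1 := by
  intro h hl h0 hpos
  have hi := law_integrable hl hpos
  have hJ := J_pos hl h0 hpos
  obtain ⟨x₀, hx₀, htop⟩ := lc_top hl hpos
  set I := ∫ x, h x with hI
  set J := ∫ x, x * h x with hJd
  set M := J / I with hM
  have hM0 : 0 < M := div_pos hJ hpos
  have hJM : J = M * I := by rw [hM]; field_simp
  have hneg : ∀ s, 0 < h s → 0 ≤ s := fun s hs => by
    by_contra hc
    rw [h0 s (not_le.1 hc)] at hs
    exact lt_irrefl _ hs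
  have hI8 : I ≤ 8 * M * h x₀ := by
    have h1 := markov hl h0 hpos (M := 2 * M) (S := 2 * h x₀) (by positivity)
      (fun t _ _ => htop t) (by positivity)
    rw [← hI, ← hJd, hJM] at h1
    have h2 : (2 * M)⁻¹ * (M * I) = I / 2 := by field_simp
    rw [h2] at h1
    linarith
  -- the tilt inequality from the bound for the tail
  rcases le_or_gt (M / 2) x₀ with hx | hx
  · -- case A
    refine ⟨x₀, hx₀, ?_, fun s => ?_, fun s t h1 h2 => ?_, fun s => ?_, ?_⟩
    · rw [← hI, ← hJd, hJM]
      exact mul_le_mul_of_nonneg_right (by linarith) hpos.le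
    · have := htop s; linarith
    · have h3 := lc_quasi hl h1 h2
      have h4 := htop s
      rcases min_choice (h s) (h x₀) with h5 | h5
      · rw [h5] at h3; have := hl.nonneg t; linarith
      · rw [h5] at h3; linarith
    · -- tilt
      rw [← hI, ← hJd, hJM]
      have goal : s * h s ≤ 128 * M * h x₀ := by
        rcases lt_or_ge s 0 with hs0 | hs0
        · rw [h0 s hs0, mul_zero]; positivity
        have hts := htop s
        rcases le_or_gt s (12 * M) with hs | hs
        · have := mul_le_mul hs hts (hl.nonneg s) (by positivity)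
          nlinarith [mul_pos hM0 hx₀]
        · -- s > 12 M; then x₀ ≤ 6 M
          have hx6 : x₀ ≤ 6 * M := by
            by_contra hc
            push Not at hc
            obtain ⟨t₀, ht0, ht1, ht2⟩ : ∃ t₀, 0 ≤ t₀ ∧ t₀ ≤ 2 * M ∧ I / (8 * M) ≤ h t₀ := by
              by_contra hno
              push Not at hno
              have h1 := markov hl h0 hpos (M := 2 * M) (S := I / (8 * M)) (by positivity)
                (fun t h1 h2 => (hno t h1 h2).le) (by positivity)
              rw [← hI, ← hJd, hJM] at h1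
              have h2 : (2 * M)⁻¹ * (M * I) = I / 2 := by field_simp
              have h3 : 2 * M * (I / (8 * M)) = I / 4 := by field_simp; ring
              rw [h2, h3] at h1
              linarith
            have h1 : ∀ t, 2 * M ≤ t → t ≤ x₀ → I / (8 * M) ≤ h t := by
              intro t h2 h3
              refine le_trans ?_ (lc_quasi hl (ht1.trans h2) h3)
              refine le_min ht2 ?_
              rw [div_le_iff₀ (by positivity)]
              linarith
            have h2 := J_ge hl h0 hpos (a := 2 * M) (b := x₀) (c := I / (8 * M)) (by positivity)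
              (by linarith) (by positivity) h1
            rw [← hJd, hJM] at h2
            have h3 : (x₀ - 2 * M) * (2 * M * (I / (8 * M))) = (x₀ - 2 * M) * I / 4 := by
              field_simp; ring
            rw [h3] at h2
            nlinarith
          have h1 : ∀ t, s / 2 ≤ t → t ≤ s → h s / 2 ≤ h t := by
            intro t h2 h3
            refine le_trans ?_ (lc_quasi hl (s := x₀) (u := s) (by linarith) h3)
            refine le_min (by linarith) ?_
            have := hl.nonneg s
            linarith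
          have hs00 := hl.nonneg s
          have h2 := J_ge hl h0 hpos (a := s / 2) (b := s) (c := h s / 2) (by positivity)
            (by linarith) (by positivity) h1
          rw [← hJd, hJM] at h2
          -- s^2 h s / 8 ≤ M I ≤ 8 M^2 h x₀ ≤ (2/3) M s h x₀
          have h3 : s * (s * h s) ≤ s * (128 * M * h x₀) := by
            have h4 : M * I ≤ M * (8 * M * h x₀) := mul_le_mul_of_nonneg_left hI8 hM0.le
            have h5 : M * (M * h x₀) ≤ s * (M * h x₀) :=
              mul_le_mul_of_nonneg_right (by linarith) (by positivity)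
            nlinarith
          exact le_of_mul_le_mul_left h3 (by linarith)
      calc s * h s * I ≤ 128 * M * h x₀ * I := mul_le_mul_of_nonneg_right goal hpos.le
        _ = _ := by ring
    · -- tail
      rw [← hI, ← hJd, hJM]
      nlinarith [mul_le_mul_of_nonneg_left hI8 hpos.le, mul_pos (mul_pos hM0 hpos) hx₀]
  · -- case B
    have hkey : ∀ s, s ≤ M / 2 → h s ≤ 2 * h (M / 2) := fun s hs =>
      key hl h0 hpos hs (by rw [← hI, ← hJd, hJM]; linarith)
    have hx1 := hkey x₀ hx.le
    have hpos1 : 0 < h (M / 2) := by linarith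
    have hsup : ∀ s, h s ≤ 4 * h (M / 2) := fun s => (htop s).trans (by linarith)
    have hI16 : I ≤ 16 * M * h (M / 2) := by
      have : 8 * M * h x₀ ≤ 8 * M * (2 * h (M / 2)) := mul_le_mul_of_nonneg_left hx1 (by positivity)
      linarith
    refine ⟨M / 2, hpos1, ?_, hsup, fun s t h1 h2 => ?_, fun s => ?_, ?_⟩
    · rw [← hI, ← hJd, hJM]
      exact mul_le_mul_of_nonneg_right (by linarith) hpos.le
    · have h3 := lc_quasi hl h1 h2
      have h4 := hkey s (h1.trans h2)
      rcases min_choice (h s) (h (M / 2)) with h5 | h5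
      · rw [h5] at h3; have := hl.nonneg t; linarith
      · rw [h5] at h3; linarith
    · rw [← hI, ← hJd, hJM]
      have goal : s * h s ≤ 128 * M * h (M / 2) := by
        rcases lt_or_ge s 0 with hs0 | hs0
        · rw [h0 s hs0, mul_zero]; positivity
        have hts := hsup s
        rcases le_or_gt s (2 * M) with hs | hs
        · have := mul_le_mul hs hts (hl.nonneg s) (by positivity)
          nlinarith [mul_pos hM0 hpos1]
        · have h1 : ∀ t, s / 2 ≤ t → t ≤ s → h s / 4 ≤ h t := by
            intro t h2 h3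
            refine le_trans ?_ (lc_quasi hl (s := M / 2) (u := s) (by linarith) h3)
            refine le_min (by linarith) ?_
            have := hl.nonneg s
            linarith
          have hs00 := hl.nonneg s
          have h2 := J_ge hl h0 hpos (a := s / 2) (b := s) (c := h s / 4) (by positivity)
            (by linarith) (by positivity) h1
          rw [← hJd, hJM] at h2
          have h3 : s * (s * h s) ≤ s * (128 * M * h (M / 2)) := by
            have h4 : M * I ≤ M * (16 * M * h (M / 2)) := mul_le_mul_of_nonneg_left hI16 hM0.le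
            have h5 : 2 * M * (M * h (M / 2)) ≤ s * (M * h (M / 2)) :=
              mul_le_mul_of_nonneg_right (by linarith) (by positivity)
            nlinarith
          exact le_of_mul_le_mul_left h3 (by linarith)
      calc s * h s * I ≤ 128 * M * h (M / 2) * I := mul_le_mul_of_nonneg_right goal hpos.le
        _ = _ := by ring
    · rw [← hI, ← hJd, hJM]
      nlinarith [mul_le_mul_of_nonneg_left hI16 hpos.le, mul_pos (mul_pos hM0 hpos) hpos1]

end Pool.Agent.K6.H46.LT
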