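import Pool.Agent.K6.H46.LT.PieceL1

/-!
# Piece L2: comparison of the means under `x h` and `h`
-/

set_option autoImplicit false

namespace Pool.Agent.K6.H46.LT

open MeasureTheory ProbabilityTheory Filter Topology
open Pool.Agent.K6.H24.OP

section fub

variable {g p : ℝ → ℝ}

/-- the integrand -/
noncomputable def FF (g p : ℝ → ℝ) (q : ℝ × ℝ) : ℝ :=
  Set.indicator {q : ℝ × ℝ | 0 < q.1 ∧ q.1 < q.2} (fun q => g q.1 * p q.2) q

theorem FF_meas (hg : Measurable g) (hp : Measurable p) : Measurable (FF g p) := by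
  unfold FF
  refine Measurable.indicator ?_ ?_
  · exact (hg.comp measurable_fst).mul (hp.comp measurable_snd)
  · exact (measurableSet_lt measurable_const measurable_fst).inter
      (measurableSet_lt measurable_fst measurable_snd)

theorem FF_left (t : ℝ) : ∫ x, FF g p (t, x) =
    (Set.Ioi (0:ℝ)).indicator (fun t => g t * ∫ x in Set.Ioi t, p x) t := by
  by_cases ht : 0 < t
  · rw [Set.indicator_of_mem (show t ∈ Set.Ioi (0:ℝ) from ht), ← integral_const_mul,
      ← integral_indicator measurableSet_Ioi]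
    congr 1
    funext x
    by_cases hx : t < x
    · rw [Set.indicator_of_mem (show x ∈ Set.Ioi t from hx)]
      unfold FF
      rw [Set.indicator_of_mem (show (t, x) ∈ {q : ℝ × ℝ | 0 < q.1 ∧ q.1 < q.2} from ⟨ht, hx⟩)]
    · rw [Set.indicator_of_notMem (show x ∉ Set.Ioi t from hx)]
      unfold FF
      rw [Set.indicator_of_notMem (fun h => hx h.2)]
  · rw [Set.indicator_of_notMem (show t ∉ Set.Ioi (0:ℝ) from ht)]
    have : ∀ x, FF g p (t, x) = 0 := fun x => by
      unfold FF
      rw [Set.indicator_of_notMem (fun h => ht h.1)]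
    simp [this]

theorem FF_right (x : ℝ) : ∫ t, FF g p (t, x) =
    (Set.Ioi (0:ℝ)).indicator (fun x => p x * ∫ t in (0:ℝ)..x, g t) x := by
  by_cases hx : 0 < x
  · rw [Set.indicator_of_mem (show x ∈ Set.Ioi (0:ℝ) from hx), intervalIntegral.integral_of_le hx.le,
      integral_Ioc_eq_integral_Ioo, ← integral_const_mul, ← integral_indicator measurableSet_Ioo]
    congr 1
    funext t
    by_cases ht : t ∈ Set.Ioo 0 x
    · rw [Set.indicator_of_mem ht]
      unfold FF
      rw [Set.indicator_of_mem (show (t, x) ∈ {q : ℝ × ℝ | 0 < q.1 ∧ q.1 < q.2} from ht)]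
      ring
    · rw [Set.indicator_of_notMem ht]
      unfold FF
      rw [Set.indicator_of_notMem (show (t, x) ∉ {q : ℝ × ℝ | 0 < q.1 ∧ q.1 < q.2} from
        fun h => ht h)]
  · rw [Set.indicator_of_notMem (show x ∉ Set.Ioi (0:ℝ) from hx)]
    have : ∀ t, FF g p (t, x) = 0 := fun t => by
      unfold FF
      rw [Set.indicator_of_notMem (fun h => hx (h.1.trans h.2))]
    simp [this]

theorem FF_int (hg : Measurable g) {B : ℝ} (hB : ∀ t, |g t| ≤ B) (hp : Measurable p)
    (hxp : Integrable fun x => x * p x) : Integrable (FF g p) (volume.prod volume) := by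
  have hm := FF_meas hg hp
  have hB0 : 0 ≤ B := (abs_nonneg _).trans (hB 0)
  have hbd : ∀ t x, ‖FF g p (t, x)‖ ≤ (Set.Icc 0 (max x 0)).indicator (fun _ => B * |p x|) t := by
    intro t x
    unfold FF
    by_cases h : (t, x) ∈ {q : ℝ × ℝ | 0 < q.1 ∧ q.1 < q.2}
    · rw [Set.indicator_of_mem h, Set.indicator_of_mem, Real.norm_eq_abs, abs_mul]
      · exact mul_le_mul_of_nonneg_right (hB t) (abs_nonneg _)
      · exact ⟨h.1.le, (le_of_lt h.2).trans (le_max_left _ _)⟩
    · rw [Set.indicator_of_notMem h, norm_zero]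
      exact Set.indicator_nonneg (fun _ _ => by positivity) _
  rw [integrable_prod_iff' hm.aestronglyMeasurable]
  refine ⟨Eventually.of_forall fun x => ?_, ?_⟩
  · refine (ind_int 0 (max x 0) (B * |p x|)).mono' ?_ (Eventually.of_forall fun t => hbd t x)
    exact (hm.comp (measurable_id.prodMk measurable_const)).aestronglyMeasurable
  · refine (hxp.norm.const_mul B).mono' ?_ (Eventually.of_forall fun x => ?_)
    · exact (hm.norm.aestronglyMeasurable.prod_swap).integral_prod_right'
    · rw [Real.norm_eq_abs, abs_of_nonneg (integral_nonneg fun t => norm_nonneg _)]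
      calc ∫ t, ‖FF g p (t, x)‖ ≤ ∫ t, (Set.Icc 0 (max x 0)).indicator (fun _ => B * |p x|) t := by
            refine integral_mono ?_ (ind_int _ _ _) fun t => hbd t x
            refine ((ind_int 0 (max x 0) (B * |p x|)).mono' ?_ (Eventually.of_forall fun t => ?_))
            · exact (hm.comp (measurable_id.prodMk measurable_const)).norm.aestronglyMeasurable
            · rw [norm_norm]; exact hbd t x
        _ = max x 0 * (B * |p x|) := by rw [int_ind (le_max_right _ _), sub_zero]
        _ ≤ B * ‖x * p x‖ := by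
            rw [Real.norm_eq_abs, abs_mul]
            have : max x 0 ≤ |x| := max_le (le_abs_self _) (abs_nonneg _)
            have h2 : max x 0 * (B * |p x|) ≤ |x| * (B * |p x|) :=
              mul_le_mul_of_nonneg_right this (by positivity)
            linarith

theorem fub (hg : Measurable g) {B : ℝ} (hB : ∀ t, |g t| ≤ B) (hp : Measurable p)
    (hxp : Integrable fun x => x * p x) :
    IntegrableOn (fun t => g t * ∫ x in Set.Ioi t, p x) (Set.Ioi 0) ∧
    ∫ t in Set.Ioi (0:ℝ), g t * ∫ x in Set.Ioi t, p x =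
      ∫ x in Set.Ioi (0:ℝ), p x * ∫ t in (0:ℝ)..x, g t := by
  have hi := FF_int hg hB hp hxp
  constructor
  · rw [← integrable_indicator_iff measurableSet_Ioi]
    have := hi.integral_prod_left
    refine this.congr (Eventually.of_forall fun t => ?_)
    exact FF_left t
  · rw [← integral_indicator measurableSet_Ioi, ← integral_indicator measurableSet_Ioi]
    have h1 : ∫ t, ∫ x, FF g p (t, x) = ∫ x, ∫ t, FF g p (t, x) :=
      integral_integral_swap (f := fun t x => FF g p (t, x)) hi
    simp only [FF_left, FF_right] at h1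
    exact h1

end fub

theorem int_half {f : ℝ → ℝ} (hf : ∀ x, x < 0 → f x = 0) : ∫ x in Set.Ioi (0:ℝ), f x = ∫ x, f x := by
  rw [← integral_indicator measurableSet_Ioi]
  refine integral_congr_ae ?_
  have h2 : ∀ᵐ x : ℝ, x ≠ 0 := by rw [ae_iff]; simp
  filter_upwards [h2] with x hx
  rcases lt_or_gt_of_ne hx with h | h
  · rw [Set.indicator_of_notMem (by simp [h.le]), hf x h]
  · rw [Set.indicator_of_mem (show x ∈ Set.Ioi (0:ℝ) from h)]

/-- Cauchy-Schwarz with the weight `K` -/
theorem cs {g K : ℝ → ℝ} {s : Set ℝ} (hs : MeasurableSet s) (hK : ∀ t ∈ s, 0 ≤ K t)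
    (h1 : IntegrableOn (fun t => 1 * K t) s) (h2 : IntegrableOn (fun t => g t * K t) s)
    (h3 : IntegrableOn (fun t => g t ^ 2 * K t) s) :
    (∫ t in s, g t * K t) ^ 2 ≤ (∫ t in s, 1 * K t) * ∫ t in s, g t ^ 2 * K t := by
  have h : ∀ x : ℝ, 0 ≤ (∫ t in s, 1 * K t) * (x * x) + (-2 * ∫ t in s, g t * K t) * x +
      ∫ t in s, g t ^ 2 * K t := by
    intro x
    have h4 : ∫ t in s, (g t - x) ^ 2 * K t = (∫ t in s, 1 * K t) * (x * x) +
        (-2 * ∫ t in s, g t * K t) * x + ∫ t in s, g t ^ 2 * K t := by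
      have e : ∀ t, (g t - x) ^ 2 * K t = (x * x) * (1 * K t) + (-2 * x) * (g t * K t) +
          g t ^ 2 * K t := fun t => by ring
      simp only [e]
      have a1 : ∫ t in s, (x * x) * (1 * K t) = (x * x) * ∫ t in s, 1 * K t :=
        integral_const_mul _ _
      have a2 : ∫ t in s, (-2 * x) * (g t * K t) = (-2 * x) * ∫ t in s, g t * K t :=
        integral_const_mul _ _
      rw [integral_add (f := fun t => (x * x) * (1 * K t) + (-2 * x) * (g t * K t))
          ((h1.const_mul (x * x)).add (h2.const_mul (-2 * x))) h3,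
        integral_add (h1.const_mul (x * x)) (h2.const_mul (-2 * x)), a1, a2]
      ring
    rw [← h4]
    exact setIntegral_nonneg hs fun t ht => mul_nonneg (sq_nonneg _) (hK t ht)
  have := discrim_le_zero h
  rw [discrim] at this
  nlinarith

section main

variable {h : ℝ → ℝ} (hl : LC h) (h0 : ∀ x, x < 0 → h x = 0) (hpos : 0 < ∫ x, h x)

include hl h0 in
theorem lc_xh : LC fun x => x * h x := by
  refine ⟨fun x => xh_nonneg hl h0 x, fun x y t ht0 ht1 => ?_⟩
  have hR := xh_nonneg hl h0 ((1 - t) * x + t * y)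
  rcases lt_or_ge x 0 with hx | hx
  · rw [h0 x hx, mul_zero, Real.zero_rpow (by linarith), zero_mul]
    exact hR
  rcases lt_or_ge y 0 with hy | hy
  · rw [h0 y hy, mul_zero, Real.zero_rpow (by linarith), mul_zero]
    exact hR
  rw [Real.mul_rpow hx (hl.nonneg x), Real.mul_rpow hy (hl.nonneg y)]
  have h1 := Real.geom_mean_le_arith_mean2_weighted (w₁ := 1 - t) (w₂ := t) (p₁ := x) (p₂ := y)
    (by linarith) ht0.le hx hy (by ring)
  have h2 := hl.conc x y t ht0 ht1
  calc x ^ (1 - t) * h x ^ (1 - t) * (y ^ t * h y ^ t)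
      = (x ^ (1 - t) * y ^ t) * (h x ^ (1 - t) * h y ^ t) := by ring
    _ ≤ ((1 - t) * x + t * y) * h ((1 - t) * x + t * y) :=
        mul_le_mul h1 h2 (mul_nonneg (Real.rpow_nonneg (hl.nonneg x) _)
          (Real.rpow_nonneg (hl.nonneg y) _)) (by
            have := mul_nonneg (show (0:ℝ) ≤ 1 - t by linarith) hx
            have := mul_nonneg ht0.le hy
            linarith)

include hl hpos in
theorem mom2 : Integrable fun x => x ^ 2 * h x := by
  have := law_prob hl hpos
  exact (law_integrable_iff hl hpos _).1 (law_memLp hl hpos).integrable_sq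

include hl hpos in
theorem var_formula : (∫ x, h x) * variance (fun x : ℝ => x) (law h) =
    (∫ x, x ^ 2 * h x) - (∫ x, x * h x) / (∫ x, h x) * ∫ x, x * h x := by
  have := law_prob hl hpos
  rw [variance_eq_sub (law_memLp hl hpos)]
  simp only [Pi.pow_apply]
  rw [law_int hl hpos, law_int hl hpos]
  field_simp

include hl hpos in
theorem p_int (M : ℝ) : Integrable fun x => (x - M) * h x := by
  refine ((mom1 hl hpos).sub ((law_integrable hl hpos).const_mul M)).congr
    (Eventually.of_forall fun x => ?_)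
  show x * h x - M * h x = (x - M) * h x
  ring

include hl hpos in
theorem xp_int (M : ℝ) : Integrable fun x => x * ((x - M) * h x) := by
  refine ((mom2 hl hpos).sub ((mom1 hl hpos).const_mul M)).congr
    (Eventually.of_forall fun x => ?_)
  show x ^ 2 * h x - M * (x * h x) = x * ((x - M) * h x)
  ring

include hl hpos in
theorem int_p (M : ℝ) : ∫ x, (x - M) * h x = (∫ x, x * h x) - M * ∫ x, h x := by
  rw [← integral_const_mul, ← integral_sub (mom1 hl hpos) ((law_integrable hl hpos).const_mul M)]
  congr 1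
  funext x
  ring

include hl hpos in
theorem int_xp (M : ℝ) : ∫ x, x * ((x - M) * h x) = (∫ x, x ^ 2 * h x) - M * ∫ x, x * h x := by
  rw [← integral_const_mul, ← integral_sub (mom2 hl hpos) ((mom1 hl hpos).const_mul M)]
  congr 1
  funext x
  ring

include hl hpos in
theorem K_left {M : ℝ} (hM : ∫ x, x * h x = M * ∫ x, h x) (t : ℝ) :
    ∫ x in Set.Ioi t, (x - M) * h x = ∫ x in Set.Iic t, (M - x) * h x := by
  have hp := p_int hl hpos M
  have h1 := intervalIntegral.integral_Iic_add_Ioi (b := t) hp.integrableOn hp.integrableOn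
  rw [int_p hl hpos, hM, sub_self] at h1
  have h2 : ∫ x in Set.Iic t, (M - x) * h x = - ∫ x in Set.Iic t, (x - M) * h x := by
    rw [← integral_neg]
    congr 1
    funext x
    ring
  rw [h2]
  linarith

include hl hpos in
theorem K_nonneg {M : ℝ} (hM : ∫ x, x * h x = M * ∫ x, h x) (t : ℝ) :
    0 ≤ ∫ x in Set.Ioi t, (x - M) * h x := by
  rcases le_total M t with ht | ht
  · exact setIntegral_nonneg measurableSet_Ioi fun x hx =>
      mul_nonneg (by have := Set.mem_Ioi.1 hx; linarith) (hl.nonneg x)
  · rw [K_left hl hpos hM]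
    exact setIntegral_nonneg measurableSet_Iic fun x hx =>
      mul_nonneg (by have := Set.mem_Iic.1 hx; linarith) (hl.nonneg x)

include hl h0 hpos in
theorem K_le {M x₁ : ℝ} (hM : ∫ x, x * h x = M * ∫ x, h x) (hM0 : 0 < M) (hP : Pt h x₁) {t : ℝ}
    (ht : 0 < t) : ∫ x in Set.Ioi t, (x - M) * h x ≤ 32 * M * (t * h t) := by
  have hi := law_integrable hl hpos
  have hht := hl.nonneg t
  rcases le_or_gt t x₁ with h1 | h1
  · rw [K_left hl hpos hM, ← integral_indicator measurableSet_Iic]
    have h2 : ∫ x, (Set.Iic t).indicator (fun x => (M - x) * h x) x ≤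
        ∫ x, (Set.Icc 0 t).indicator (fun _ => M * (2 * h t)) x := by
      refine integral_mono ?_ (ind_int _ _ _) fun x => ?_
      · refine Integrable.indicator ?_ measurableSet_Iic
        refine (p_int hl hpos M).neg.congr (Eventually.of_forall fun x => ?_)
        show -((x - M) * h x) = (M - x) * h x
        ring
      · by_cases hx : x ∈ Set.Iic t
        · rw [Set.indicator_of_mem hx]
          rcases lt_or_ge x 0 with hx0 | hx0
          · rw [h0 x hx0, mul_zero]
            exact Set.indicator_nonneg (fun _ _ => by positivity) _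
          · rw [Set.indicator_of_mem (show x ∈ Set.Icc 0 t from ⟨hx0, hx⟩)]
            have h3 := hP.left x t hx h1
            calc (M - x) * h x ≤ M * h x := mul_le_mul_of_nonneg_right (by linarith) (hl.nonneg x)
              _ ≤ M * (2 * h t) := mul_le_mul_of_nonneg_left h3 hM0.le
        · rw [Set.indicator_of_notMem hx]
          exact Set.indicator_nonneg (fun _ _ => by positivity) _
    refine h2.trans ?_
    rw [int_ind ht.le, sub_zero]
    have : 0 ≤ M * (t * h t) := by positivity
    linarith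
  · have hx1 : 0 ≤ x₁ := by
      by_contra hc
      have := hP.pos
      rw [h0 x₁ (not_le.1 hc)] at this
      exact lt_irrefl _ this
    have hp1 := hP.pos
    set c := max (t - M) 0 with hc
    have hc0 : 0 ≤ c := le_max_right _ _
    set G : ℝ → ℝ := fun y => (y + c) * h y with hG
    have hGi : Integrable G := by
      refine ((mom1 hl hpos).add (hi.const_mul c)).congr (Eventually.of_forall fun x => ?_)
      show x * h x + c * h x = (x + c) * h x
      ring
    have hGint : ∫ y, G y = (∫ x, x * h x) + c * ∫ x, h x := by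
      rw [← integral_const_mul, ← integral_add (mom1 hl hpos) (hi.const_mul c)]
      congr 1
      funext x
      simp only [hG]
      ring
    have hG0 : ∀ y, 0 ≤ G y := fun y => by
      rcases lt_or_ge y 0 with hy | hy
      · simp only [hG]; rw [h0 y hy, mul_zero]
      · exact mul_nonneg (by linarith) (hl.nonneg y)
    rw [← integral_indicator measurableSet_Ioi]
    have h2 : ∫ x, (Set.Ioi t).indicator (fun x => (x - M) * h x) x ≤
        ∫ x, (h t / h x₁) * G (x - (t - x₁)) := by
      refine integral_mono ((p_int hl hpos M).indicator measurableSet_Ioi)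
        ((hGi.comp_sub_right (t - x₁)).const_mul _) fun x => ?_
      show (Set.Ioi t).indicator (fun x => (x - M) * h x) x ≤ (h t / h x₁) * G (x - (t - x₁))
      by_cases hx : x ∈ Set.Ioi t
      · rw [Set.indicator_of_mem hx]
        have hxt : t < x := hx
        have h3 := hl.four h1.le (r := x - t) (by linarith)
        have e1 : t + (x - t) = x := by ring
        have e2 : x₁ + (x - t) = x - (t - x₁) := by ring
        rw [e1, e2] at h3
        have h4 : h x ≤ h t / h x₁ * h (x - (t - x₁)) := by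
          rw [div_mul_eq_mul_div, le_div_iff₀ hp1]; exact h3
        have h5 : t - M ≤ c := le_max_left _ _
        have h6 : 0 ≤ h t / h x₁ * h (x - (t - x₁)) :=
          mul_nonneg (div_nonneg hht hp1.le) (hl.nonneg _)
        have h7 : 0 ≤ x - (t - x₁) + c := by linarith
        calc (x - M) * h x ≤ (x - (t - x₁) + c) * h x :=
              mul_le_mul_of_nonneg_right (by linarith) (hl.nonneg x)
          _ ≤ (x - (t - x₁) + c) * (h t / h x₁ * h (x - (t - x₁))) :=
              mul_le_mul_of_nonneg_left h4 h7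
          _ = _ := by simp only [hG]; ring
      · rw [Set.indicator_of_notMem hx]
        exact mul_nonneg (div_nonneg hht hp1.le) (hG0 _)
    rw [integral_const_mul, integral_sub_right_eq_self G (t - x₁), hGint, hM] at h2
    refine h2.trans ?_
    have hmean := hP.mean
    rw [hM] at hmean
    have hMx : M ≤ 2 * x₁ := le_of_mul_le_mul_right hmean hpos
    have htail := hP.tail
    rw [hM] at htail
    have hIx : ∫ x, h x ≤ 16 * M * h x₁ := by
      have : (∫ x, h x) * ∫ x, h x ≤ (∫ x, h x) * (16 * M * h x₁) := by nlinarith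
      exact le_of_mul_le_mul_left this hpos
    have hmc : M + c ≤ 2 * t := by
      rcases max_choice (t - M) 0 with h3 | h3
      · rw [hc, h3]; linarith
      · rw [hc, h3]; linarith
    have h8 : (∫ x, h x) / h x₁ ≤ 16 * M := by rw [div_le_iff₀ hp1]; exact hIx
    have h9 : h t * (M + c) ≤ h t * (2 * t) := mul_le_mul_of_nonneg_left hmc hht
    calc h t / h x₁ * ((M * ∫ x, h x) + c * ∫ x, h x)
        = h t * (M + c) * ((∫ x, h x) / h x₁) := by field_simp
      _ ≤ h t * (2 * t) * (16 * M) :=
          mul_le_mul h9 h8 (div_nonneg hpos.le hp1.le) (by positivity)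
      _ = 32 * M * (t * h t) := by ring

end main

/-- the integral of the truncated derivative -/
theorem int_trunc {φ : ℝ → ℝ} (hφ : ContDiff ℝ 1 φ) {R : ℝ} (hR : 0 ≤ R) {x : ℝ} (hx : 0 < x) :
    ∫ t in (0:ℝ)..x, (Set.Icc 0 R).indicator (deriv φ) t = φ (min x R) - φ 0 := by
  have hc : Continuous (deriv φ) := hφ.continuous_deriv le_rfl
  rw [intervalIntegral.integral_of_le hx.le, setIntegral_indicator measurableSet_Icc]
  have e : Set.Ioc 0 x ∩ Set.Icc 0 R = Set.Ioc 0 (min x R) := by
    ext t
    simp only [Set.mem_inter_iff, Set.mem_Ioc, Set.mem_Icc, le_min_iff]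
    constructor
    · rintro ⟨⟨a, b⟩, c, d⟩; exact ⟨a, b, d⟩
    · rintro ⟨a, b, d⟩; exact ⟨⟨a, b⟩, a.le, d⟩
  rw [e, ← intervalIntegral.integral_of_le (le_min hx.le hR)]
  exact intervalIntegral.integral_deriv_eq_sub (fun t _ => hφ.differentiable (by norm_num) t)
    (hc.intervalIntegrable _ _)

/-- PIECE L2 -/
theorem proof_L2 : S_L2 := by
  intro h x₁ hl h0 hpos hP
  have hl' := lc_xh hl h0
  have hJ := J_pos hl h0 hpos
  refine ⟨hl', hJ, fun φ hφ hbd hE => ?_⟩
  obtain ⟨B, hB⟩ := hbd
  have hi := law_integrable hl hpos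
  have hx1 := mom1 hl hpos
  rw [law_integrable_iff hl' hJ] at hE
  rw [law_int hl' hJ, law_int hl hpos, law_int hl' hJ]
  obtain ⟨M, hMd⟩ : ∃ M, M = (∫ x, x * h x) / ∫ x, h x := ⟨_, rfl⟩
  have hM0 : 0 < M := by rw [hMd]; exact div_pos hJ hpos
  have hM : ∫ x, x * h x = M * ∫ x, h x := by rw [hMd]; field_simp
  have hV := var_formula hl hpos
  rw [← hMd] at hV
  set V := variance (fun x : ℝ => x) (law h) with hVd
  set E := ∫ x, deriv φ x ^ 2 * (x * h x) with hEd
  set p : ℝ → ℝ := fun x => (x - M) * h x with hp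
  have hpm : Measurable p := (measurable_id.sub_const M).mul hl.meas
  have hpi : Integrable p := p_int hl hpos M
  have hxp : Integrable fun x => x * p x := xp_int hl hpos M
  have hp0 : ∀ x, x < 0 → p x = 0 := fun x hx => by simp only [hp]; rw [h0 x hx, mul_zero]
  have hpI : ∫ x, p x = 0 := by rw [int_p hl hpos, hM, sub_self]
  have hdc : Continuous (deriv φ) := hφ.continuous_deriv le_rfl
  set K : ℝ → ℝ := fun t => ∫ x in Set.Ioi t, p x with hK
  have hK0 : ∀ t, 0 ≤ K t := K_nonneg hl hpos hM
  have hK1 : ∀ t, 0 < t → K t ≤ 32 * M * (t * h t) := fun t ht => K_le hl h0 hpos hM hM0 hP ht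
  -- the integral of `K`
  obtain ⟨f1, f2⟩ := fub (g := fun _ => (1:ℝ)) measurable_const (B := 1) (fun _ => by simp) hpm hxp
  have hKint : ∫ t in Set.Ioi (0:ℝ), 1 * K t = (∫ x, h x) * V := by
    rw [f2, hV, ← int_xp hl hpos, ← int_half (f := fun x => x * ((x - M) * h x))
      (fun x hx => by rw [h0 x hx]; simp)]
    refine setIntegral_congr_fun measurableSet_Ioi fun x _ => ?_
    simp [hp]
    ring
  -- the truncated inequality
  have trunc : ∀ R : ℝ, 0 ≤ R → (∫ x in Set.Ioi (0:ℝ), p x * (φ (min x R) - φ 0)) ^ 2 ≤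
      32 * V * (∫ x, x * h x) * E := by
    intro R hR
    obtain ⟨B', hB'⟩ : ∃ B', ∀ t, |(Set.Icc 0 R).indicator (deriv φ) t| ≤ B' := by
      obtain ⟨C, hC⟩ := isCompact_Icc.exists_bound_of_continuousOn (s := Set.Icc 0 R)
        hdc.continuousOn
      refine ⟨max C 0, fun t => ?_⟩
      by_cases ht : t ∈ Set.Icc 0 R
      · rw [Set.indicator_of_mem ht]
        exact (hC t ht).trans (le_max_left _ _)
      · rw [Set.indicator_of_notMem ht, abs_zero]; exact le_max_right _ _
    have hgm : Measurable ((Set.Icc 0 R).indicator (deriv φ)) :=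
      hdc.measurable.indicator measurableSet_Icc
    obtain ⟨g1, g2⟩ := fub hgm hB' hpm hxp
    obtain ⟨k1, -⟩ := fub (g := fun t => (Set.Icc 0 R).indicator (deriv φ) t ^ 2) (hgm.pow_const 2)
      (B := B' ^ 2) (fun t => by rw [abs_pow]; exact pow_le_pow_left₀ (abs_nonneg _) (hB' t) 2)
      hpm hxp
    have h1 := cs measurableSet_Ioi (fun t _ => hK0 t) f1 g1 k1
    rw [g2, hKint] at h1
    have e1 : ∫ x in Set.Ioi (0:ℝ), p x * ∫ t in (0:ℝ)..x, (Set.Icc 0 R).indicator (deriv φ) t =
        ∫ x in Set.Ioi (0:ℝ), p x * (φ (min x R) - φ 0) := by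
      refine setIntegral_congr_fun measurableSet_Ioi fun x hx => ?_
      show p x * (∫ t in (0:ℝ)..x, (Set.Icc 0 R).indicator (deriv φ) t) =
        p x * (φ (min x R) - φ 0)
      rw [int_trunc hφ hR hx]
    rw [e1] at h1
    refine h1.trans ?_
    have h2 : ∫ t in Set.Ioi (0:ℝ), (Set.Icc 0 R).indicator (deriv φ) t ^ 2 * K t ≤
        32 * M * E := by
      rw [hEd, ← int_half (f := fun x => deriv φ x ^ 2 * (x * h x))
        (fun x hx => by rw [h0 x hx]; simp), ← integral_const_mul]
      refine setIntegral_mono_on k1 (hE.integrableOn.const_mul _) measurableSet_Ioi fun t ht => ?_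
      have ht0 : 0 < t := ht
      have hth : 0 ≤ t * h t := mul_nonneg ht0.le (hl.nonneg t)
      by_cases hm : t ∈ Set.Icc 0 R
      · rw [Set.indicator_of_mem hm]
        calc deriv φ t ^ 2 * K t ≤ deriv φ t ^ 2 * (32 * M * (t * h t)) :=
              mul_le_mul_of_nonneg_left (hK1 t ht0) (sq_nonneg _)
          _ = _ := by ring
      · rw [Set.indicator_of_notMem hm]
        have : 0 ≤ 32 * M * (deriv φ t ^ 2 * (t * h t)) := by positivity
        simpa using this
    have hV0 : 0 ≤ (∫ x, h x) * V := mul_nonneg hpos.le (variance_nonneg _ _)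
    calc (∫ x, h x) * V * ∫ t in Set.Ioi (0:ℝ), (Set.Icc 0 R).indicator (deriv φ) t ^ 2 * K t
        ≤ (∫ x, h x) * V * (32 * M * E) := mul_le_mul_of_nonneg_left h2 hV0
      _ = _ := by rw [hM]; ring
  -- the limit
  have hlim : Tendsto (fun n : ℕ => ∫ x in Set.Ioi (0:ℝ), p x * (φ (min x n) - φ 0)) atTop
      (𝓝 (∫ x in Set.Ioi (0:ℝ), p x * (φ x - φ 0))) := by
    refine tendsto_integral_of_dominated_convergence (fun x => |p x| * (2 * B)) ?_ ?_ ?_ ?_
    · intro n
      exact (hpm.mul ((hφ.continuous.measurable.comp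
        (measurable_id.min measurable_const)).sub_const _)).aestronglyMeasurable
    · exact (hpi.abs.mul_const _).integrableOn
    · intro n
      refine Eventually.of_forall fun x => ?_
      rw [Real.norm_eq_abs, abs_mul]
      refine mul_le_mul_of_nonneg_left ?_ (abs_nonneg _)
      have h1 := abs_sub (φ (min x n)) (φ 0)
      have h2 := hB (min x n)
      have h3 := hB 0
      linarith
    · refine Eventually.of_forall fun x => ?_
      refine tendsto_const_nhds.congr' ?_
      filter_upwards [eventually_ge_atTop ⌈x⌉₊] with n hn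
      rw [min_eq_left ((Nat.le_ceil x).trans (by exact_mod_cast hn))]
  have hfin : (∫ x in Set.Ioi (0:ℝ), p x * (φ x - φ 0)) ^ 2 ≤ 32 * V * (∫ x, x * h x) * E :=
    le_of_tendsto' (hlim.pow 2) fun n => trunc n (Nat.cast_nonneg n)
  have hpφ : Integrable fun x => p x * φ x := by
    have := hpi.bdd_mul (c := B) hφ.continuous.aestronglyMeasurable
      (Eventually.of_forall fun x => by rw [Real.norm_eq_abs]; exact hB x)
    refine this.congr (Eventually.of_forall fun x => ?_)
    show φ x * p x = p x * φ x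
    ring
  have hcalc : ∫ x in Set.Ioi (0:ℝ), p x * (φ x - φ 0) = ∫ x, p x * φ x := by
    rw [int_half (f := fun x => p x * (φ x - φ 0)) (fun x hx => by rw [hp0 x hx, zero_mul])]
    have : ∀ x, p x * (φ x - φ 0) = p x * φ x - p x * φ 0 := fun x => by ring
    simp only [this]
    rw [integral_sub hpφ (hpi.mul_const _), integral_mul_const, hpI, zero_mul, sub_zero]
  rw [hcalc] at hfin
  have hφh : Integrable fun x => φ x * h x :=
    hi.bdd_mul (c := B) hφ.continuous.aestronglyMeasurable
      (Eventually.of_forall fun x => by rw [Real.norm_eq_abs]; exact hB x)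
  have hφxh : Integrable fun x => φ x * (x * h x) :=
    hx1.bdd_mul (c := B) hφ.continuous.aestronglyMeasurable
      (Eventually.of_forall fun x => by rw [Real.norm_eq_abs]; exact hB x)
  have hD : ∫ x, p x * φ x = (∫ x, φ x * (x * h x)) - M * ∫ x, φ x * h x := by
    rw [← integral_const_mul, ← integral_sub hφxh (hφh.const_mul M)]
    congr 1
    funext x
    simp only [hp]
    ring
  rw [hD] at hfin
  have hI0 : (∫ x, h x) ≠ 0 := hpos.ne'
  have e2 : (∫ x, x * h x)⁻¹ * (∫ x, φ x * (x * h x)) - (∫ x, h x)⁻¹ * (∫ x, φ x * h x) =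
      (∫ x, x * h x)⁻¹ * ((∫ x, φ x * (x * h x)) - M * ∫ x, φ x * h x) := by
    rw [hM]
    field_simp
  rw [e2, mul_pow]
  have hJ0 := hJ.ne'
  calc ((∫ x, x * h x)⁻¹) ^ 2 * ((∫ x, φ x * (x * h x)) - M * ∫ x, φ x * h x) ^ 2
      ≤ ((∫ x, x * h x)⁻¹) ^ 2 * (32 * V * (∫ x, x * h x) * E) :=
        mul_le_mul_of_nonneg_left hfin (sq_nonneg _)
    _ = 32 * V * ((∫ x, x * h x)⁻¹ * E) := by field_simp

end Pool.Agent.K6.H46.LT
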