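import Pool.Agent.K6.H46.LT.Defs

/-!
# Piece Q: change of one coordinate
-/

set_option autoImplicit false

namespace Pool.Agent.K6.H46.LT

open MeasureTheory ProbabilityTheory Finset

/-- Fubini with the coordinate `i` singled out -/
lemma pieceQ_fub {m : ℕ} (κ : Fin (m + 1) → Measure ℝ) [∀ j, IsProbabilityMeasure (κ j)] (i : Fin (m + 1))
    {g : (Fin (m + 1) → ℝ) → ℝ} (hg : Integrable g (Measure.pi κ)) :
    Integrable (fun p : ℝ × (Fin m → ℝ) => g (i.insertNth p.1 p.2))
      ((κ i).prod (Measure.pi fun j => κ (i.succAbove j))) ∧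
    ∫ x, g x ∂(Measure.pi κ) =
      ∫ y, ∫ t, g (i.insertNth t y) ∂(κ i) ∂(Measure.pi fun j => κ (i.succAbove j)) := by
  have hmp := (measurePreserving_piFinSuccAbove κ i).symm
  have hI : Integrable (fun p : ℝ × (Fin m → ℝ) => g (i.insertNth p.1 p.2))
      ((κ i).prod (Measure.pi fun j => κ (i.succAbove j))) :=
    hmp.integrable_comp_of_integrable hg
  refine ⟨hI, ?_⟩
  rw [← hmp.integral_comp' g, ← integral_prod_symm _ hI]
  rfl

lemma pieceQ_der {m : ℕ} {f : (Fin (m + 1) → ℝ) → ℝ} (hf : ContDiff ℝ 1 f) (i : Fin (m + 1))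
    (y : Fin m → ℝ) :
    ContDiff ℝ 1 (fun t : ℝ => f (i.insertNth t y)) ∧ ∀ t : ℝ,
      deriv (fun t : ℝ => f (i.insertNth t y)) t = fderiv ℝ f (i.insertNth t y) (Pi.single i 1) := by
  have h0 : (fun t : ℝ => (i.insertNth t y : Fin (m + 1) → ℝ)) =
      Function.update (i.insertNth (0 : ℝ) y : Fin (m + 1) → ℝ) i := by
    funext t
    rw [Fin.update_insertNth]
  constructor
  · refine hf.comp ?_
    rw [h0]
    exact contDiff_update 1 _ i
  · intro t
    have h1 : HasDerivAt (fun t : ℝ => (i.insertNth t y : Fin (m + 1) → ℝ)) (Pi.single i 1) t := by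
      rw [h0]
      exact hasDerivAt_update _ i t
    have h2 : HasFDerivAt f (fderiv ℝ f (i.insertNth t y)) (i.insertNth t y) :=
      ((hf.differentiable one_ne_zero) _).hasFDerivAt
    exact (h2.comp_hasDerivAt t h1).deriv

theorem proof_Q : S_Q := by
  intro n ν i b K hν hb hK hcmp f hf
  obtain ⟨m, rfl⟩ : ∃ m, n = m + 1 := ⟨n - 1, by have := i.pos; omega⟩
  set ν' : Fin (m + 1) → Measure ℝ := Function.update ν i b with hν'
  have hν'p : ∀ j, IsProbabilityMeasure (ν' j) := by
    intro j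
    by_cases h : j = i
    · subst h
      rw [hν', Function.update_self]
      exact hb
    · rw [hν', Function.update_of_ne h]
      exact hν j
  have e1 : ν' i = b := by rw [hν', Function.update_self]
  have e2 : (fun j => ν' (i.succAbove j)) = fun j => ν (i.succAbove j) := by
    funext j
    rw [hν', Function.update_of_ne (Fin.succAbove_ne i j)]
  obtain ⟨B, hB⟩ := hf.bdd
  have hfi : ∀ κ : Fin (m + 1) → Measure ℝ, (∀ j, IsProbabilityMeasure (κ j)) →
      Integrable f (Measure.pi κ) := by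
    intro κ hκ
    exact Integrable.of_bound hf.smooth.continuous.aestronglyMeasurable B
      (Filter.Eventually.of_forall fun x => by rw [Real.norm_eq_abs]; exact hB x)
  obtain ⟨a1, a2⟩ := pieceQ_fub ν i (hfi ν hν)
  obtain ⟨b1, b2⟩ := pieceQ_fub ν' i (hfi ν' hν'p)
  obtain ⟨c1, c2⟩ := pieceQ_fub ν i (hf.sq i)
  rw [e1, e2] at b1 b2
  set μ' : Measure (Fin m → ℝ) := Measure.pi fun j => ν (i.succAbove j) with hμ'
  rw [a2, b2, c2]
  have dA : Integrable (fun y => ∫ t, f (i.insertNth t y) ∂(ν i)) μ' := a1.integral_prod_right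
  have dB : Integrable (fun y => ∫ t, f (i.insertNth t y) ∂b) μ' := b1.integral_prod_right
  rw [← integral_sub dA dB]
  set D : (Fin m → ℝ) → ℝ := fun y => ∫ t, f (i.insertNth t y) ∂(ν i) - ∫ t, f (i.insertNth t y) ∂b
    with hD
  have hDb : ∀ y, |D y| ≤ B + B := by
    intro y
    have hh : ∀ (κ : Measure ℝ) [IsProbabilityMeasure κ], |∫ t, f (i.insertNth t y) ∂κ| ≤ B := by
      intro κ _
      have := norm_integral_le_of_norm_le_const (μ := κ) (f := fun t : ℝ => f (i.insertNth t y)) (C := B)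
        (Filter.Eventually.of_forall fun t => by rw [Real.norm_eq_abs]; exact hB _)
      simpa using this
    exact (abs_sub _ _).trans (add_le_add (hh _) (hh _))
  have hDm : MemLp D 2 μ' := MemLp.of_bound (dA.sub dB).aestronglyMeasurable (B + B)
    (Filter.Eventually.of_forall fun y => by rw [Real.norm_eq_abs]; exact hDb y)
  have hJ : (∫ y, D y ∂μ') ^ 2 ≤ ∫ y, D y ^ 2 ∂μ' := by
    have h1 := variance_eq_sub hDm
    have h2 := variance_nonneg D μ'
    have h3 : ∫ y, (D ^ 2) y ∂μ' = ∫ y, D y ^ 2 ∂μ' := rfl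
    linarith
  refine hJ.trans ?_
  rw [← integral_const_mul]
  have hc := c1.integral_prod_right
  refine integral_mono_ae hDm.integrable_sq (hc.const_mul K) ?_
  filter_upwards [c1.prod_left_ae] with y hy
  obtain ⟨s1, s2⟩ := pieceQ_der hf.smooth i y
  have := hcmp (fun t => f (i.insertNth t y)) s1 ⟨B, fun t => hB _⟩ (by simpa only [s2] using hy)
  simpa only [s2] using this

end Pool.Agent.K6.H46.LT
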