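import Pool.Agent.K6.H46.LT.Defs

/-!
# Piece T: from bounded functions to all functions
-/

set_option autoImplicit false

namespace Pool.Agent.K6.H46.LT

namespace TT

open MeasureTheory ProbabilityTheory Finset Filter Topology

/-- `N arctan (s / N)`, with `N = k + 1` -/
noncomputable def g (k : ℕ) (s : ℝ) : ℝ := (k + 1 : ℝ) * Real.arctan (s / (k + 1))

theorem kpos (k : ℕ) : (0 : ℝ) < k + 1 := by positivity

theorem g_contDiff (k : ℕ) : ContDiff ℝ 1 (g k) := by
  unfold g
  exact contDiff_const.mul (Real.contDiff_arctan.comp (contDiff_id.div_const _))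

theorem g_hasDerivAt (k : ℕ) (s : ℝ) : HasDerivAt (g k) (1 / (1 + (s / (k + 1)) ^ 2)) s := by
  unfold g
  have h1 : HasDerivAt (fun s : ℝ => s / (k + 1)) (1 / (k + 1)) s := (hasDerivAt_id s).div_const _
  have h2 := (h1.arctan).const_mul (k + 1 : ℝ)
  have := kpos k
  have e : (k + 1 : ℝ) * (1 / (1 + (s / (k + 1)) ^ 2) * (1 / (k + 1))) =
      1 / (1 + (s / (k + 1)) ^ 2) := by
    rw [mul_comm, mul_assoc, one_div_mul_cancel this.ne', mul_one]
  rw [e] at h2
  exact h2

theorem g_bdd (k : ℕ) (s : ℝ) : |g k s| ≤ (k + 1) * (Real.pi / 2) := by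
  unfold g
  rw [abs_mul, abs_of_pos (kpos k)]
  refine mul_le_mul_of_nonneg_left ?_ (kpos k).le
  exact (abs_lt.2 ⟨Real.neg_pi_div_two_lt_arctan _, Real.arctan_lt_pi_div_two _⟩).le

theorem d_le (k : ℕ) (s : ℝ) : |1 / (1 + (s / (k + 1 : ℝ)) ^ 2)| ≤ 1 := by
  rw [abs_of_pos (by positivity), div_le_one (by positivity)]
  nlinarith [sq_nonneg (s / (k + 1 : ℝ))]

theorem g_le (k : ℕ) (s : ℝ) : |g k s| ≤ |s| := by
  have h := Convex.norm_image_sub_le_of_norm_hasDerivWithin_le (f := g k)
    (f' := fun s => 1 / (1 + (s / (k + 1 : ℝ)) ^ 2)) (s := Set.univ) (x := 0) (y := s) (C := 1)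
    (fun x _ => (g_hasDerivAt k x).hasDerivWithinAt) (fun x _ => d_le k x) convex_univ trivial
    trivial
  have h0 : g k 0 = 0 := by simp [g]
  rw [h0, sub_zero, sub_zero, one_mul] at h
  exact h

theorem g_tendsto (s : ℝ) : Tendsto (fun k : ℕ => g k s) atTop (𝓝 s) := by
  by_cases hs : s = 0
  · subst hs
    simp [g]
  have h1 : HasDerivAt Real.arctan 1 0 := by simpa using Real.hasDerivAt_arctan 0
  have h2 : Tendsto (fun k : ℕ => s / (k + 1 : ℝ)) atTop (𝓝[≠] 0) := by
    refine tendsto_nhdsWithin_iff.2 ⟨?_, Eventually.of_forall fun k => ?_⟩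
    · have h := (tendsto_one_div_add_atTop_nhds_zero_nat (𝕜 := ℝ)).const_mul s
      simpa [div_eq_mul_inv] using h
    · have := kpos k
      simp [hs, this.ne']
  have h3 := (hasDerivAt_iff_tendsto_slope.1 h1).comp h2
  have h4 := h3.const_mul s
  rw [mul_one] at h4
  refine h4.congr fun k => ?_
  have := kpos k
  simp only [Function.comp, slope_def_field, g, Real.arctan_zero, sub_zero]
  field_simp

end TT

open TT MeasureTheory ProbabilityTheory Finset Filter Topology in
theorem proof_T : S_T := by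
  intro n μ w hμ hw H f hf hq
  set A := ∫ x, ∑ i, w i * (fderiv ℝ f x (Pi.single i 1)) ^ 2 ∂μ with hA
  have hfc : Continuous f := hf.continuous
  have hd : ∀ (k : ℕ) (x : Fin n → ℝ) (v : Fin n → ℝ), fderiv ℝ (fun x => g k (f x)) x v =
      1 / (1 + (f x / (k + 1)) ^ 2) * fderiv ℝ f x v := by
    intro k x v
    have h1 : HasFDerivAt f (fderiv ℝ f x) x := (hf.differentiable one_ne_zero x).hasFDerivAt
    have h2 := (g_hasDerivAt k (f x)).comp_hasFDerivAt x h1
    have h3 : fderiv ℝ (fun x => g k (f x)) x = (1 / (1 + (f x / (k + 1)) ^ 2)) • fderiv ℝ f x :=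
      h2.fderiv
    rw [h3]
    rfl
  have hdle : ∀ (k : ℕ) (x : Fin n → ℝ) (v : Fin n → ℝ),
      (fderiv ℝ (fun x => g k (f x)) x v) ^ 2 ≤ (fderiv ℝ f x v) ^ 2 := by
    intro k x v
    rw [hd, mul_pow, ← sq_abs (1 / _)]
    have h := d_le k (f x)
    have h1 : |1 / (1 + (f x / (k + 1 : ℝ)) ^ 2)| ^ 2 ≤ 1 := pow_le_one₀ (abs_nonneg _) h
    nlinarith [sq_nonneg (fderiv ℝ f x v)]
  have hgc : ∀ k, ContDiff ℝ 1 (fun x => g k (f x)) := fun k => (g_contDiff k).comp hf
  have hgi : ∀ k i, Integrable (fun x => (fderiv ℝ (fun x => g k (f x)) x (Pi.single i 1)) ^ 2)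
      μ := by
    intro k i
    refine (hq i).mono' ?_ (Eventually.of_forall fun x => ?_)
    · exact ((((hgc k).continuous_fderiv one_ne_zero).clm_apply continuous_const).pow
        2).aestronglyMeasurable
    · rw [Real.norm_eq_abs, abs_of_nonneg (sq_nonneg _)]
      exact hdle k x _
  have hT : ∀ k, Tst μ (fun x => g k (f x)) := fun k =>
    ⟨hgc k, ⟨_, fun x => g_bdd k (f x)⟩, hgi k⟩
  have hV : ∀ k, ∫ x, g k (f x) ^ 2 ∂μ - (∫ x, g k (f x) ∂μ) ^ 2 ≤ A := by
    intro k
    refine (H _ (hT k)).trans ?_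
    refine integral_mono (integrable_finsetSum _ fun i _ => (hgi k i).const_mul _)
      (integrable_finsetSum _ fun i _ => (hq i).const_mul _) fun x => ?_
    exact Finset.sum_le_sum fun i _ => mul_le_mul_of_nonneg_left (hdle k x _) (hw i)
  have hm : ∀ k, Measurable fun x => g k (f x) := fun k => (hgc k).continuous.measurable
  have hM : ∀ k, MemLp (fun x => g k (f x)) 2 μ := fun k =>
    MemLp.of_bound (hm k).aestronglyMeasurable _ (Eventually.of_forall fun x => g_bdd k (f x))
  have hA0 : 0 ≤ A := integral_nonneg fun x => Finset.sum_nonneg fun i _ =>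
    mul_nonneg (hw i) (sq_nonneg _)
  -- a ball of large measure
  obtain ⟨a, ha⟩ : ∃ a : ℕ, (1 / 2 : ENNReal) ≤ μ {x | |f x| ≤ a} := by
    have h1 : Tendsto (fun a : ℕ => μ {x | |f x| ≤ a}) atTop (𝓝 (μ (⋃ a : ℕ, {x | |f x| ≤ a}))) :=
      tendsto_measure_iUnion_atTop fun a b hab x hx => le_trans (α := ℝ) hx (by exact_mod_cast hab)
    have h2 : (⋃ a : ℕ, {x | |f x| ≤ a}) = Set.univ := by
      ext x
      simp only [Set.mem_iUnion, Set.mem_ofPred_eq, Set.mem_univ, iff_true]
      exact exists_nat_ge |f x|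
    rw [h2, measure_univ] at h1
    have h3 : (1 / 2 : ENNReal) < 1 := by
      rw [one_div]; exact ENNReal.inv_lt_one.2 (by norm_num)
    exact ((h1.eventually_const_lt h3).exists).imp fun a h => h.le
  have hmk : ∀ k, |∫ x, g k (f x) ∂μ| ≤ a + Real.sqrt (2 * A) := by
    intro k
    set m := ∫ x, g k (f x) ∂μ with hmdef
    rcases le_or_gt |m| a with h | h
    · exact h.trans (le_add_of_nonneg_right (Real.sqrt_nonneg _))
    have hi : Integrable (fun x => (g k (f x) - m) ^ 2) μ :=
      ((hM k).sub (memLp_const m)).integrable_sq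
    have h1 := mul_meas_ge_le_integral_of_nonneg (μ := μ)
      (Eventually.of_forall fun x => sq_nonneg (g k (f x) - m)) hi ((|m| - a) ^ 2)
    have h2 : (1 / 2 : ℝ) ≤ μ.real {x | (|m| - a) ^ 2 ≤ (g k (f x) - m) ^ 2} := by
      have h3 : (1 / 2 : ENNReal) ≤ μ {x | (|m| - a) ^ 2 ≤ (g k (f x) - m) ^ 2} := by
        refine ha.trans (measure_mono fun x hx => ?_)
        have hx' : |f x| ≤ a := hx
        have h4 : |g k (f x)| ≤ a := (g_le k _).trans hx'
        have h5 : |m| - a ≤ |g k (f x) - m| := by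
          have := abs_sub_abs_le_abs_sub m (g k (f x))
          rw [abs_sub_comm] at this
          linarith
        show (|m| - a) ^ 2 ≤ (g k (f x) - m) ^ 2
        rw [← sq_abs (g k (f x) - m)]
        exact pow_le_pow_left₀ (by linarith) h5 2
      have h6 := ENNReal.toReal_mono (measure_ne_top μ _) h3
      simpa [Measure.real] using h6
    have h3 : ∫ x, (g k (f x) - m) ^ 2 ∂μ ≤ A := by
      have h4 := hV k
      have h5 : variance (fun x => g k (f x)) μ = ∫ x, g k (f x) ^ 2 ∂μ - m ^ 2 := by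
        rw [variance_eq_sub (hM k)]
        simp [hmdef]
      have h6 : variance (fun x => g k (f x)) μ = ∫ x, (g k (f x) - m) ^ 2 ∂μ :=
        variance_eq_integral (hM k).aestronglyMeasurable.aemeasurable
      rw [← h6, h5]
      exact h4
    have h4 : (|m| - a) ^ 2 ≤ 2 * A := by
      nlinarith [sq_nonneg (|m| - a)]
    have h5 : |m| - a ≤ Real.sqrt (2 * A) := Real.le_sqrt_of_sq_le h4
    linarith
  set Bd := A + (a + Real.sqrt (2 * A)) ^ 2 with hBd
  have hb : ∀ k, ∫ x, g k (f x) ^ 2 ∂μ ≤ Bd := by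
    intro k
    have h1 := hV k
    have h2 : (∫ x, g k (f x) ∂μ) ^ 2 ≤ (a + Real.sqrt (2 * A)) ^ 2 := by
      rw [← sq_abs]
      exact pow_le_pow_left₀ (abs_nonneg _) (hmk k) 2
    linarith
  have hint : Integrable (fun x => f x ^ 2) μ := by
    refine ⟨(hfc.pow 2).aestronglyMeasurable, ?_⟩
    rw [hasFiniteIntegral_iff_ofReal (Eventually.of_forall fun x => sq_nonneg (f x))]
    have h1 : ∀ x, ENNReal.ofReal (f x ^ 2) = liminf (fun k : ℕ => ENNReal.ofReal (g k (f x) ^ 2))
        atTop := fun x =>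
      (((ENNReal.continuous_ofReal.tendsto _).comp ((g_tendsto (f x)).pow 2)).liminf_eq).symm
    simp_rw [h1]
    refine (lintegral_liminf_le fun k => ((hm k).pow_const 2).ennreal_ofReal).trans_lt ?_
    refine lt_of_le_of_lt ?_ (ENNReal.ofReal_lt_top (r := Bd))
    refine liminf_le_of_frequently_le' (Eventually.frequently (Eventually.of_forall fun k => ?_))
    rw [← ofReal_integral_eq_lintegral_ofReal (hM k).integrable_sq
      (Eventually.of_forall fun x => sq_nonneg _)]
    exact ENNReal.ofReal_le_ofReal (hb k)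
  have hL : MemLp f 2 μ := (memLp_two_iff_integrable_sq hfc.aestronglyMeasurable).2 hint
  refine ⟨hL, ?_⟩
  have t1 : Tendsto (fun k : ℕ => ∫ x, g k (f x) ^ 2 ∂μ) atTop (𝓝 (∫ x, f x ^ 2 ∂μ)) := by
    refine tendsto_integral_of_dominated_convergence (fun x => f x ^ 2)
      (fun k => ((hm k).pow_const 2).aestronglyMeasurable) hint
      (fun k => Eventually.of_forall fun x => ?_) (Eventually.of_forall fun x => ?_)
    · rw [Real.norm_eq_abs, abs_pow, ← sq_abs (f x)]
      exact pow_le_pow_left₀ (abs_nonneg _) (g_le k _) 2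
    · exact (g_tendsto (f x)).pow 2
  have t2 : Tendsto (fun k : ℕ => ∫ x, g k (f x) ∂μ) atTop (𝓝 (∫ x, f x ∂μ)) := by
    refine tendsto_integral_of_dominated_convergence (fun x => |f x|)
      (fun k => (hm k).aestronglyMeasurable) (hL.integrable one_le_two).abs
      (fun k => Eventually.of_forall fun x => g_le k _) (Eventually.of_forall fun x => g_tendsto _)
  have h1 := le_of_tendsto' (t1.sub (t2.pow 2)) hV
  rw [variance_eq_sub hL]
  simpa using h1

end Pool.Agent.K6.H46.LT
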